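import Mathlib
import Pool.Agent.H24.MR.Interface

/-!
Interface for the project T2 on `MP_c59857_nt`: a bound for the sums of Chowla's conjecture in
almost all short intervals (logarithmic sense), uniform in the shifts.
-/

set_option autoImplicit false

open Finset Filter

namespace Pool.Agent.H24.T2

open Pool.Agent.H24.MR (lam FinAddInv)

/-- primes `≡ 1 (mod Q)` in `(2 ^ m, 2 ^ (m + 1)]` (same as `Pool.Agent.H18.MR.Pset`) -/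
def Pset (Q m : ℕ) : Finset ℕ :=
  (Finset.Ioc (2 ^ m) (2 ^ (m + 1))).filter (fun p => p.Prime ∧ p ≡ 1 [MOD Q])

/-- the product of the values of `a` at `y + p * β i` -/
def rel {k : ℕ} (β : Fin k → ℕ) (a : ℕ → ℝ) (p y : ℕ) : ℝ := ∏ i, a (y + p * β i)

/-- decoupling at scale `m`: for most primes `p` of the scale the relation `rel β a p y = σ` for
`p ∣ y` implies the same relation without the divisibility condition -/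
def Dec {k : ℕ} (β : Fin k → ℕ) (ν : Set ℕ → ℝ) (a : ℕ → ℝ) (Q u₀ : ℕ) (θ : ℝ) (m : ℕ) : Prop :=
  ∃ X : Finset ℕ, (X.card : ℝ) ≤ θ * (Pset Q m).card ∧
    ∀ p ∈ Pset Q m, p ∉ X → ∀ σ : ℝ,
      ν {y | y ≡ u₀ [MOD Q] ∧ rel β a p y ≠ σ} ≤
        10 * (p * ν {y | y ≡ u₀ [MOD Q] ∧ p ∣ y ∧ rel β a p y ≠ σ}) + θ / Q

/-- [EN2] entropy decrement, uniform in the measure and the function: most scales of a fixed
finite weighted set of dense scales decouple. -/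
def StatementEN2 : Prop :=
  ∃ c₀ : ℝ, 0 < c₀ ∧ ∀ (Q k : ℕ) (β : Fin k → ℕ) (θ ρ : ℝ) (m₀ : ℕ), 0 < Q → 0 < θ → 0 < ρ →
    ∃ (M : Finset ℕ) (wt : ℕ → ℝ),
      (∀ m ∈ M, m₀ ≤ m ∧ c₀ * 2 ^ m / (Nat.totient Q * m) ≤ ((Pset Q m).card : ℝ) ∧ 0 ≤ wt m) ∧
      ∑ m ∈ M, wt m = 1 ∧
      ∀ ν : Set ℕ → ℝ, FinAddInv ν → ∀ a : ℕ → ℝ, (∀ n, a n = 1 ∨ a n = -1) → ∀ u₀ : ℕ,
        ∀ Bad : Finset ℕ, Bad ⊆ M → (∀ m ∈ Bad, ¬ Dec β ν a Q u₀ θ m) → ∑ m ∈ Bad, wt m ≤ ρ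

/-- [PSK] cubes in dense sets of primes: the difference vectors of the `k`-dimensional cubes have
positive density, independently of `Q`. -/
def StatementPSK : Prop :=
  ∀ (k : ℕ) (c₀ : ℝ), 0 < c₀ → ∃ c₁ : ℝ, 0 < c₁ ∧ ∀ Q : ℕ, 0 < Q → Even Q →
    ∃ m₁ : ℕ, ∀ m, m₁ ≤ m → ∀ G : Finset ℕ, G ⊆ Pset Q m →
      c₀ * 2 ^ m / (Nat.totient Q * m) ≤ (G.card : ℝ) →
      ∃ D : Finset (Fin k → ℤ),
        (∀ t ∈ D, (∀ i, |t i| ≤ ((2 ^ m / Q : ℕ) : ℤ)) ∧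
          ∃ g : ℤ, ∀ ω : Finset (Fin k), ∃ p ∈ G, (p : ℤ) = g + Q * ∑ i ∈ ω, t i) ∧
        c₁ * ((2 ^ m / Q : ℕ) : ℝ) ^ k ≤ (D.card : ℝ)

/-- [COVK] covering step in dimension `k`: if the `k`-fold derivatives of `a` along the class
`c'` mod `Q` are almost constant for a positive density set of directions, then `a` is almost
periodic along the class. -/
def StatementCOVK : Prop :=
  ∀ (k : ℕ) (c₁ : ℝ), 0 < c₁ → ∃ Cc : ℝ, 0 < Cc ∧ ∀ γ : Fin k → ℤ, (∀ i, γ i ≠ 0) →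
    ∃ Ms Mt : ℕ, 0 < Ms ∧ 0 < Mt ∧
      ∀ ν : Set ℕ → ℝ, FinAddInv ν → ∀ a : ℕ → ℝ, (∀ n, a n = 1 ∨ a n = -1) →
      ∀ (Q c' T : ℕ) (δ : ℝ) (D : Finset (Fin k → ℤ)), 0 < Q → 0 ≤ δ →
        (∀ t ∈ D, ∀ i, |t i| ≤ (T : ℤ)) → c₁ * (T : ℝ) ^ k ≤ (D.card : ℝ) →
        (∀ t ∈ D, ∃ τ : ℝ, ν {z : ℕ | z ≡ c' [MOD Q] ∧
          ∏ ω : Finset (Fin k), a (((z : ℤ) + Q * ∑ j ∈ ω, t j * γ j).toNat) ≠ τ} ≤ δ / Q) →
        ∀ h : ℕ, h * Mt ≤ T → ν {z | z ≡ c' [MOD Q] ∧ a z ≠ a (z + Q * Ms * h)} ≤ Cc * δ / Q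

/-- the Matomaki-Radziwill property of a finitely additive measure -/
def MRprop (μ : Set ℕ → ℝ) : Prop :=
  ∀ (W b : ℕ) (ε : ℝ), 0 < W → 0 < ε → ∃ h₀ : ℕ, ∀ h, h₀ ≤ h →
    μ {z | z ≡ b [MOD W] ∧ ε * h ≤ |∑ y ∈ Finset.range h, lam (z + W * y)|} ≤ ε

/-- [LOC] the local contradiction (uses EN2, PSK, COVK). -/
def StatementLOC : Prop :=
  ∀ (k : ℕ) (δ : ℝ), 0 < k → 0 < δ → ∃ η : ℝ, 0 < η ∧
    ∀ (Q c : ℕ) (β : Fin k → ℕ), 0 < Q → Even Q → Function.Injective β →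
    ∀ μ : Set ℕ → ℝ, FinAddInv μ → MRprop μ →
    ∀ σ : ℕ → ℕ → ℤ, (∀ p y, σ p y = 0 ∨ σ p y = 1 ∨ σ p y = -1) →
      (∀ p, p.Prime → p ≡ 1 [MOD Q] → μ {y | σ p y ≠ σ p (y + 1)} = 0) →
      (∀ p, p.Prime → p ≡ 1 [MOD Q] → δ ≤ μ {y | σ p y ≠ 0}) →
      (∀ p, p.Prime → p ≡ 1 [MOD Q] →
        μ {y | y ≡ c [MOD Q] ∧ p ∣ y ∧ σ p y ≠ 0 ∧ rel β lam p y ≠ (σ p y : ℝ)} ≤ η / (p * Q)) →
      False

open Classical in
/-- logarithmic density along an ultrafilter `U` and a sequence of lengths `N k`. -/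
noncomputable def ldens (U : Ultrafilter ℕ) (N : ℕ → ℕ) (A : Set ℕ) : ℝ :=
  limUnder (U : Filter ℕ)
    (fun k => (∑ n ∈ (Finset.Icc 1 (N k)).filter (fun n => n ∈ A), (1 : ℝ) / n)
      / Real.log (N k : ℝ))

open Classical in
/-- [LD] facts on logarithmic density (the last one uses `StatementMR`). -/
def StatementLD : Prop :=
  ∀ (U : Ultrafilter ℕ) (N : ℕ → ℕ), Tendsto N (U : Filter ℕ) atTop →
    FinAddInv (ldens U N) ∧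
    (∀ (A : Set ℕ) (p : ℕ), 0 < p → ldens U N {y | p ∣ y ∧ y / p ∈ A} = ldens U N A / p) ∧
    (∀ (A : Set ℕ) (p : ℕ), 0 < p → ldens U N {y | y / p ∈ A} = ldens U N A) ∧
    (∀ (A : Set ℕ) (x : ℝ), (∀ᶠ k in (U : Filter ℕ),
      ∑ n ∈ (Finset.Icc 1 (N k)).filter (fun n => n ∈ A), (1 : ℝ) / n ≤ x * Real.log (N k : ℝ)) →
      ldens U N A ≤ x) ∧
    (∀ (A : Set ℕ) (x : ℝ), (∀ᶠ k in (U : Filter ℕ), x * Real.log (N k : ℝ) ≤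
      ∑ n ∈ (Finset.Icc 1 (N k)).filter (fun n => n ∈ A), (1 : ℝ) / n) → x ≤ ldens U N A) ∧
    (∀ (A : Set ℕ) (x C₁ C₂ : ℝ), 0 ≤ C₂ → (∀ n : ℕ,
      (((Finset.range n).filter (fun m => m ∈ A)).card : ℝ) ≤ x * n + C₁ + C₂ * Real.sqrt n) →
      ldens U N A ≤ x) ∧
    MRprop (ldens U N)

/-- the product of Chowla's conjecture -/
noncomputable def Fr {r : ℕ} (α : Fin r → ℤ) (ε : Fin r → ℕ) (m : ℕ) : ℝ :=
  ∏ i, ((ArithmeticFunction.moebius (((m : ℤ) + α i).toNat) : ℤ) : ℝ) ^ ε i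

open Classical in
/-- [T2] the target theorem. -/
def StatementT2 : Prop :=
  ∀ (r : ℕ) (δ : ℝ), 0 < δ → ∃ κ : ℝ, 0 < κ ∧
    ∀ (α : Fin r → ℤ) (ε : Fin r → ℕ) (q n₀ : ℕ), Function.Injective α → (∀ i, 1 ≤ ε i) →
      (∃ i, Odd (ε i)) → 0 < q →
      ∃ h₀ : ℕ, ∀ h, h₀ ≤ h → ∃ N₀ : ℕ, ∀ N, N₀ ≤ N →
        ∑ n ∈ (Finset.Icc 1 N).filter (fun n : ℕ =>
          (1 - κ) * (∑ m ∈ (Finset.Ioc n (n + h)).filter (fun m => m ≡ n₀ [MOD q]), |Fr α ε m|)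
            < |∑ m ∈ (Finset.Ioc n (n + h)).filter (fun m => m ≡ n₀ [MOD q]), Fr α ε m|),
          (1 : ℝ) / n ≤ δ * Real.log N

/-- [FE] the front end: reduction of the theorem to the local contradiction. -/
def StatementFE : Prop := StatementLOC → StatementLD → StatementT2

open Classical in
/-- [SC] positive lower density of sign changes at bounded gaps (natural density, all scales). -/
def StatementSC : Prop :=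
  ∀ (r : ℕ) (α : Fin r → ℤ) (ε : Fin r → ℕ) (q n₀ : ℕ), Function.Injective α → (∀ i, 1 ≤ ε i) →
    (∃ i, Odd (ε i)) → 0 < q → Fr α ε n₀ ≠ 0 →
    ∃ (h : ℕ) (c : ℝ), 0 < c ∧ ∀ᶠ N : ℕ in atTop,
      c * N ≤ (((Finset.Icc 1 N).filter (fun n : ℕ =>
        (∃ i ∈ Finset.Icc n (n + h), i ≡ n₀ [MOD q] ∧ Fr α ε i = 1) ∧
        (∃ j ∈ Finset.Icc n (n + h), j ≡ n₀ [MOD q] ∧ Fr α ε j = -1))).card : ℝ)

/-- [SCF] natural density front end. -/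
def StatementSCF : Prop := StatementLOC → StatementSC

end Pool.Agent.H24.T2
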