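import Mathlib
import Pool.Agent.H24.T2.Interface
import Pool.Agent.H59.MR.Dens

/-!
[LD]: facts on logarithmic density (project T2 on `MP_c59857_nt`).
-/

set_option autoImplicit false

open Finset Filter Topology

namespace Pool.Agent.H24.T2

open Pool.Agent.H24.MR (lam FinAddInv StatementMR)
open Pool.Agent.H59.MR

open Classical in
/-- logarithmic sum of `A` -/
noncomputable def lsum (A : Set ℕ) (n : ℕ) : ℝ :=
  ∑ m ∈ (Finset.Icc 1 n).filter (fun m => m ∈ A), (1 : ℝ) / m

theorem lsum_eq_ite (A : Set ℕ) [DecidablePred (fun m => m ∈ A)] (n : ℕ) :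
    lsum A n = ∑ m ∈ Finset.Icc 1 n, (if m ∈ A then (1 : ℝ) / m else 0) := by
  classical
  unfold lsum
  rw [Finset.sum_filter]
  refine Finset.sum_congr rfl fun m _ => ?_
  congr

theorem lsum_nonneg (A : Set ℕ) (n : ℕ) : 0 ≤ lsum A n :=
  Finset.sum_nonneg fun m _ => by positivity

theorem lsum_univ (n : ℕ) : lsum Set.univ n = (harmonic n : ℝ) := by
  classical
  rw [lsum_eq_ite, harmonic_eq_sum_Icc]
  push_cast
  refine Finset.sum_congr rfl fun m _ => by simp

theorem lsum_mono {A B : Set ℕ} (h : A ⊆ B) (n : ℕ) : lsum A n ≤ lsum B n := by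
  classical
  rw [lsum_eq_ite, lsum_eq_ite]
  refine Finset.sum_le_sum fun m _ => ?_
  by_cases hA : m ∈ A
  · simp [hA, h hA]
  · simp only [hA, if_false]
    split_ifs <;> positivity

theorem lsum_le (A : Set ℕ) (n : ℕ) : lsum A n ≤ 1 + Real.log n := by
  refine (lsum_mono (Set.subset_univ A) n).trans ?_
  rw [lsum_univ]
  exact harmonic_le_one_add_log n

theorem le_lsum_univ (n : ℕ) : Real.log n ≤ lsum Set.univ n := by
  rw [lsum_univ]
  refine le_trans ?_ (log_add_one_le_harmonic n)
  rcases Nat.eq_zero_or_pos n with h | h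
  · subst h; simp
  · apply Real.log_le_log (by exact_mod_cast h)
    push_cast; linarith

variable {U : Ultrafilter ℕ} {N : ℕ → ℕ}

theorem log_tendsto (hN : Tendsto N (U : Filter ℕ) atTop) :
    Tendsto (fun k => Real.log (N k : ℝ)) (U : Filter ℕ) atTop :=
  Real.tendsto_log_atTop.comp (tendsto_natCast_atTop_atTop.comp hN)

theorem const_div_log (hN : Tendsto N (U : Filter ℕ) atTop) (C : ℝ) :
    Tendsto (fun k => C / Real.log (N k : ℝ)) (U : Filter ℕ) (𝓝 0) :=
  (log_tendsto hN).const_div_atTop C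

theorem tendsto_ldens (hN : Tendsto N (U : Filter ℕ) atTop) (A : Set ℕ) :
    Tendsto (fun k => lsum A (N k) / Real.log (N k : ℝ)) (U : Filter ℕ) (𝓝 (ldens U N A)) := by
  have hc : IsCompact (Set.Icc (0 : ℝ) 2) := isCompact_Icc
  have hle : ((U.map (fun k => lsum A (N k) / Real.log (N k : ℝ)) : Ultrafilter ℝ) : Filter ℝ) ≤
      𝓟 (Set.Icc (0 : ℝ) 2) := by
    rw [le_principal_iff, Ultrafilter.mem_coe, Ultrafilter.mem_map]
    have h1 := (log_tendsto hN).eventually (eventually_ge_atTop 1)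
    filter_upwards [h1] with k hk
    constructor
    · exact div_nonneg (lsum_nonneg _ _) (by linarith)
    · rw [div_le_iff₀ (by linarith)]
      have := lsum_le A (N k)
      linarith
  obtain ⟨x, -, hx⟩ := hc.ultrafilter_le_nhds _ hle
  have ht : Tendsto (fun k => lsum A (N k) / Real.log (N k : ℝ)) (U : Filter ℕ) (𝓝 x) := hx
  have : ldens U N A = x := by
    unfold ldens
    exact ht.limUnder_eq
  rw [this]
  exact ht

theorem ldens_eq_of_tendsto (hN : Tendsto N (U : Filter ℕ) atTop) {A : Set ℕ} {x : ℝ}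
    (h : Tendsto (fun k => lsum A (N k) / Real.log (N k : ℝ)) (U : Filter ℕ) (𝓝 x)) :
    ldens U N A = x :=
  tendsto_nhds_unique (tendsto_ldens hN A) h

theorem ldens_eq_of_close (hN : Tendsto N (U : Filter ℕ) atTop) {A : Set ℕ} {x C : ℝ} (g : ℕ → ℝ)
    (hg : ∀ n, |lsum A n - g n| ≤ C)
    (h : Tendsto (fun k => g (N k) / Real.log (N k : ℝ)) (U : Filter ℕ) (𝓝 x)) :
    ldens U N A = x := by
  apply ldens_eq_of_tendsto hN
  have hd : Tendsto (fun k => lsum A (N k) / Real.log (N k : ℝ) - g (N k) / Real.log (N k : ℝ))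
      (U : Filter ℕ) (𝓝 0) := by
    refine squeeze_zero_norm' ?_ (const_div_log hN C)
    have h1 := (log_tendsto hN).eventually (eventually_gt_atTop 0)
    filter_upwards [h1] with k hk
    rw [Real.norm_eq_abs, ← sub_div, abs_div, abs_of_pos hk]
    exact div_le_div_of_nonneg_right (hg _) hk.le
  have := hd.add h
  simpa using this

theorem ldens_le (hN : Tendsto N (U : Filter ℕ) atTop) {A : Set ℕ} {x C : ℝ}
    (h : ∀ᶠ k in (U : Filter ℕ), lsum A (N k) ≤ x * Real.log (N k : ℝ) + C) :
    ldens U N A ≤ x := by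
  have h2 : Tendsto (fun k => x + C / Real.log (N k : ℝ)) (U : Filter ℕ) (𝓝 x) := by
    have := (const_div_log hN C).const_add x
    simpa using this
  refine le_of_tendsto_of_tendsto (tendsto_ldens hN A) h2 ?_
  have h1 := (log_tendsto hN).eventually (eventually_gt_atTop 0)
  filter_upwards [h1, h] with k hk hk2
  rw [div_le_iff₀ hk, add_mul, div_mul_cancel₀ _ hk.ne']
  exact hk2

theorem le_ldens (hN : Tendsto N (U : Filter ℕ) atTop) {A : Set ℕ} {x : ℝ}
    (h : ∀ᶠ k in (U : Filter ℕ), x * Real.log (N k : ℝ) ≤ lsum A (N k)) :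
    x ≤ ldens U N A := by
  refine ge_of_tendsto (tendsto_ldens hN A) ?_
  have h1 := (log_tendsto hN).eventually (eventually_gt_atTop 0)
  filter_upwards [h1, h] with k hk hk2
  rw [le_div_iff₀ hk]
  exact hk2

theorem lsum_union {A B : Set ℕ} (hAB : Disjoint A B) (n : ℕ) :
    lsum (A ∪ B) n = lsum A n + lsum B n := by
  classical
  rw [lsum_eq_ite, lsum_eq_ite, lsum_eq_ite, ← Finset.sum_add_distrib]
  refine Finset.sum_congr rfl fun m _ => ?_
  by_cases hA : m ∈ A
  · have hB : m ∉ B := Set.disjoint_left.1 hAB hA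
    simp [hA, hB]
  · by_cases hB : m ∈ B
    · simp [hA, hB]
    · simp [hA, hB]

theorem lsum_shift (A : Set ℕ) (n : ℕ) : |lsum {m | m + 1 ∈ A} n - lsum A n| ≤ 2 := by
  classical
  have key : lsum {m | m + 1 ∈ A} n + (if 1 ∈ A then 1 else 0) =
      lsum A n + (if n + 1 ∈ A then (1 : ℝ) / (n + 1) else 0) +
        ∑ m ∈ Finset.Icc 1 n, (if m + 1 ∈ A then (1 : ℝ) / m - 1 / (m + 1) else 0) := by
    induction n with
    | zero => simp [lsum]
    | succ n ih =>
      rw [lsum_eq_ite] at ih ⊢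
      rw [lsum_eq_ite] at ih ⊢
      rw [Finset.sum_Icc_succ_top (by omega), Finset.sum_Icc_succ_top (by omega),
        Finset.sum_Icc_succ_top (by omega)]
      simp only [Set.mem_ofPred_eq] at ih ⊢
      push_cast
      split_ifs at ih ⊢ <;> linarith
  have h1 : 0 ≤ ∑ m ∈ Finset.Icc 1 n, (if m + 1 ∈ A then (1 : ℝ) / m - 1 / (m + 1) else 0) := by
    refine Finset.sum_nonneg fun m hm => ?_
    split_ifs
    · have : (1 : ℝ) ≤ m := by exact_mod_cast (Finset.mem_Icc.1 hm).1
      rw [sub_nonneg]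
      apply one_div_le_one_div_of_le <;> linarith
    · exact le_refl _
  have h2 : ∑ m ∈ Finset.Icc 1 n, (if m + 1 ∈ A then (1 : ℝ) / m - 1 / (m + 1) else 0) ≤
      1 - 1 / (n + 1) := by
    clear key h1
    induction n with
    | zero => simp
    | succ n ih =>
      rw [Finset.sum_Icc_succ_top (by omega)]
      have h3 : (1 : ℝ) / ((n + 1 : ℕ) : ℝ) - 1 / (((n + 1 : ℕ) : ℝ) + 1) ≥ 0 := by
        push_cast
        rw [ge_iff_le, sub_nonneg]
        apply one_div_le_one_div_of_le <;> [positivity; linarith]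
      push_cast at h3 ⊢
      split_ifs <;> linarith
  have h3 : (0 : ℝ) ≤ 1 / (n + 1) := by positivity
  have h4 : (1 : ℝ) / (n + 1) ≤ 1 := by
    rw [div_le_one (by positivity)]
    have : (0 : ℝ) ≤ n := Nat.cast_nonneg n
    linarith
  rw [abs_le]
  split_ifs at key <;> constructor <;> linarith

theorem finAddInv_ldens (hN : Tendsto N (U : Filter ℕ) atTop) : FinAddInv (ldens U N) where
  nonneg A := by
    apply le_ldens hN
    exact Filter.Eventually.of_forall fun k => by rw [zero_mul]; exact lsum_nonneg _ _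
  univ := by
    apply le_antisymm
    · apply ldens_le hN (C := 1)
      exact Filter.Eventually.of_forall fun k => by linarith [lsum_le Set.univ (N k)]
    · apply le_ldens hN
      exact Filter.Eventually.of_forall fun k => by rw [one_mul]; exact le_lsum_univ _
  add A B hAB := by
    apply ldens_eq_of_tendsto hN
    have := (tendsto_ldens hN A).add (tendsto_ldens hN B)
    refine this.congr (fun k => ?_)
    rw [lsum_union hAB, add_div]
  shift A := ldens_eq_of_close hN (fun n => lsum A n) (lsum_shift A) (tendsto_ldens hN A)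

theorem lsum_dvd (A : Set ℕ) (p : ℕ) (hp : 0 < p) (n : ℕ) :
    lsum {y | p ∣ y ∧ y / p ∈ A} n = lsum A (n / p) / p := by
  classical
  rw [lsum, lsum, Finset.sum_div]
  symm
  apply Finset.sum_nbij (fun m => p * m)
  · intro m hm
    simp only [Finset.mem_filter, Finset.mem_Icc, Set.mem_ofPred_eq] at hm ⊢
    refine ⟨⟨by nlinarith [hm.1.1], ?_⟩, dvd_mul_right _ _, ?_⟩
    · calc p * m ≤ p * (n / p) := Nat.mul_le_mul_left _ hm.1.2
        _ ≤ n := Nat.mul_div_le _ _
    · rw [Nat.mul_div_cancel_left _ hp]; exact hm.2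
  · intro a _ b _ hab
    exact Nat.eq_of_mul_eq_mul_left hp hab
  · intro y hy
    simp only [Finset.coe_filter, Finset.mem_Icc, Set.mem_ofPred_eq, Set.mem_image] at hy ⊢
    obtain ⟨⟨h1, h2⟩, ⟨m, rfl⟩, h3⟩ := hy
    rw [Nat.mul_div_cancel_left _ hp] at h3
    refine ⟨m, ⟨⟨?_, ?_⟩, h3⟩, rfl⟩
    · rcases Nat.eq_zero_or_pos m with h | h
      · subst h; omega
      · exact h
    · rw [Nat.le_div_iff_mul_le hp, mul_comm]; exact h2
  · intro m _
    push_cast
    rw [div_div, mul_comm (m : ℝ)]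

theorem lsum_div_close (A : Set ℕ) (p : ℕ) (hp : 0 < p) (n : ℕ) :
    |lsum A (n / p) - lsum A n| ≤ 1 + Real.log p := by
  classical
  have hpR : (1 : ℝ) ≤ p := by exact_mod_cast hp
  have hlogp : 0 ≤ Real.log p := Real.log_nonneg hpR
  have hle : n / p ≤ n := Nat.div_le_self _ _
  have hsplit : ∀ B : Set ℕ, lsum B n = lsum B (n / p) +
      ∑ m ∈ Finset.Ioc (n / p) n, (if m ∈ B then (1 : ℝ) / m else 0) := by
    intro B
    rw [lsum_eq_ite, lsum_eq_ite]
    have e0 : ∀ q, q ≤ n → Finset.Icc 1 n = Finset.Icc 1 q ∪ Finset.Ioc q n := by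
      intro q hq
      ext m
      simp only [Finset.mem_union, Finset.mem_Icc, Finset.mem_Ioc]
      omega
    have e1 := e0 _ hle
    rw [e1, Finset.sum_union]
    rw [Finset.disjoint_left]
    intro m hm hm'
    rw [Finset.mem_Icc] at hm
    rw [Finset.mem_Ioc] at hm'
    omega
  have h1 := hsplit A
  have h2 := hsplit Set.univ
  have h3 : ∑ m ∈ Finset.Ioc (n / p) n, (if m ∈ A then (1 : ℝ) / m else 0) ≤
      ∑ m ∈ Finset.Ioc (n / p) n, (if m ∈ (Set.univ : Set ℕ) then (1 : ℝ) / m else 0) := by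
    refine Finset.sum_le_sum fun m _ => ?_
    simp only [Set.mem_univ, if_true]
    split_ifs
    · exact le_refl _
    · positivity
  have h4 : 0 ≤ ∑ m ∈ Finset.Ioc (n / p) n, (if m ∈ A then (1 : ℝ) / m else 0) := by
    refine Finset.sum_nonneg fun m _ => ?_
    split_ifs <;> positivity
  have h5 : lsum Set.univ n ≤ 1 + Real.log n := lsum_le _ _
  have h6 : Real.log ((n / p : ℕ) + 1) ≤ lsum Set.univ (n / p) := by
    rw [lsum_univ]
    have := log_add_one_le_harmonic (n / p)
    push_cast at this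
    exact this
  have h7 : Real.log n ≤ Real.log ((n / p : ℕ) + 1) + Real.log p := by
    rcases Nat.eq_zero_or_pos n with h | h
    · subst h
      simp only [Nat.cast_zero, Real.log_zero, Nat.zero_div, zero_add, Real.log_one]
      exact hlogp
    · rw [← Real.log_mul (by positivity) (by positivity)]
      apply Real.log_le_log (by exact_mod_cast h)
      have := Nat.lt_mul_div_succ n hp
      have h8 : n ≤ (n / p + 1) * p := by
        rw [mul_comm]; exact this.le
      exact_mod_cast h8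
  simp only [Set.mem_univ, if_true] at h2 h3
  rw [abs_le]
  constructor <;> linarith

theorem ldens_dvd (hN : Tendsto N (U : Filter ℕ) atTop) (A : Set ℕ) (p : ℕ) (hp : 0 < p) :
    ldens U N {y | p ∣ y ∧ y / p ∈ A} = ldens U N A / p := by
  have hpR : (0 : ℝ) < p := by exact_mod_cast hp
  apply ldens_eq_of_close hN (C := (1 + Real.log p) / p) (fun n => lsum A n / p)
  · intro n
    rw [lsum_dvd A p hp, ← sub_div, abs_div, abs_of_pos hpR]
    exact div_le_div_of_nonneg_right (lsum_div_close A p hp n) hpR.le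
  · have := (tendsto_ldens hN A).div_const (p : ℝ)
    refine this.congr fun k => ?_
    rw [div_div, div_div, mul_comm]

theorem ldens_div (hN : Tendsto N (U : Filter ℕ) atTop) (A : Set ℕ) (p : ℕ) (hp : 0 < p) :
    ldens U N {y | y / p ∈ A} = ldens U N A := by
  have hf := finAddInv_ldens hN
  have hpR : (0 : ℝ) < p := by exact_mod_cast hp
  have h1 : {y : ℕ | y / p ∈ A} = {y | ∃ i ∈ Finset.range p, y ∈ {y : ℕ | y % p = i ∧ y / p ∈ A}} := by
    ext y
    simp only [Set.mem_ofPred_eq, Finset.mem_range]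
    constructor
    · intro h
      exact ⟨y % p, Nat.mod_lt _ hp, rfl, h⟩
    · rintro ⟨i, _, _, h⟩
      exact h
  rw [h1, ← fai_sum_eq hf]
  · have h2 : ∀ i ∈ Finset.range p, ldens U N {y : ℕ | y % p = i ∧ y / p ∈ A} =
        ldens U N A / p := by
      intro i hi
      rw [Finset.mem_range] at hi
      rw [← ldens_dvd hN A p hp, ← fai_shift' hf i]
      congr 1
      ext y
      simp only [Set.mem_ofPred_eq]
      constructor
      · rintro ⟨h3, h4⟩
        have h5 : p ∣ y := by
          have h6 : y + i ≡ 0 + i [MOD p] := by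
            rw [zero_add]
            show (y + i) % p = i % p
            rw [h3, Nat.mod_eq_of_lt hi]
          exact (Nat.modEq_zero_iff_dvd).1 (Nat.ModEq.add_right_cancel' i h6)
        refine ⟨h5, ?_⟩
        obtain ⟨m, rfl⟩ := h5
        rw [Nat.mul_add_div hp, Nat.div_eq_of_lt hi, add_zero] at h4
        rw [Nat.mul_div_cancel_left _ hp]
        exact h4
      · rintro ⟨⟨m, rfl⟩, h4⟩
        rw [Nat.mul_div_cancel_left _ hp] at h4
        rw [Nat.mul_add_div hp, Nat.div_eq_of_lt hi, add_zero, Nat.mul_add_mod,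
          Nat.mod_eq_of_lt hi]
        exact ⟨rfl, h4⟩
    rw [Finset.sum_congr rfl h2, Finset.sum_const, Finset.card_range, nsmul_eq_mul]
    field_simp
  · intro i _ j _ hij
    rw [Set.disjoint_left]
    rintro y ⟨h3, _⟩ ⟨h4, _⟩
    exact hij (h3.symm.trans h4)

theorem sum_sqrt (n : ℕ) : ∑ m ∈ Finset.Icc 1 n, (1 : ℝ) / (m * Real.sqrt (m + 1)) ≤
    4 - 4 / Real.sqrt (n + 1) := by
  induction n with
  | zero => simp
  | succ n ih =>
    rw [Finset.sum_Icc_succ_top (by omega)]
    push_cast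
    set a := Real.sqrt ((n : ℝ) + 1) with ha
    set b := Real.sqrt ((n : ℝ) + 1 + 1) with hb
    have ha2 : a ^ 2 = n + 1 := Real.sq_sqrt (by positivity)
    have hb2 : b ^ 2 = n + 1 + 1 := Real.sq_sqrt (by positivity)
    have ha0 : 0 < a := Real.sqrt_pos.2 (by positivity)
    have hb0 : 0 < b := Real.sqrt_pos.2 (by positivity)
    have hn : (0 : ℝ) ≤ n := Nat.cast_nonneg n
    have h3 : b ≤ 3 * a := by
      apply le_of_sq_le_sq _ (by positivity) |>.trans (le_refl _)
      nlinarith
    have h4 : (b - a) * (b + a) = 1 := by nlinarith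
    have h5 : (1 : ℝ) / ((n + 1) * b) ≤ 4 / a - 4 / b := by
      rw [← ha2, div_sub_div _ _ ha0.ne' hb0.ne', div_le_div_iff₀ (by positivity) (by positivity)]
      have h6 : 1 ≤ (b - a) * (4 * a) := by
        rw [← h4]
        apply mul_le_mul_of_nonneg_left _ _
        · linarith
        · nlinarith
      have h7 : 0 < a * b := by positivity
      nlinarith
    linarith

open Classical in
theorem lsum_abel (A : Set ℕ) (n : ℕ) : lsum A n =
    (((Finset.range (n + 1)).filter (fun m => m ∈ A)).card : ℝ) / (n + 1) +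
    ∑ m ∈ Finset.Icc 1 n, (((Finset.range (m + 1)).filter (fun m => m ∈ A)).card : ℝ)
      / (m * (m + 1)) - (((Finset.range 1).filter (fun m => m ∈ A)).card : ℝ) := by
  induction n with
  | zero => simp [lsum]
  | succ n ih =>
    rw [lsum_eq_ite] at ih ⊢
    rw [Finset.sum_Icc_succ_top (by omega), Finset.sum_Icc_succ_top (by omega), ih]
    have h1 : (((Finset.range (n + 1 + 1)).filter (fun m => m ∈ A)).card : ℝ) =
        (((Finset.range (n + 1)).filter (fun m => m ∈ A)).card : ℝ) +
          (if n + 1 ∈ A then 1 else 0) := by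
      rw [Finset.range_add_one, Finset.filter_insert]
      split_ifs with h
      · rw [Finset.card_insert_of_notMem (by simp)]
        push_cast; ring
      · simp
    rw [h1]
    have h2 : (0 : ℝ) < (n : ℝ) + 1 := by positivity
    have h3 : (0 : ℝ) < (n : ℝ) + 1 + 1 := by positivity
    push_cast
    split_ifs
    · field_simp
      ring
    · field_simp
      ring

open Classical in
theorem lsum_of_card (A : Set ℕ) (x C₁ C₂ : ℝ) (hC₂ : 0 ≤ C₂) (h : ∀ n : ℕ,
      (((Finset.range n).filter (fun m => m ∈ A)).card : ℝ) ≤ x * n + C₁ + C₂ * Real.sqrt n)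
    (n : ℕ) : lsum A n ≤ x * Real.log n + (|x| + 1 + |C₁| + 4 * C₂) := by
  rw [lsum_abel]
  have h1 : (((Finset.range (n + 1)).filter (fun m => m ∈ A)).card : ℝ) / (n + 1) ≤ 1 := by
    rw [div_le_one (by positivity)]
    have := Finset.card_filter_le (Finset.range (n + 1)) (fun m => m ∈ A)
    rw [Finset.card_range] at this
    exact_mod_cast this
  have h2 : ∀ m ∈ Finset.Icc 1 n, (((Finset.range (m + 1)).filter (fun m => m ∈ A)).card : ℝ)
      / (m * (m + 1)) ≤ x * (1 / m) + |C₁| * (1 / m - 1 / (m + 1))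
        + C₂ * (1 / (m * Real.sqrt (m + 1))) := by
    intro m hm
    have hm1 : (1 : ℝ) ≤ m := by exact_mod_cast (Finset.mem_Icc.1 hm).1
    have hm0 : (0 : ℝ) < m := by linarith
    have h3 := h (m + 1)
    have h4 : (0 : ℝ) < Real.sqrt (m + 1) := Real.sqrt_pos.2 (by positivity)
    have h5 : Real.sqrt (m + 1) ^ 2 = m + 1 := Real.sq_sqrt (by positivity)
    rw [div_le_iff₀ (by positivity)]
    push_cast at h3
    refine h3.trans (le_of_sub_nonneg ?_)
    have e : (x * (1 / m) + |C₁| * (1 / m - 1 / (m + 1)) + C₂ * (1 / (m * Real.sqrt (m + 1))))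
        * (m * (m + 1)) = x * (m + 1) + |C₁| + C₂ * Real.sqrt (m + 1) := by
      have e1 : 1 / ((m : ℝ) * Real.sqrt (m + 1)) * (m * (m + 1)) = Real.sqrt (m + 1) := by
        generalize Real.sqrt ((m : ℝ) + 1) = s at h4 h5
        rw [← h5]
        field_simp
      have e2 : ((1 : ℝ) / m - 1 / (m + 1)) * (m * (m + 1)) = 1 := by
        field_simp
        ring
      have e3 : ((1 : ℝ) / m) * (m * (m + 1)) = m + 1 := by
        field_simp
      calc _ = x * ((1 / m) * (m * (m + 1))) + |C₁| * ((1 / m - 1 / (m + 1)) * (m * (m + 1)))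
          + C₂ * (1 / (m * Real.sqrt (m + 1)) * (m * (m + 1))) := by ring
        _ = _ := by rw [e1, e2, e3]; ring
    rw [e]
    have := le_abs_self C₁
    linarith
  have h3 := Finset.sum_le_sum h2
  rw [Finset.sum_add_distrib, Finset.sum_add_distrib, ← Finset.mul_sum, ← Finset.mul_sum,
    ← Finset.mul_sum] at h3
  have h4 : ∑ m ∈ Finset.Icc 1 n, ((1 : ℝ) / m - 1 / (m + 1)) ≤ 1 := by
    have : ∑ m ∈ Finset.Icc 1 n, ((1 : ℝ) / m - 1 / (m + 1)) = 1 - 1 / (n + 1) := by
      clear h1 h2 h3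
      induction n with
      | zero => simp
      | succ n ih =>
        rw [Finset.sum_Icc_succ_top (by omega), ih]
        push_cast
        ring
    rw [this]
    have : (0 : ℝ) ≤ 1 / (n + 1) := by positivity
    linarith
  have h5 : ∑ m ∈ Finset.Icc 1 n, (1 : ℝ) / (m * Real.sqrt (m + 1)) ≤ 4 := by
    refine (sum_sqrt n).trans ?_
    have : (0 : ℝ) ≤ 4 / Real.sqrt (n + 1) := by positivity
    linarith
  have h6 : ∑ m ∈ Finset.Icc 1 n, (1 : ℝ) / m = lsum Set.univ n := by
    rw [lsum_eq_ite]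
    simp
  have h7 := lsum_le Set.univ n
  have h8 := le_lsum_univ n
  rw [h6] at h3
  have h9 : x * lsum Set.univ n ≤ x * Real.log n + |x| := by
    rcases le_or_gt 0 x with hx | hx
    · rw [abs_of_nonneg hx]
      nlinarith
    · rw [abs_of_neg hx]
      nlinarith
  have h10 : |C₁| * ∑ m ∈ Finset.Icc 1 n, ((1 : ℝ) / m - 1 / (m + 1)) ≤ |C₁| := by
    have := mul_le_mul_of_nonneg_left h4 (abs_nonneg C₁)
    linarith
  have h11 : C₂ * ∑ m ∈ Finset.Icc 1 n, (1 : ℝ) / (m * Real.sqrt (m + 1)) ≤ 4 * C₂ := by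
    have := mul_le_mul_of_nonneg_left h5 hC₂
    linarith
  have h12 : (0 : ℝ) ≤ (((Finset.range 1).filter (fun m => m ∈ A)).card : ℝ) := Nat.cast_nonneg _
  linarith

/-- counting form of the Matomaki-Radziwill theorem -/
theorem mr_card (hMR : StatementMR) (W b : ℕ) (ε : ℝ) (hW : 0 < W) (hε : 0 < ε) :
    ∃ h₀ : ℕ, ∀ h, h₀ ≤ h → ∃ C : ℝ, ∀ n : ℕ,
      (((Finset.range n).filter (fun z => z ≡ b [MOD W] ∧
        ε * h ≤ |∑ y ∈ Finset.range h, lam (z + W * y)|)).card : ℝ) ≤ ε * n + C := by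
  obtain ⟨h₀, hh₀⟩ := hMR W (b % W) (ε ^ 3) hW (by positivity)
  refine ⟨max h₀ 1, fun h hh => ?_⟩
  obtain ⟨N₀, hN₀⟩ := hh₀ h (le_trans (le_max_left _ _) hh)
  have hh1 : 1 ≤ h := le_trans (le_max_right _ _) hh
  have hhR : (1 : ℝ) ≤ h := by exact_mod_cast hh1
  refine ⟨ε * (N₀ + 1), fun n => ?_⟩
  set S := (Finset.range n).filter (fun z => z ≡ b [MOD W] ∧
        ε * h ≤ |∑ y ∈ Finset.range h, lam (z + W * y)|) with hS
  set M := max (n / W + 1) N₀ with hM
  have h1 := hN₀ M (le_max_right _ _)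
  -- the map `z ↦ z / W` is injective on the class
  have h2 : (S.card : ℝ) * (ε * h) ^ 2 ≤
      ∑ z ∈ Finset.range M, (∑ y ∈ Finset.range h, lam (W * (z + y) + b % W)) ^ 2 := by
    have h3 : ∑ z ∈ S, (∑ y ∈ Finset.range h, lam (z + W * y)) ^ 2 ≤
        ∑ z ∈ Finset.range M, (∑ y ∈ Finset.range h, lam (W * (z + y) + b % W)) ^ 2 := by
      have h4 : ∑ z ∈ S, (∑ y ∈ Finset.range h, lam (z + W * y)) ^ 2 =
          ∑ z ∈ S.image (fun z => z / W),
            (∑ y ∈ Finset.range h, lam (W * (z + y) + b % W)) ^ 2 := by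
        rw [Finset.sum_image]
        · refine Finset.sum_congr rfl fun z hz => ?_
          have h5 : z % W = b % W := (Finset.mem_filter.1 hz).2.1
          congr 1
          refine Finset.sum_congr rfl fun y _ => ?_
          congr 1
          have := Nat.mod_add_div z W
          rw [← h5]
          nlinarith
        · intro z hz z' hz' hzz
          rw [Finset.mem_coe] at hz hz'
          have h5 : z % W = b % W := (Finset.mem_filter.1 hz).2.1
          have h6 : z' % W = b % W := (Finset.mem_filter.1 hz').2.1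
          simp only at hzz
          rw [← Nat.mod_add_div z W, ← Nat.mod_add_div z' W, h5, h6, hzz]
      rw [h4]
      apply Finset.sum_le_sum_of_subset_of_nonneg
      · intro x hx
        obtain ⟨z, hz, rfl⟩ := Finset.mem_image.1 hx
        rw [Finset.mem_range]
        have h5 : z < n := Finset.mem_range.1 (Finset.mem_filter.1 hz).1
        have h6 : z / W ≤ n / W := Nat.div_le_div_right h5.le
        exact lt_of_lt_of_le (Nat.lt_succ_of_le h6) (le_max_left _ _)
      · intro x _ _
        positivity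
    refine le_trans ?_ h3
    rw [← nsmul_eq_mul]
    refine Finset.card_nsmul_le_sum _ _ _ fun z hz => ?_
    have h5 : ε * h ≤ |∑ y ∈ Finset.range h, lam (z + W * y)| := (Finset.mem_filter.1 hz).2.2
    rw [← sq_abs (∑ y ∈ Finset.range h, lam (z + W * y))]
    exact pow_le_pow_left₀ (by positivity) h5 2
  have h3 : (S.card : ℝ) * (ε * h) ^ 2 ≤ (ε * M) * (ε * h) ^ 2 := by
    refine (h2.trans h1).trans (le_of_eq ?_)
    ring
  have h4 : (S.card : ℝ) ≤ ε * M := le_of_mul_le_mul_right h3 (by positivity)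
  have h5 : (M : ℝ) ≤ n + (N₀ + 1) := by
    have : M ≤ n + (N₀ + 1) := by
      rw [hM]
      have := Nat.div_le_self n W
      omega
    exact_mod_cast this
  calc (S.card : ℝ) ≤ ε * M := h4
    _ ≤ ε * (n + (N₀ + 1)) := by gcongr
    _ = _ := by ring

theorem ld (hMR : StatementMR) : StatementLD := by
  classical
  intro U N hN
  refine ⟨finAddInv_ldens hN, fun A p hp => ldens_dvd hN A p hp, fun A p hp => ldens_div hN A p hp,
    fun A x hx => ?_, fun A x hx => le_ldens hN hx, fun A x C₁ C₂ hC₂ h => ?_, ?_⟩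
  · apply ldens_le hN (C := 0)
    filter_upwards [hx] with k hk
    rw [add_zero]
    exact hk
  · exact ldens_le hN (Filter.Eventually.of_forall fun k => lsum_of_card A x C₁ C₂ hC₂ h (N k))
  · intro W b ε hW hε
    obtain ⟨h₀, hh₀⟩ := mr_card hMR W b ε hW hε
    refine ⟨h₀, fun h hh => ?_⟩
    obtain ⟨C, hC⟩ := hh₀ h hh
    apply ldens_le hN (C := |ε| + 1 + |C| + 4 * 0)
    apply Filter.Eventually.of_forall
    intro k
    apply lsum_of_card _ ε C 0 le_rfl
    intro n
    rw [zero_mul, add_zero]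
    refine le_trans (le_of_eq ?_) (hC n)
    congr 2
    ext z
    simp

end Pool.Agent.H24.T2
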