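import Mathlib

/-!
Counting cubes in a set of integers (project T2 on `MP_c59857_nt`).
-/

set_option autoImplicit false

open Finset

namespace Pool.Agent.H24.T2

/-- the box `[-X, X] ^ k` -/
noncomputable def box (k X : ℕ) : Finset (Fin k → ℤ) := Fintype.piFinset (fun _ => Finset.Icc (-(X : ℤ)) X)

theorem mem_box {k X : ℕ} {t : Fin k → ℤ} : t ∈ box k X ↔ ∀ i, |t i| ≤ (X : ℤ) := by
  rw [box, Fintype.mem_piFinset]
  refine forall_congr' fun i => ?_
  rw [Finset.mem_Icc, abs_le]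

theorem box_card (k X : ℕ) : ((box k X).card : ℝ) = (2 * X + 1 : ℝ) ^ k := by
  rw [box, Fintype.card_piFinset_const, Int.card_Icc]
  have : ((X : ℤ) + 1 - -(X : ℤ)).toNat = 2 * X + 1 := by omega
  rw [this]
  push_cast
  simp

theorem box_card_le (k X : ℕ) (hX : 0 < X) : ((box k X).card : ℝ) ≤ (3 * X : ℝ) ^ k := by
  rw [box_card]
  have : (1 : ℝ) ≤ X := by exact_mod_cast hX
  apply pow_le_pow_left₀ (by positivity)
  linarith

theorem sum_box_succ {M : Type*} [AddCommMonoid M] (k X : ℕ) (f : (Fin (k + 1) → ℤ) → M) :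
    ∑ t ∈ box (k + 1) X, f t =
      ∑ s ∈ Finset.Icc (-(X : ℤ)) X, ∑ t ∈ box k X, f (Fin.cons s t) := by
  rw [← Finset.sum_product']
  apply Finset.sum_nbij' (fun t => (t 0, Fin.tail t)) (fun x => Fin.cons x.1 x.2)
  · intro t ht
    rw [mem_box] at ht
    rw [Finset.mem_product]
    refine ⟨?_, ?_⟩
    · have := abs_le.1 (ht 0)
      simp only [Finset.mem_Icc]
      exact this
    · rw [mem_box]
      intro i
      exact ht i.succ
  · rintro ⟨s, t⟩ hx
    rw [Finset.mem_product] at hx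
    rw [mem_box]
    intro i
    refine Fin.cases ?_ (fun i => ?_) i
    · rw [Fin.cons_zero, abs_le]
      exact Finset.mem_Icc.1 hx.1
    · rw [Fin.cons_succ]
      exact (mem_box.1 hx.2) i
  · intro t _
    exact Fin.cons_self_tail t
  · rintro ⟨s, t⟩ _
    simp
  · intro t _
    simp [Fin.cons_self_tail]

/-- base points of the cubes of `A` in direction `t` -/
def cub : (k : ℕ) → Finset ℤ → (Fin k → ℤ) → Finset ℤ
  | 0, A, _ => A
  | k + 1, A, t => cub k (A.filter (fun n => n + t 0 ∈ A)) (Fin.tail t)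

theorem cub_subset (k : ℕ) : ∀ (A : Finset ℤ) (t : Fin k → ℤ), cub k A t ⊆ A := by
  induction k with
  | zero => intro A t; exact Finset.Subset.refl _
  | succ k ih =>
    intro A t
    exact (ih _ _).trans (Finset.filter_subset _ _)

theorem cub_mem (k : ℕ) : ∀ (A : Finset ℤ) (t : Fin k → ℤ) (n : ℤ), n ∈ cub k A t →
    ∀ ω : Finset (Fin k), n + ∑ i ∈ ω, t i ∈ A := by
  classical
  induction k with
  | zero =>
    intro A t n hn ω
    have : ω = ∅ := by ext i; exact i.elim0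
    rw [this, Finset.sum_empty, add_zero]
    exact hn
  | succ k ih =>
    intro A t n hn ω
    have h1 := ih _ _ n hn (Finset.univ.filter (fun i : Fin k => i.succ ∈ ω))
    have h2 : ∑ i ∈ Finset.univ.filter (fun i : Fin k => i.succ ∈ ω), Fin.tail t i =
        ∑ i : Fin k, if i.succ ∈ ω then t i.succ else 0 := by
      rw [Finset.sum_filter]
      rfl
    rw [h2, Finset.mem_filter] at h1
    have h3 : ∑ i ∈ ω, t i = (if (0 : Fin (k + 1)) ∈ ω then t 0 else 0) +
        ∑ i : Fin k, if i.succ ∈ ω then t i.succ else 0 := by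
      rw [← Fin.sum_univ_succ (fun i => if i ∈ ω then t i else 0), Finset.sum_ite_mem]
      simp
    rw [h3]
    split_ifs
    · have := h1.2
      rw [show n + (t 0 + ∑ i : Fin k, if i.succ ∈ ω then t i.succ else 0) =
        n + (∑ i : Fin k, if i.succ ∈ ω then t i.succ else 0) + t 0 by ring]
      exact this
    · rw [zero_add]
      exact h1.1

theorem pair_count (A : Finset ℤ) (X : ℕ) (hA : ∀ a ∈ A, ∀ b ∈ A, |a - b| ≤ (X : ℤ)) :
    ∑ s ∈ Finset.Icc (-(X : ℤ)) X, (A.filter (fun n => n + s ∈ A)).card = A.card ^ 2 := by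
  classical
  rw [sq, ← Finset.card_product]
  have h1 : ∑ s ∈ Finset.Icc (-(X : ℤ)) X, (A.filter (fun n => n + s ∈ A)).card =
      ((Finset.Icc (-(X : ℤ)) X).sigma (fun s => A.filter (fun n => n + s ∈ A))).card := by
    rw [Finset.card_sigma]
  rw [h1]
  apply Finset.card_nbij' (fun x => (x.2, x.2 + x.1)) (fun x => ⟨x.2 - x.1, x.1⟩)
  · rintro ⟨s, n⟩ hx
    simp only [Finset.coe_sigma, Set.mem_sigma_iff, Finset.mem_coe, Finset.mem_filter] at hx
    simp only [Finset.coe_product, Set.mem_prod, Finset.mem_coe]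
    exact hx.2
  · rintro ⟨a, b⟩ hx
    simp only [Finset.coe_product, Set.mem_prod, Finset.mem_coe] at hx
    simp only [Finset.coe_sigma, Set.mem_sigma_iff, Finset.mem_coe, Finset.mem_filter]
    refine ⟨?_, hx.1, ?_⟩
    · rw [Finset.mem_Icc]
      exact abs_le.1 (hA b hx.2 a hx.1)
    · rw [show a + (b - a) = b by ring]
      exact hx.2
  · rintro ⟨s, n⟩ _
    simp
  · rintro ⟨a, b⟩ _
    simp

/-- lower bound for the number of cubes -/
theorem cub_lower (X : ℕ) (hX : 0 < X) (k : ℕ) : ∀ A : Finset ℤ,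
    (∀ a ∈ A, ∀ b ∈ A, |a - b| ≤ (X : ℤ)) →
    (A.card : ℝ) ^ (2 ^ k) * (3 * X : ℝ) ^ (k + 1) ≤
      (∑ t ∈ box k X, ((cub k A t).card : ℝ)) * (3 * X : ℝ) ^ (2 ^ k) := by
  classical
  have hXR : (1 : ℝ) ≤ X := by exact_mod_cast hX
  induction k with
  | zero =>
    intro A hA
    have : ∑ t ∈ box 0 X, ((cub 0 A t).card : ℝ) = A.card := by
      have h0 : box 0 X = {default} := by
        ext t
        rw [mem_box]
        simp [Subsingleton.elim t default]
      rw [h0, Finset.sum_singleton]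
      rfl
    rw [this]
    simp
  | succ k ih =>
    intro A hA
    rw [sum_box_succ]
    have h1 : ∀ s ∈ Finset.Icc (-(X : ℤ)) X,
        ((A.filter (fun n => n + s ∈ A)).card : ℝ) ^ (2 ^ k) * (3 * X : ℝ) ^ (k + 1) ≤
        (∑ t ∈ box k X, ((cub (k + 1) A (Fin.cons s t)).card : ℝ)) * (3 * X : ℝ) ^ (2 ^ k) := by
      intro s _
      have := ih (A.filter (fun n => n + s ∈ A)) (fun a ha b hb =>
        hA a (Finset.mem_filter.1 ha).1 b (Finset.mem_filter.1 hb).1)
      refine this.trans (le_of_eq ?_)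
      congr 1
    have h2 := Finset.sum_le_sum h1
    rw [← Finset.sum_mul, ← Finset.sum_mul] at h2
    set S := ∑ s ∈ Finset.Icc (-(X : ℤ)) X, ∑ t ∈ box k X,
      ((cub (k + 1) A (Fin.cons s t)).card : ℝ) with hS
    obtain ⟨n, hn⟩ : ∃ n, 2 ^ k = n + 1 := ⟨2 ^ k - 1, by
      have : 0 < 2 ^ k := by positivity
      omega⟩
    have h3 := pow_sum_le_card_mul_sum_pow (s := Finset.Icc (-(X : ℤ)) X)
      (f := fun s => ((A.filter (fun n => n + s ∈ A)).card : ℝ)) (fun _ _ => Nat.cast_nonneg _) n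
    have h4 : ∑ s ∈ Finset.Icc (-(X : ℤ)) X, ((A.filter (fun n => n + s ∈ A)).card : ℝ)
        = (A.card : ℝ) ^ 2 := by
      exact_mod_cast pair_count A X hA
    have h5 : ((Finset.Icc (-(X : ℤ)) X).card : ℝ) ≤ 3 * X := by
      rw [Int.card_Icc]
      have : ((X : ℤ) + 1 - -(X : ℤ)).toNat = 2 * X + 1 := by omega
      rw [this]
      push_cast
      linarith
    rw [h4, ← hn] at h3
    have h6 : ((Finset.Icc (-(X : ℤ)) X).card : ℝ) ^ n ≤ (3 * X : ℝ) ^ n :=
      pow_le_pow_left₀ (Nat.cast_nonneg _) h5 n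
    set P := ∑ s ∈ Finset.Icc (-(X : ℤ)) X, ((A.filter (fun n => n + s ∈ A)).card : ℝ) ^ 2 ^ k
      with hP
    have hP0 : 0 ≤ P := Finset.sum_nonneg fun s _ => by positivity
    have h7 : ((A.card : ℝ) ^ 2) ^ 2 ^ k ≤ (3 * X : ℝ) ^ n * P :=
      h3.trans (mul_le_mul_of_nonneg_right h6 hP0)
    have hX3 : (0 : ℝ) < 3 * X := by positivity
    calc (A.card : ℝ) ^ 2 ^ (k + 1) * (3 * X : ℝ) ^ (k + 1 + 1)
        = ((A.card : ℝ) ^ 2) ^ 2 ^ k * (3 * X : ℝ) ^ (k + 1 + 1) := by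
          rw [← pow_mul, pow_succ' 2 k]
      _ ≤ (3 * X : ℝ) ^ n * P * (3 * X : ℝ) ^ (k + 1 + 1) := by
          apply mul_le_mul_of_nonneg_right h7 (by positivity)
      _ = (P * (3 * X : ℝ) ^ (k + 1)) * (3 * X : ℝ) ^ (2 ^ k) := by
          rw [hn, pow_succ _ n, pow_succ _ (k + 1)]; ring
      _ ≤ (S * (3 * X : ℝ) ^ (2 ^ k)) * (3 * X : ℝ) ^ (2 ^ k) := by
          apply mul_le_mul_of_nonneg_right h2 (by positivity)
      _ = _ := by
          rw [pow_succ 2 k, mul_two, pow_add]; ring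

end Pool.Agent.H24.T2
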