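import Mathlib
import Pool.Agent.H24.T2.Interface
import Pool.Agent.H24.T2.CubCS
import Pool.Agent.H75.PS.Moment

/-!
[PSK] preparation: counting cubes in dense sets of primes (project T2 on `MP_c59857_nt`).
-/

set_option autoImplicit false

open Finset

namespace Pool.Agent.H24.T2

/-- [PSK](a): upper bound sieve for `K` linear forms -/
def StatementMB : Prop := ∀ K : ℕ, ∃ (C : ℝ) (E : ℕ), 0 < C ∧ ∀ (Q a N z : ℕ) (U : Finset ℕ),
  Even Q → 0 < Q → U.card = K → 1 ≤ z → z ^ K ≤ Q * a →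
  (((Finset.Ico a (a + N)).filter (fun n => ∀ u ∈ U, (Q * n + 1 + Q * u).Prime)).card : ℝ) ≤
    C * (∏ p ∈ Q.primeFactors, (1 + 1 / (p : ℝ))) ^ K *
      (∏ u ∈ U, ∏ v ∈ U.filter (fun v => u < v), ∏ p ∈ (v - u).primeFactors, (1 + 1 / (p : ℝ))) ^ K
      * N / Real.log (z + 1) ^ K + (z : ℝ) ^ E

/-- [PSK](b): moment bound -/
def StatementMOM : Prop := ∀ k M : ℕ, ∃ C : ℝ, 0 < C ∧ ∀ N : ℕ, 0 < N → ∀ e : Fin k → ℤ,
  (∀ i, |e i| ≤ 1) → (∃ i, e i ≠ 0) →
  ∑ t ∈ Fintype.piFinset (fun _ : Fin k => Finset.Icc (-(N : ℤ)) N),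
    (if ∑ i, e i * t i = 0 then (0 : ℝ) else
      (∏ p ∈ (∑ i, e i * t i).natAbs.primeFactors, (1 + 1 / (p : ℝ))) ^ M) ≤ C * (N : ℝ) ^ k

/-- the singular factor -/
noncomputable def hh (n : ℕ) : ℝ := ∏ p ∈ n.primeFactors, (1 + 1 / (p : ℝ))

theorem one_le_hh (n : ℕ) : 1 ≤ hh n := by
  unfold hh
  have : ∀ p ∈ n.primeFactors, (1 : ℝ) ≤ 1 + 1 / (p : ℝ) := by
    intro p _
    have : (0 : ℝ) ≤ 1 / (p : ℝ) := by positivity
    linarith
  calc (1 : ℝ) = ∏ p ∈ n.primeFactors, (1 : ℝ) := by simp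
    _ ≤ _ := Finset.prod_le_prod (fun _ _ => zero_le_one) this

theorem hh_zero : hh 0 = 1 := by simp [hh]

theorem prod_le_sum_pow {ι : Type*} (s : Finset ι) (hs : s.Nonempty) (f : ι → ℝ)
    (hf : ∀ i ∈ s, 0 ≤ f i) : ∏ i ∈ s, f i ≤ ∑ i ∈ s, f i ^ s.card := by
  obtain ⟨j, hj, hmax⟩ := Finset.exists_max_image s f hs
  calc ∏ i ∈ s, f i ≤ ∏ i ∈ s, f j := Finset.prod_le_prod hf (fun i hi => hmax i hi)
    _ = f j ^ s.card := by rw [Finset.prod_const]
    _ ≤ _ := Finset.single_le_sum (f := fun i => f i ^ s.card)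
      (fun i hi => pow_nonneg (hf i hi) _) hj

/-- the sum over a subset of coordinates -/
def Lam {k : ℕ} (ω : Finset (Fin k)) (t : Fin k → ℤ) : ℤ := ∑ i ∈ ω, t i

theorem Lam_sub {k : ℕ} (ω ω' : Finset (Fin k)) (t : Fin k → ℤ) :
    ∑ i, ((if i ∈ ω then (1 : ℤ) else 0) - (if i ∈ ω' then (1 : ℤ) else 0)) * t i =
      Lam ω t - Lam ω' t := by
  unfold Lam
  simp_rw [sub_mul, Finset.sum_sub_distrib, ite_mul, one_mul, zero_mul]
  rw [Finset.sum_ite_mem, Finset.sum_ite_mem]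
  simp

/-- all pairs factor -/
noncomputable def SS {k : ℕ} (t : Fin k → ℤ) : ℝ :=
  ∏ x : Finset (Fin k) × Finset (Fin k), hh (Lam x.1 t - Lam x.2 t).natAbs

theorem one_le_SS {k : ℕ} (t : Fin k → ℤ) : 1 ≤ SS t := by
  unfold SS
  calc (1 : ℝ) = ∏ x : Finset (Fin k) × Finset (Fin k), (1 : ℝ) := by simp
    _ ≤ _ := Finset.prod_le_prod (fun _ _ => zero_le_one) (fun _ _ => one_le_hh _)

/-- the shift making all the sums nonnegative -/
def sh {k : ℕ} (t : Fin k → ℤ) : ℤ := -Lam (Finset.univ.filter (fun i => t i < 0)) t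

theorem sh_spec {k : ℕ} (t : Fin k → ℤ) (ω : Finset (Fin k)) : 0 ≤ Lam ω t + sh t := by
  unfold sh Lam
  rw [Finset.sum_filter]
  have : ∑ i : Fin k, (if t i < 0 then t i else 0) ≤ ∑ i ∈ ω, t i := by
    have h1 : ∑ i ∈ ω, t i = ∑ i : Fin k, (if i ∈ ω then t i else 0) := by
      rw [Finset.sum_ite_mem]; simp
    rw [h1]
    refine Finset.sum_le_sum fun i _ => ?_
    split_ifs <;> omega
  linarith

theorem U_prod {k : ℕ} (t : Fin k → ℤ) (ht : Function.Injective (fun ω => Lam ω t)) :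
    let U : Finset ℕ := Finset.univ.image (fun ω : Finset (Fin k) => (Lam ω t + sh t).toNat)
    U.card = 2 ^ k ∧
    ∏ u ∈ U, ∏ v ∈ U.filter (fun v => u < v), ∏ p ∈ (v - u).primeFactors, (1 + 1 / (p : ℝ)) ≤
      SS t := by
  classical
  intro U
  have hinj : Function.Injective (fun ω : Finset (Fin k) => (Lam ω t + sh t).toNat) := by
    intro ω ω' h
    simp only at h
    apply ht
    have h1 := sh_spec t ω
    have h2 := sh_spec t ω'
    simp only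
    omega
  constructor
  · rw [Finset.card_image_of_injective _ hinj, Finset.card_univ, Fintype.card_finset,
      Fintype.card_fin]
  · have h1 : ∀ u ∈ U, ∏ v ∈ U.filter (fun v => u < v), ∏ p ∈ (v - u).primeFactors,
        (1 + 1 / (p : ℝ)) ≤ ∏ v ∈ U, hh ((u : ℤ) - v).natAbs := by
      intro u _
      rw [← Finset.prod_filter_mul_prod_filter_not U (fun v => u < v)]
      have h2 : ∏ v ∈ U.filter (fun v => u < v), ∏ p ∈ (v - u).primeFactors,
        (1 + 1 / (p : ℝ)) = ∏ v ∈ U.filter (fun v => u < v), hh ((u : ℤ) - v).natAbs := by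
        refine Finset.prod_congr rfl fun v hv => ?_
        have h3 : u < v := (Finset.mem_filter.1 hv).2
        have h4 : ((u : ℤ) - v).natAbs = v - u := by omega
        rw [h4]
        rfl
      rw [h2]
      apply le_mul_of_one_le_right
      · exact Finset.prod_nonneg fun v _ => zero_le_one.trans (one_le_hh _)
      · calc (1 : ℝ) = ∏ v ∈ U.filter (fun v => ¬ u < v), (1 : ℝ) := by simp
          _ ≤ _ := Finset.prod_le_prod (fun _ _ => zero_le_one) (fun _ _ => one_le_hh _)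
    have h3 : ∏ u ∈ U, ∏ v ∈ U.filter (fun v => u < v), ∏ p ∈ (v - u).primeFactors,
        (1 + 1 / (p : ℝ)) ≤ ∏ u ∈ U, ∏ v ∈ U, hh ((u : ℤ) - v).natAbs := by
      apply Finset.prod_le_prod _ h1
      intro u _
      apply Finset.prod_nonneg fun v _ => Finset.prod_nonneg fun p _ => by positivity
    refine h3.trans (le_of_eq ?_)
    rw [Finset.prod_image (fun a _ b _ hab => hinj hab)]
    unfold SS
    rw [Fintype.prod_prod_type]
    refine Finset.prod_congr rfl fun ω _ => ?_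
    rw [Finset.prod_image (fun a _ b _ hab => hinj hab)]
    refine Finset.prod_congr rfl fun ω' _ => ?_
    congr 1
    have h1 := sh_spec t ω
    have h2 := sh_spec t ω'
    simp only
    omega

/-- positions of the primes of `G` -/
def AA (Q : ℕ) (G : Finset ℕ) : Finset ℤ := G.image (fun p => (((p - 1) / Q : ℕ) : ℤ))

theorem pset_eq {Q m p : ℕ} (hQ : 0 < Q) (hp : p ∈ Pset Q m) :
    p.Prime ∧ 2 ^ m < p ∧ p ≤ 2 ^ (m + 1) ∧ Q * ((p - 1) / Q) + 1 = p := by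
  unfold Pset at hp
  rw [Finset.mem_filter, Finset.mem_Ioc] at hp
  obtain ⟨⟨h1, h2⟩, h3, h4⟩ := hp
  refine ⟨h3, h1, h2, ?_⟩
  have h5 : Q ∣ p - 1 := by
    rw [← Nat.modEq_iff_dvd' h3.one_lt.le]
    exact h4.symm
  rw [Nat.mul_div_cancel' h5]
  have := h3.one_lt
  omega

theorem AA_mem {Q m : ℕ} {G : Finset ℕ} (hQ : 0 < Q) (hG : G ⊆ Pset Q m) {n : ℤ}
    (hn : n ∈ AA Q G) : ∃ p ∈ G, (p : ℤ) = Q * n + 1 := by
  obtain ⟨p, hp, rfl⟩ := Finset.mem_image.1 hn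
  refine ⟨p, hp, ?_⟩
  have := (pset_eq hQ (hG hp)).2.2.2
  exact_mod_cast this.symm

theorem AA_card {Q m : ℕ} {G : Finset ℕ} (hQ : 0 < Q) (hG : G ⊆ Pset Q m) :
    (AA Q G).card = G.card := by
  apply Finset.card_image_of_injOn
  intro p hp q hq hpq
  simp only at hpq
  have h1 := (pset_eq hQ (hG hp)).2.2.2
  have h2 := (pset_eq hQ (hG hq)).2.2.2
  have h3 : (p - 1) / Q = (q - 1) / Q := by exact_mod_cast hpq
  rw [← h1, ← h2, h3]

theorem AA_range {Q m : ℕ} {G : Finset ℕ} (hQ : 0 < Q) (hG : G ⊆ Pset Q m) {n : ℤ}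
    (hn : n ∈ AA Q G) : ((2 ^ m / Q : ℕ) : ℤ) ≤ n ∧ n ≤ 2 * ((2 ^ m / Q : ℕ) : ℤ) + 1 := by
  obtain ⟨p, hp, rfl⟩ := Finset.mem_image.1 hn
  obtain ⟨h1, h2, h3, h4⟩ := pset_eq hQ (hG hp)
  constructor
  · have : 2 ^ m / Q ≤ (p - 1) / Q := Nat.div_le_div_right (by omega)
    exact_mod_cast this
  · have h5 : (p - 1) / Q ≤ 2 * (2 ^ m / Q) + 1 := by
      have h6 : 2 ^ m < Q * (2 ^ m / Q + 1) := Nat.lt_mul_div_succ _ hQ
      have h7 : p - 1 < (2 * (2 ^ m / Q) + 1 + 1) * Q := by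
        have h8 : 2 ^ (m + 1) = 2 * 2 ^ m := by ring
        have h9 : p - 1 < 2 * 2 ^ m := by omega
        refine h9.trans (lt_of_lt_of_le (Nat.mul_lt_mul_of_pos_left h6 (by norm_num))
          (le_of_eq ?_))
        ring
      have := (Nat.div_lt_iff_lt_mul hQ).2 h7
      omega
    exact_mod_cast h5

theorem AA_diam {Q m : ℕ} {G : Finset ℕ} (hQ : 0 < Q) (hG : G ⊆ Pset Q m) :
    ∀ a ∈ AA Q G, ∀ b ∈ AA Q G, |a - b| ≤ ((2 ^ m / Q : ℕ) : ℤ) := by
  have key : ∀ p ∈ G, ∀ q ∈ G, (p - 1) / Q ≤ (q - 1) / Q + 2 ^ m / Q := by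
    intro p hp q hq
    obtain ⟨h1, h2, h3, h4⟩ := pset_eq hQ (hG hp)
    obtain ⟨g1, g2, g3, g4⟩ := pset_eq hQ (hG hq)
    have h5 : (p - 1) ≤ (q - 1) + 2 ^ m := by
      have h8 : 2 ^ (m + 1) = 2 * 2 ^ m := by ring
      omega
    have h6 : p - 1 = Q * ((p - 1) / Q) := by omega
    have h7 : q - 1 = Q * ((q - 1) / Q) := by omega
    by_contra hcon
    push Not at hcon
    have h8 : 2 ^ m < Q * (2 ^ m / Q + 1) := Nat.lt_mul_div_succ _ hQ
    have h9 : Q * ((q - 1) / Q + 2 ^ m / Q + 1) ≤ Q * ((p - 1) / Q) :=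
      Nat.mul_le_mul_left _ hcon
    have h10 : Q * ((q - 1) / Q + 2 ^ m / Q + 1) = Q * ((q - 1) / Q) + Q * (2 ^ m / Q + 1) := by
      ring
    omega
  intro a ha b hb
  obtain ⟨p, hp, rfl⟩ := Finset.mem_image.1 ha
  obtain ⟨q, hq, rfl⟩ := Finset.mem_image.1 hb
  have h1 := key p hp q hq
  have h2 := key q hq p hp
  have h1' : (((p - 1) / Q : ℕ) : ℤ) ≤ (((q - 1) / Q : ℕ) : ℤ) + ((2 ^ m / Q : ℕ) : ℤ) := by
    exact_mod_cast h1
  have h2' : (((q - 1) / Q : ℕ) : ℤ) ≤ (((p - 1) / Q : ℕ) : ℤ) + ((2 ^ m / Q : ℕ) : ℤ) := by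
    exact_mod_cast h2
  rw [abs_le]
  constructor <;> linarith

/-- growth -/
theorem growthK (Q K : ℕ) (B : ℝ) (hQ : 0 < Q) : ∃ m₁ : ℕ, ∀ m, m₁ ≤ m →
    B * (m : ℝ) ^ K * (2 : ℝ) ^ (m / 2) ≤ ((2 ^ m / Q : ℕ) : ℝ) := by
  have hr : (1 : ℝ) < Real.sqrt 2 := by
    rw [show (1 : ℝ) = Real.sqrt 1 by simp]
    exact Real.sqrt_lt_sqrt (by norm_num) (by norm_num)
  have hQR : (0 : ℝ) < Q := by exact_mod_cast hQ
  have h1 := tendsto_pow_const_div_const_pow_of_one_lt K hr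
  have h2 := h1.eventually (gt_mem_nhds (show (0 : ℝ) < 1 / (2 * Q * (|B| + 1)) by positivity))
  have h3 := (Filter.tendsto_atTop.1 (tendsto_pow_atTop_atTop_of_one_lt
    (show (1 : ℕ) < 2 by norm_num))) (2 * Q)
  obtain ⟨m₁, hm₁⟩ := Filter.eventually_atTop.1 (h2.and h3)
  refine ⟨m₁, fun m hm => ?_⟩
  obtain ⟨h4, h5⟩ := hm₁ m hm
  set r := Real.sqrt 2 with hrdef
  have hr2 : r ^ 2 = 2 := Real.sq_sqrt (by norm_num)
  have hrm : (0 : ℝ) < r ^ m := by positivity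
  rw [div_lt_div_iff₀ hrm (by positivity)] at h4
  have h6 : (2 : ℝ) ^ (m / 2) ≤ r ^ m := by
    rw [← hr2, ← pow_mul]
    exact pow_le_pow_right₀ hr.le (Nat.mul_div_le m 2)
  have h7 : r ^ m * r ^ m = 2 ^ m := by
    rw [← mul_pow, ← sq, hr2]
  have h8 : (2 : ℝ) ^ m / (2 * Q) ≤ ((2 ^ m / Q : ℕ) : ℝ) := by
    have h9 : 2 ^ m < Q * (2 ^ m / Q + 1) := Nat.lt_mul_div_succ _ hQ
    have h10 : (2 : ℝ) ^ m ≤ Q * (((2 ^ m / Q : ℕ) : ℝ) + 1) := by exact_mod_cast h9.le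
    have h11 : (2 * Q : ℝ) ≤ 2 ^ m := by exact_mod_cast h5
    rw [div_le_iff₀ (by positivity)]
    nlinarith
  have hmK : (0 : ℝ) ≤ (m : ℝ) ^ K := by positivity
  calc B * (m : ℝ) ^ K * (2 : ℝ) ^ (m / 2) ≤ (|B| + 1) * (m : ℝ) ^ K * r ^ m := by
        have : B ≤ |B| + 1 := by linarith [le_abs_self B]
        gcongr
    _ = ((m : ℝ) ^ K * (2 * Q * (|B| + 1))) * r ^ m / (2 * Q) := by
        field_simp
    _ ≤ (1 * r ^ m) * r ^ m / (2 * Q) := by
        gcongr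
    _ = 2 ^ m / (2 * Q) := by rw [one_mul, h7]
    _ ≤ _ := h8

/-- upper bound for the number of cubes in a given direction -/
theorem cub_upper (hMB : StatementMB) (k : ℕ) : ∃ C : ℝ, 0 < C ∧ ∀ Q : ℕ, 0 < Q → Even Q →
    ∃ m₁ : ℕ, ∀ m, m₁ ≤ m → ∀ G : Finset ℕ, G ⊆ Pset Q m → ∀ t : Fin k → ℤ,
      Function.Injective (fun ω => Lam ω t) →
      ((cub k (AA Q G) t).card : ℝ) ≤
        C * ((Q : ℝ) / Nat.totient Q / m) ^ (2 ^ k) * SS t ^ (2 ^ k) * ((2 ^ m / Q : ℕ) : ℝ) := by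
  classical
  obtain ⟨K, hK⟩ : ∃ K, 2 ^ k = K := ⟨_, rfl⟩
  rw [hK]
  obtain ⟨C, E, hC, hMBK⟩ := hMB K
  obtain ⟨L, hL⟩ : ∃ L, L = K + E + 1 := ⟨_, rfl⟩
  have hLR : (0 : ℝ) < L := by rw [hL]; positivity
  refine ⟨3 * C * (8 * L : ℝ) ^ K + 1, by positivity, ?_⟩
  intro Q hQ hQe
  obtain ⟨m₁, hm₁⟩ := growthK Q K 2 hQ
  refine ⟨max m₁ (4 * L), fun m hm G hG t ht => ?_⟩
  have hmL : 4 * L ≤ m := le_trans (le_max_right _ _) hm
  have hgr := hm₁ m (le_trans (le_max_left _ _) hm)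
  have hm0 : 0 < m := by omega
  obtain ⟨X, hX⟩ : ∃ X, 2 ^ m / Q = X := ⟨_, rfl⟩
  rw [hX] at hgr ⊢
  have hQR : (0 : ℝ) < Q := by exact_mod_cast hQ
  have hmR : (1 : ℝ) ≤ m := by exact_mod_cast hm0
  have hmK : (1 : ℝ) ≤ (m : ℝ) ^ K := one_le_pow₀ hmR
  have h2m : (1 : ℝ) ≤ (2 : ℝ) ^ (m / 2) := one_le_pow₀ (by norm_num)
  have hX2 : (2 : ℝ) * (2 : ℝ) ^ (m / 2) ≤ X := by
    refine le_trans ?_ hgr
    nlinarith
  have hXE : (m : ℝ) ^ K * (2 : ℝ) ^ (m / 2) ≤ X := by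
    refine le_trans ?_ hgr
    have : 0 ≤ (m : ℝ) ^ K * (2 : ℝ) ^ (m / 2) := by positivity
    linarith
  have hX1 : (1 : ℝ) ≤ X := by nlinarith
  obtain ⟨j, hj⟩ : ∃ j, j = m / (2 * L) := ⟨_, rfl⟩
  obtain ⟨z, hz⟩ : ∃ z, z = 2 ^ j := ⟨_, rfl⟩
  have hjL : j * (2 * L) ≤ m := by rw [hj]; exact Nat.div_mul_le_self _ _
  have hjK : j * K ≤ m / 2 := by
    rw [Nat.le_div_iff_mul_le (by norm_num)]
    calc j * K * 2 = j * (2 * K) := by ring
      _ ≤ j * (2 * L) := by gcongr; omega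
      _ ≤ m := hjL
  have hjE : j * E ≤ m / 2 := by
    rw [Nat.le_div_iff_mul_le (by norm_num)]
    calc j * E * 2 = j * (2 * E) := by ring
      _ ≤ j * (2 * L) := by gcongr; omega
      _ ≤ m := hjL
  have hzK : z ^ K ≤ Q * X := by
    have h1 : z ^ K ≤ 2 ^ (m / 2) := by
      rw [hz, ← pow_mul]
      exact Nat.pow_le_pow_right (by norm_num) hjK
    have h2 : 2 ^ (m / 2) ≤ X := by
      have : (2 : ℝ) ^ (m / 2) ≤ X := by nlinarith
      exact_mod_cast this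
    calc z ^ K ≤ X := h1.trans h2
      _ ≤ Q * X := Nat.le_mul_of_pos_left _ hQ
  have hz1 : 1 ≤ z := by rw [hz]; exact Nat.one_le_two_pow
  set U : Finset ℕ := Finset.univ.image (fun ω : Finset (Fin k) => (Lam ω t + sh t).toNat) with hU
  obtain ⟨hUc, hUp⟩ := U_prod t ht
  rw [← hU] at hUc hUp
  rw [hK] at hUc
  have hmb := hMBK Q X (X + 2) z U hQe hQ hUc hz1 hzK
  -- the map
  have hcard : (cub k (AA Q G) t).card ≤ ((Finset.Ico X (X + (X + 2))).filter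
      (fun n => ∀ u ∈ U, (Q * n + 1 + Q * u).Prime)).card := by
    apply Finset.card_le_card_of_injOn (fun n => (n - sh t).toNat)
    · intro n hn
      have h1 := cub_mem k _ t n hn
      have h2 : n - sh t ∈ AA Q G := by
        have := h1 (Finset.univ.filter (fun i => t i < 0))
        unfold sh Lam
        rw [sub_neg_eq_add]
        exact this
      have h3 := AA_range hQ hG h2
      rw [hX] at h3
      simp only [Finset.coe_filter, Set.mem_ofPred_eq, Finset.mem_Ico]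
      refine ⟨⟨by omega, by omega⟩, ?_⟩
      intro u hu
      obtain ⟨ω, -, rfl⟩ := Finset.mem_image.1 hu
      obtain ⟨p, hp, hpe⟩ := AA_mem hQ hG (h1 ω)
      have h4 := sh_spec t ω
      have h5 : ((Q * (n - sh t).toNat + 1 + Q * (Lam ω t + sh t).toNat : ℕ) : ℤ) = p := by
        push_cast
        rw [Int.toNat_of_nonneg (by omega), Int.toNat_of_nonneg h4, hpe]
        unfold Lam
        ring
      have h6 : Q * (n - sh t).toNat + 1 + Q * (Lam ω t + sh t).toNat = p := by exact_mod_cast h5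
      rw [h6]
      exact (pset_eq hQ (hG hp)).1
    · intro n hn n' hn' hnn
      simp only at hnn
      have h2 : ∀ n ∈ cub k (AA Q G) t, ((X : ℕ) : ℤ) ≤ n - sh t := by
        intro n hn
        have h1 := cub_mem k _ t n hn
        have h2 : n - sh t ∈ AA Q G := by
          have := h1 (Finset.univ.filter (fun i => t i < 0))
          unfold sh Lam
          rw [sub_neg_eq_add]
          exact this
        have h3 := (AA_range hQ hG h2).1
        rwa [hX] at h3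
      have h3 := h2 n hn
      have h4 := h2 n' hn'
      omega
  have hW : hh Q ≤ (Q : ℝ) / Nat.totient Q := by
    have hφ : (0 : ℝ) < (Nat.totient Q : ℝ) := by exact_mod_cast Nat.totient_pos.mpr hQ
    rw [le_div_iff₀ hφ]
    exact Pool.Agent.H75.PS.prod_mul_totient_le Q hQ
  set W := (Q : ℝ) / Nat.totient Q with hWdef
  have hW1 : 1 ≤ W := (one_le_hh Q).trans hW
  clear_value W
  have hS1 : 1 ≤ SS t := one_le_SS t
  -- log bound
  have hlog : (m : ℝ) / (8 * L) ≤ Real.log (z + 1) := by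
    have h1 : Real.log ((2 : ℝ) ^ j) ≤ Real.log (z + 1) := by
      apply Real.log_le_log (by positivity)
      rw [hz]; push_cast; linarith
    refine le_trans ?_ h1
    rw [Real.log_pow]
    have h2 : (m : ℝ) / (4 * L) ≤ (j : ℝ) := by
      rw [div_le_iff₀ (by positivity)]
      have h3 : m ≤ j * (4 * L) := by
        have h4 : m < (2 * L) * (j + 1) := by
          have := Nat.lt_mul_div_succ m (show 0 < 2 * L by omega)
          rw [← hj] at this
          exact this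
        have h5 : 1 ≤ j := by
          rw [hj]
          rw [Nat.le_div_iff_mul_le (by omega)]
          omega
        nlinarith
      exact_mod_cast h3
    have h4 : (1 : ℝ) / 2 ≤ Real.log 2 := by linarith [Real.log_two_gt_d9]
    calc (m : ℝ) / (8 * L) = (m : ℝ) / (4 * L) * (1 / 2) := by field_simp; ring
      _ ≤ (j : ℝ) * Real.log 2 := by
          apply mul_le_mul h2 h4 (by norm_num) (Nat.cast_nonneg _)
  have hl0 : (0 : ℝ) < (m : ℝ) / (8 * L) := by positivity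
  have hUp0 : (0 : ℝ) ≤ ∏ u ∈ U, ∏ v ∈ U.filter (fun v => u < v), ∏ p ∈ (v - u).primeFactors,
      (1 + 1 / (p : ℝ)) :=
    Finset.prod_nonneg fun u _ => Finset.prod_nonneg fun v _ => Finset.prod_nonneg fun p _ => by
      positivity
  have hhQ0 : (0 : ℝ) ≤ ∏ p ∈ Q.primeFactors, (1 + 1 / (p : ℝ)) := zero_le_one.trans (one_le_hh Q)
  have hmain : C * (∏ p ∈ Q.primeFactors, (1 + 1 / (p : ℝ))) ^ K *
      (∏ u ∈ U, ∏ v ∈ U.filter (fun v => u < v), ∏ p ∈ (v - u).primeFactors, (1 + 1 / (p : ℝ))) ^ K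
      * ((X + 2 : ℕ) : ℝ) / Real.log (z + 1) ^ K ≤
      3 * C * (8 * L : ℝ) ^ K * (W / m) ^ K * SS t ^ K * X := by
    calc _ ≤ C * W ^ K * SS t ^ K * (3 * X) / ((m : ℝ) / (8 * L)) ^ K := by
          have hX3 : ((X + 2 : ℕ) : ℝ) ≤ 3 * X := by
            push_cast
            linarith
          have e1 : (∏ p ∈ Q.primeFactors, (1 + 1 / (p : ℝ))) ≤ W := hW
          gcongr
      _ = _ := by
          rw [div_pow W, div_pow (m : ℝ)]
          field_simp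
  have herr : (z : ℝ) ^ E ≤ 1 * (W / m) ^ K * SS t ^ K * X := by
    have h1 : (z : ℝ) ^ E ≤ (2 : ℝ) ^ (m / 2) := by
      rw [hz]
      push_cast
      rw [← pow_mul]
      exact pow_le_pow_right₀ (by norm_num) hjE
    have h2 : (2 : ℝ) ^ (m / 2) ≤ X / (m : ℝ) ^ K := by
      rw [le_div_iff₀ (by positivity)]
      linarith
    refine h1.trans (h2.trans ?_)
    have h3 : (1 : ℝ) ≤ W ^ K := one_le_pow₀ hW1
    have h4 : (1 : ℝ) ≤ SS t ^ K := one_le_pow₀ hS1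
    calc X / (m : ℝ) ^ K = 1 / (m : ℝ) ^ K * 1 * X := by ring
      _ ≤ W ^ K / (m : ℝ) ^ K * SS t ^ K * X := by gcongr
      _ = _ := by rw [div_pow]; ring
  calc ((cub k (AA Q G) t).card : ℝ) ≤ _ := by exact_mod_cast hcard
    _ ≤ _ := hmb
    _ ≤ 3 * C * (8 * L : ℝ) ^ K * (W / m) ^ K * SS t ^ K * X + 1 * (W / m) ^ K * SS t ^ K * X :=
        add_le_add hmain herr
    _ = _ := by ring

end Pool.Agent.H24.T2
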