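import Mathlib
import Pool.Agent.H24.T2.PskAux

/-!
[PSK]: cubes in dense sets of primes (project T2 on `MP_c59857_nt`).
-/

set_option autoImplicit false

open Finset

namespace Pool.Agent.H24.T2

/-- moments of the all pairs factor -/
theorem SS_moment (hMOM : StatementMOM) (k M : ℕ) : ∃ C : ℝ, 0 < C ∧ ∀ X : ℕ, 0 < X →
    ∀ B : Finset (Fin k → ℤ), B ⊆ box k X →
      (∀ t ∈ B, Function.Injective (fun ω => Lam ω t)) →
      ∑ t ∈ B, SS t ^ M ≤ C * (X : ℝ) ^ k := by
  classical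
  obtain ⟨P, hP⟩ : ∃ P, (Finset.univ : Finset (Finset (Fin k) × Finset (Fin k))).card = P :=
    ⟨_, rfl⟩
  obtain ⟨C, hC, hmom⟩ := hMOM k (M * P)
  refine ⟨P * (C + 3 ^ k), ?_, ?_⟩
  · have : 0 < P := by
      rw [← hP]
      exact Finset.card_pos.2 Finset.univ_nonempty
    have : (0 : ℝ) < P := by exact_mod_cast this
    positivity
  intro X hX B hB hBinj
  have hXR : (0 : ℝ) < X := by exact_mod_cast hX
  have h1 : ∀ t ∈ B, SS t ^ M ≤ ∑ x : Finset (Fin k) × Finset (Fin k),
      hh (Lam x.1 t - Lam x.2 t).natAbs ^ (M * P) := by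
    intro t _
    unfold SS
    rw [← Finset.prod_pow]
    refine (prod_le_sum_pow Finset.univ Finset.univ_nonempty _ (fun x _ =>
      pow_nonneg (zero_le_one.trans (one_le_hh _)) _)).trans (le_of_eq ?_)
    refine Finset.sum_congr rfl fun x _ => ?_
    rw [hP, ← pow_mul]
  refine (Finset.sum_le_sum h1).trans ?_
  rw [Finset.sum_comm]
  have h2 : ∀ x ∈ (Finset.univ : Finset (Finset (Fin k) × Finset (Fin k))),
      ∑ t ∈ B, hh (Lam x.1 t - Lam x.2 t).natAbs ^ (M * P) ≤ (C + 3 ^ k) * (X : ℝ) ^ k := by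
    rintro ⟨ω, ω'⟩ _
    simp only
    by_cases hω : ω = ω'
    · subst hω
      simp only [sub_self, Int.natAbs_zero, hh_zero, one_pow, Finset.sum_const, nsmul_eq_mul,
        mul_one]
      have h3 : (B.card : ℝ) ≤ (box k X).card := by exact_mod_cast Finset.card_le_card hB
      refine (h3.trans (box_card_le k X hX)).trans ?_
      rw [mul_pow]
      have : 0 ≤ C * (X : ℝ) ^ k := by positivity
      linarith
    · have h3 := hmom X hX (fun i => (if i ∈ ω then (1 : ℤ) else 0) - (if i ∈ ω' then (1 : ℤ) else 0))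
        (by intro i; split_ifs <;> simp) (by
          by_contra hcon
          push Not at hcon
          apply hω
          ext i
          have := hcon i
          split_ifs at this with h4 h5 h5 <;> simp_all)
      simp only [Lam_sub] at h3
      have h4 : ∑ t ∈ B, hh (Lam ω t - Lam ω' t).natAbs ^ (M * P) ≤
          ∑ t ∈ Fintype.piFinset (fun _ : Fin k => Finset.Icc (-(X : ℤ)) X),
          (if Lam ω t - Lam ω' t = 0 then (0 : ℝ) else
            (∏ p ∈ (Lam ω t - Lam ω' t).natAbs.primeFactors, (1 + 1 / (p : ℝ))) ^ (M * P)) := by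
        have h5 : ∑ t ∈ B, hh (Lam ω t - Lam ω' t).natAbs ^ (M * P) = ∑ t ∈ B,
          (if Lam ω t - Lam ω' t = 0 then (0 : ℝ) else
            (∏ p ∈ (Lam ω t - Lam ω' t).natAbs.primeFactors, (1 + 1 / (p : ℝ))) ^ (M * P)) := by
          refine Finset.sum_congr rfl fun t ht => ?_
          rw [if_neg]
          · rfl
          · intro h6
            exact hω (hBinj t ht (sub_eq_zero.1 h6))
        rw [h5]
        apply Finset.sum_le_sum_of_subset_of_nonneg
        · exact hB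
        · intro t _ _
          split_ifs
          · exact le_refl _
          · exact pow_nonneg (Finset.prod_nonneg fun p _ => by positivity) _
      refine (h4.trans h3).trans ?_
      have : 0 ≤ 3 ^ k * (X : ℝ) ^ k := by positivity
      linarith
  refine (Finset.sum_le_card_nsmul _ _ _ h2).trans (le_of_eq ?_)
  rw [hP, nsmul_eq_mul]
  ring

/-- number of degenerate directions -/
theorem deg_card (k X : ℕ) (hX : 0 < X) : ∀ B : Finset (Fin k → ℤ), B ⊆ box k X →
    (∀ t ∈ B, ¬ Function.Injective (fun ω => Lam ω t)) →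
    (B.card : ℝ) * (2 * X + 1) ≤
      (Finset.univ : Finset (Finset (Fin k) × Finset (Fin k))).card * (3 * X : ℝ) ^ k := by
  classical
  intro B hB hBd
  have h1 : ∀ x : Finset (Fin k) × Finset (Fin k), x.1 ≠ x.2 →
      ((((box k X).filter (fun t => Lam x.1 t = Lam x.2 t)).card : ℕ)) * (2 * X + 1) ≤
        (box k X).card := by
    rintro ⟨ω, ω'⟩ hω
    simp only at hω ⊢
    -- a coordinate in exactly one of the two sets
    obtain ⟨i, hi⟩ : ∃ i, ((if i ∈ ω then (1 : ℤ) else 0) - (if i ∈ ω' then (1 : ℤ) else 0)) ≠ 0 := by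
      by_contra hcon
      push Not at hcon
      apply hω
      ext i
      have := hcon i
      split_ifs at this with h4 h5 h5 <;> simp_all
    have h2 : (Finset.Icc (-(X : ℤ)) X).card = 2 * X + 1 := by
      rw [Int.card_Icc]; omega
    rw [← h2, ← Finset.card_product]
    apply Finset.card_le_card_of_injOn (fun y => Function.update y.1 i y.2)
    · rintro ⟨t, s⟩ hy
      rw [Finset.mem_coe, Finset.mem_product, Finset.mem_filter] at hy
      rw [Finset.mem_coe, mem_box]
      intro j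
      by_cases hj : j = i
      · subst hj
        simp only [Function.update_self]
        exact abs_le.2 (Finset.mem_Icc.1 hy.2)
      · simp only [Function.update_of_ne hj]
        exact (mem_box.1 hy.1.1) j
    · rintro ⟨t, s⟩ hy ⟨t', s'⟩ hy' heq
      rw [Finset.mem_coe, Finset.mem_product, Finset.mem_filter] at hy hy'
      simp only at heq hy hy'
      have h3 : s = s' := by
        have := congrFun heq i
        simpa using this
      have h4 : ∀ j, j ≠ i → t j = t' j := by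
        intro j hj
        have := congrFun heq j
        simpa [Function.update_of_ne hj] using this
      have h5 : ∀ t : Fin k → ℤ, Lam ω t = Lam ω' t →
          ∑ j, ((if j ∈ ω then (1 : ℤ) else 0) - (if j ∈ ω' then (1 : ℤ) else 0)) * t j = 0 := by
        intro t ht
        rw [Lam_sub, ht, sub_self]
      have h6 := h5 t hy.1.2
      have h7 := h5 t' hy'.1.2
      rw [← Finset.add_sum_erase _ _ (Finset.mem_univ i)] at h6 h7
      have h8 : ∑ j ∈ Finset.univ.erase i,
          ((if j ∈ ω then (1 : ℤ) else 0) - (if j ∈ ω' then (1 : ℤ) else 0)) * t j =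
          ∑ j ∈ Finset.univ.erase i,
          ((if j ∈ ω then (1 : ℤ) else 0) - (if j ∈ ω' then (1 : ℤ) else 0)) * t' j := by
        refine Finset.sum_congr rfl fun j hj => ?_
        rw [h4 j (Finset.ne_of_mem_erase hj)]
      rw [h8] at h6
      have h9 := h6.trans h7.symm
      have h10 := mul_left_cancel₀ hi (add_right_cancel h9)
      have h11 : t = t' := by
        funext j
        by_cases hj : j = i
        · rw [hj]; exact h10
        · exact h4 j hj
      rw [h11, h3]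
  have h2 : B ⊆ (Finset.univ.filter (fun x : Finset (Fin k) × Finset (Fin k) => x.1 ≠ x.2)).biUnion
      (fun x => (box k X).filter (fun t => Lam x.1 t = Lam x.2 t)) := by
    intro t ht
    have h3 := hBd t ht
    unfold Function.Injective at h3
    push Not at h3
    obtain ⟨ω, ω', h4, h5⟩ := h3
    rw [Finset.mem_biUnion]
    refine ⟨(ω, ω'), ?_, ?_⟩
    · rw [Finset.mem_filter]; exact ⟨Finset.mem_univ _, h5⟩
    · rw [Finset.mem_filter]; exact ⟨hB ht, h4⟩
  have h3 : B.card * (2 * X + 1) ≤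
      (Finset.univ : Finset (Finset (Fin k) × Finset (Fin k))).card * (box k X).card := by
    calc B.card * (2 * X + 1) ≤ (∑ x ∈ Finset.univ.filter
          (fun x : Finset (Fin k) × Finset (Fin k) => x.1 ≠ x.2),
          ((box k X).filter (fun t => Lam x.1 t = Lam x.2 t)).card) * (2 * X + 1) := by
          apply Nat.mul_le_mul_right
          exact (Finset.card_le_card h2).trans Finset.card_biUnion_le
      _ = ∑ x ∈ Finset.univ.filter
          (fun x : Finset (Fin k) × Finset (Fin k) => x.1 ≠ x.2),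
          ((box k X).filter (fun t => Lam x.1 t = Lam x.2 t)).card * (2 * X + 1) := by
          rw [Finset.sum_mul]
      _ ≤ ∑ x ∈ Finset.univ.filter
          (fun x : Finset (Fin k) × Finset (Fin k) => x.1 ≠ x.2), (box k X).card := by
          apply Finset.sum_le_sum
          intro x hx
          exact h1 x (Finset.mem_filter.1 hx).2
      _ ≤ _ := by
          rw [Finset.sum_const, smul_eq_mul]
          apply Nat.mul_le_mul_right
          exact Finset.card_le_card (Finset.filter_subset _ _)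
  have h4 : (B.card : ℝ) * (2 * X + 1) ≤
      (Finset.univ : Finset (Finset (Fin k) × Finset (Fin k))).card * (box k X).card := by
    exact_mod_cast h3
  refine h4.trans ?_
  apply mul_le_mul_of_nonneg_left (box_card_le k X hX) (Nat.cast_nonneg _)

theorem psk (hMB : StatementMB) (hMOM : StatementMOM) : StatementPSK := by
  classical
  intro k c₀ hc₀
  obtain ⟨C₁, hC₁, hup⟩ := cub_upper hMB k
  obtain ⟨K, hK⟩ : ∃ K, 2 ^ k = K := ⟨_, rfl⟩
  rw [hK] at hup
  obtain ⟨C₂, hC₂, hmo⟩ := SS_moment hMOM k (2 * K)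
  obtain ⟨P, hP⟩ : ∃ P, (Finset.univ : Finset (Finset (Fin k) × Finset (Fin k))).card = P :=
    ⟨_, rfl⟩
  have hPpos : (0 : ℝ) < P := by
    have : 0 < P := by
      rw [← hP]
      exact Finset.card_pos.2 Finset.univ_nonempty
    exact_mod_cast this
  refine ⟨(1 / 4) * (c₀ / 3) ^ (2 * K) * 3 ^ (2 * k + 2) / (C₁ ^ 2 * C₂), by positivity, ?_⟩
  intro Q hQ hQe
  obtain ⟨m₁, hm₁⟩ := hup Q hQ hQe
  obtain ⟨m₂, hm₂⟩ := growthK Q K (4 * P / (c₀ / 3) ^ K + 1) hQ
  refine ⟨max (max m₁ m₂) 1, fun m hm G hG hGc => ?_⟩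
  have hm1 : m₁ ≤ m := le_trans (le_trans (le_max_left _ _) (le_max_left _ _)) hm
  have hm2 : m₂ ≤ m := le_trans (le_trans (le_max_right _ _) (le_max_left _ _)) hm
  have hm0 : 1 ≤ m := le_trans (le_max_right _ _) hm
  have hup' := hm₁ m hm1 G hG
  have hgr := hm₂ m hm2
  have hdiam := AA_diam hQ hG
  obtain ⟨X, hX⟩ : ∃ X, 2 ^ m / Q = X := ⟨_, rfl⟩
  have hXQ : (X : ℝ) * Q ≤ 2 ^ m := by
    rw [← hX]
    exact_mod_cast Nat.div_mul_le_self (2 ^ m) Q
  have hrange : ∀ n ∈ AA Q G, (X : ℤ) ≤ n ∧ n ≤ 2 * (X : ℤ) + 1 := by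
    intro n hn
    have := AA_range hQ hG hn
    rwa [hX] at this
  rw [hX] at hup' hgr hdiam ⊢
  have hmR : (1 : ℝ) ≤ m := by exact_mod_cast hm0
  have hmK : (1 : ℝ) ≤ (m : ℝ) ^ K := one_le_pow₀ hmR
  have h2m : (1 : ℝ) ≤ (2 : ℝ) ^ (m / 2) := one_le_pow₀ (by norm_num)
  have hcK : 0 < (c₀ / 3) ^ K := by positivity
  have hX1 : (1 : ℝ) ≤ X := by
    refine le_trans ?_ hgr
    have h1 : (1 : ℝ) ≤ 4 * P / (c₀ / 3) ^ K + 1 := by
      have : 0 ≤ 4 * P / (c₀ / 3) ^ K := by positivity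
      linarith
    calc (1 : ℝ) = 1 * 1 * 1 := by norm_num
      _ ≤ _ := by gcongr
  have hXpos : 0 < X := by exact_mod_cast lt_of_lt_of_le zero_lt_one hX1
  have hXP : 4 * P * (m : ℝ) ^ K ≤ (c₀ / 3) ^ K * X := by
    have h1 : 4 * P / (c₀ / 3) ^ K * (m : ℝ) ^ K ≤ X := by
      refine le_trans ?_ hgr
      calc 4 * P / (c₀ / 3) ^ K * (m : ℝ) ^ K = 4 * P / (c₀ / 3) ^ K * (m : ℝ) ^ K * 1 := by ring
        _ ≤ (4 * P / (c₀ / 3) ^ K + 1) * (m : ℝ) ^ K * 2 ^ (m / 2) := by
            gcongr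
            linarith
    have h2 := mul_le_mul_of_nonneg_left h1 hcK.le
    refine le_trans (le_of_eq ?_) h2
    field_simp
  have hφ : (0 : ℝ) < (Nat.totient Q : ℝ) := by exact_mod_cast Nat.totient_pos.mpr hQ
  have hQR : (0 : ℝ) < Q := by exact_mod_cast hQ
  obtain ⟨w, hw⟩ : ∃ w : ℝ, (Q : ℝ) / Nat.totient Q / m = w := ⟨_, rfl⟩
  have hw0 : 0 < w := by rw [← hw]; positivity
  have hwm : 1 ≤ w * m := by
    rw [← hw, div_mul_cancel₀ _ (by positivity), one_le_div hφ]
    exact_mod_cast Nat.totient_le Q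
  rw [hw] at hup'
  set A := AA Q G with hA
  have hAc : (c₀ / 3) * (3 * X) * w ≤ (A.card : ℝ) := by
    rw [hA, AA_card hQ hG]
    refine le_trans ?_ hGc
    calc (c₀ / 3) * (3 * X) * w = c₀ * (X * Q) / (Nat.totient Q * m) := by
          rw [← hw]; field_simp
      _ ≤ _ := by gcongr
  -- lower bound for the number of cubes
  have hlow := cub_lower X hXpos k A hdiam
  rw [hK] at hlow
  have hX3 : (0 : ℝ) < 3 * X := by positivity
  have h1 : ((c₀ / 3) * w) ^ K * (3 * X : ℝ) ^ (k + 1) ≤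
      ∑ t ∈ box k X, ((cub k A t).card : ℝ) := by
    have h2 : ((c₀ / 3) * (3 * X) * w) ^ K * (3 * X : ℝ) ^ (k + 1) ≤
        (∑ t ∈ box k X, ((cub k A t).card : ℝ)) * (3 * X : ℝ) ^ K := by
      refine le_trans ?_ hlow
      gcongr
    have h3 : ((c₀ / 3) * (3 * X) * w) ^ K * (3 * X : ℝ) ^ (k + 1) =
        (((c₀ / 3) * w) ^ K * (3 * X : ℝ) ^ (k + 1)) * (3 * X : ℝ) ^ K := by
      rw [mul_pow, mul_pow, mul_pow]; ring
    rw [h3] at h2
    exact le_of_mul_le_mul_right h2 (by positivity)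
  -- the degenerate part
  set Bd := (box k X).filter (fun t => ¬ Function.Injective (fun ω => Lam ω t)) with hBd
  set Bn := (box k X).filter (fun t => Function.Injective (fun ω => Lam ω t)) with hBn
  have hsplit : ∑ t ∈ box k X, ((cub k A t).card : ℝ) =
      ∑ t ∈ Bn, ((cub k A t).card : ℝ) + ∑ t ∈ Bd, ((cub k A t).card : ℝ) :=
    (Finset.sum_filter_add_sum_filter_not _ _ _).symm
  have hAle : (A.card : ℝ) ≤ 3 * X := by
    have h2 : A ⊆ Finset.Icc (X : ℤ) (2 * X + 1) := by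
      intro n hn
      rw [Finset.mem_Icc]
      exact hrange n hn
    have h3 := Finset.card_le_card h2
    rw [Int.card_Icc] at h3
    have h4 : A.card ≤ X + 2 := by omega
    have h5 : A.card ≤ 3 * X := by omega
    exact_mod_cast h5
  have hdeg : ∑ t ∈ Bd, ((cub k A t).card : ℝ) ≤ 2 * P * (3 * X : ℝ) ^ k := by
    have h2 := deg_card k X hXpos Bd (Finset.filter_subset _ _)
      (fun t ht => (Finset.mem_filter.1 ht).2)
    rw [hP] at h2
    calc ∑ t ∈ Bd, ((cub k A t).card : ℝ) ≤ Bd.card * (3 * X) := by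
          rw [← nsmul_eq_mul]
          refine Finset.sum_le_card_nsmul _ _ _ fun t _ => ?_
          refine le_trans ?_ hAle
          exact_mod_cast Finset.card_le_card (cub_subset k A t)
      _ ≤ 2 * (Bd.card * (2 * X + 1)) := by
          have : (0 : ℝ) ≤ Bd.card := Nat.cast_nonneg _
          nlinarith
      _ ≤ 2 * (P * (3 * X : ℝ) ^ k) := by linarith
      _ = _ := by ring
  have hdeg2 : 2 * P * (3 * X : ℝ) ^ k ≤ 1 / 2 * (((c₀ / 3) * w) ^ K * (3 * X : ℝ) ^ (k + 1)) := by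
    have h2 : 4 * P ≤ ((c₀ / 3) * w) ^ K * X := by
      have h3 : 4 * P * (m : ℝ) ^ K ≤ ((c₀ / 3) * w) ^ K * X * (m : ℝ) ^ K := by
        have h4 : 1 ≤ (w * m) ^ K := one_le_pow₀ hwm
        calc 4 * P * (m : ℝ) ^ K ≤ (c₀ / 3) ^ K * X := hXP
          _ = (c₀ / 3) ^ K * X * 1 := by ring
          _ ≤ (c₀ / 3) ^ K * X * (w * m) ^ K := by gcongr
          _ = _ := by rw [mul_pow, mul_pow]; ring
      exact le_of_mul_le_mul_right h3 (by positivity)
    calc 2 * P * (3 * X : ℝ) ^ k = 1 / 2 * (4 * P * (3 * X : ℝ) ^ k) := by ring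
      _ ≤ 1 / 2 * (((c₀ / 3) * w) ^ K * X * (3 * X : ℝ) ^ k) := by gcongr
      _ ≤ 1 / 2 * (((c₀ / 3) * w) ^ K * (3 * X) * (3 * X : ℝ) ^ k) := by
          gcongr
          linarith
      _ = _ := by rw [pow_succ]; ring
  have hS : 1 / 2 * (((c₀ / 3) * w) ^ K * (3 * X : ℝ) ^ (k + 1)) ≤
      ∑ t ∈ Bn, ((cub k A t).card : ℝ) := by linarith
  -- Cauchy-Schwarz
  set D := Bn.filter (fun t => (cub k A t).Nonempty) with hD
  have hSD : ∑ t ∈ Bn, ((cub k A t).card : ℝ) = ∑ t ∈ D, ((cub k A t).card : ℝ) := by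
    symm
    apply Finset.sum_subset (Finset.filter_subset _ _)
    intro t ht hnt
    have h4 : ¬ (cub k A t).Nonempty := fun h => hnt (Finset.mem_filter.2 ⟨ht, h⟩)
    rw [Finset.not_nonempty_iff_eq_empty] at h4
    rw [h4]; simp
  have hCS : (∑ t ∈ D, ((cub k A t).card : ℝ)) ^ 2 ≤
      D.card * ∑ t ∈ D, ((cub k A t).card : ℝ) ^ 2 := sq_sum_le_card_mul_sum_sq
  have hsq : ∑ t ∈ D, ((cub k A t).card : ℝ) ^ 2 ≤
      (C₁ * w ^ K * X) ^ 2 * (C₂ * (X : ℝ) ^ k) := by
    calc ∑ t ∈ D, ((cub k A t).card : ℝ) ^ 2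
        ≤ ∑ t ∈ D, (C₁ * w ^ K * X) ^ 2 * SS t ^ (2 * K) := by
          refine Finset.sum_le_sum fun t ht => ?_
          have h2 := hup' t (Finset.mem_filter.1 (Finset.mem_filter.1 ht).1).2
          calc ((cub k A t).card : ℝ) ^ 2 ≤ (C₁ * w ^ K * SS t ^ K * X) ^ 2 :=
                pow_le_pow_left₀ (Nat.cast_nonneg _) h2 2
            _ = _ := by ring
      _ = (C₁ * w ^ K * X) ^ 2 * ∑ t ∈ D, SS t ^ (2 * K) := by rw [Finset.mul_sum]
      _ ≤ _ := by
          gcongr
          exact hmo X hXpos D ((Finset.filter_subset _ _).trans (Finset.filter_subset _ _))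
            (fun t ht => (Finset.mem_filter.1 (Finset.mem_filter.1 ht).1).2)
  refine ⟨D, ?_, ?_⟩
  · intro t ht
    have h2 := Finset.mem_filter.1 ht
    have h3 := Finset.mem_filter.1 h2.1
    refine ⟨mem_box.1 h3.1, ?_⟩
    obtain ⟨n, hn⟩ := h2.2
    refine ⟨Q * n + 1, fun ω => ?_⟩
    obtain ⟨p, hp, hpe⟩ := AA_mem hQ hG (cub_mem k _ t n hn ω)
    refine ⟨p, hp, ?_⟩
    rw [hpe]
    ring
  · have h2 : (1 / 2 * (((c₀ / 3) * w) ^ K * (3 * X : ℝ) ^ (k + 1))) ^ 2 ≤
        D.card * ((C₁ * w ^ K * X) ^ 2 * (C₂ * (X : ℝ) ^ k)) := by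
      calc _ ≤ (∑ t ∈ D, ((cub k A t).card : ℝ)) ^ 2 := by
            rw [← hSD]
            apply pow_le_pow_left₀ (by positivity) hS
        _ ≤ _ := hCS
        _ ≤ _ := by gcongr
    have h3 : (1 / 2 * (((c₀ / 3) * w) ^ K * (3 * X : ℝ) ^ (k + 1))) ^ 2 =
        ((1 / 4) * (c₀ / 3) ^ (2 * K) * 3 ^ (2 * k + 2) / (C₁ ^ 2 * C₂) * (X : ℝ) ^ k) *
        ((C₁ * w ^ K * X) ^ 2 * (C₂ * (X : ℝ) ^ k)) := by
      have hXR : (0 : ℝ) < X := by linarith
      rw [mul_pow (c₀ / 3) w, mul_pow (3 : ℝ) (X : ℝ)]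
      field_simp
      ring
    rw [h3] at h2
    exact le_of_mul_le_mul_right h2 (by positivity)

end Pool.Agent.H24.T2
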