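import Mathlib
import Pool.Agent.H24.T2.Interface
import Pool.Agent.H59.MR.Dens
import Pool.Agent.H18.MR.Block

/-!
Finite partitions and conditional measures for finitely additive invariant probabilities
(project T2 on `MP_c59857_nt`).
-/

set_option autoImplicit false

open Finset Filter

namespace Pool.Agent.H24.T2

open Pool.Agent.H24.MR (lam FinAddInv)
open Pool.Agent.H59.MR

variable {μ : Set ℕ → ℝ}

theorem fa_fiber (h : FinAddInv μ) {ι : Type*} (f : ℕ → ι) (V : Finset ι)
    (hV : ∀ n, f n ∈ V) (A : Set ℕ) : μ A = ∑ v ∈ V, μ {n | n ∈ A ∧ f n = v} := by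
  have h1 := fai_sum_eq h V (fun v => {n | n ∈ A ∧ f n = v}) (by
    intro i _ j _ hij
    rw [Set.disjoint_left]
    intro n hn hn'
    apply hij
    rw [← hn.2, hn'.2])
  rw [h1]
  congr 1
  ext n
  constructor
  · intro hn
    exact ⟨f n, hV n, hn, rfl⟩
  · rintro ⟨v, _, hn⟩
    exact hn.1

theorem fa_eq_of_null (h : FinAddInv μ) {A B : Set ℕ}
    (hAB : μ {n | ¬ (n ∈ A ↔ n ∈ B)} = 0) : μ A = μ B := by
  apply le_antisymm
  · have h1 : A ⊆ B ∪ {n | ¬ (n ∈ A ↔ n ∈ B)} := by
      intro n hn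
      by_cases hb : n ∈ B
      · exact Or.inl hb
      · right
        intro hc
        exact hb (hc.1 hn)
    have h2 := (fai_mono h h1).trans (fai_union_le h _ _)
    linarith
  · have h1 : B ⊆ A ∪ {n | ¬ (n ∈ A ↔ n ∈ B)} := by
      intro n hn
      by_cases hb : n ∈ A
      · exact Or.inl hb
      · right
        intro hc
        exact hb (hc.2 hn)
    have h2 := (fai_mono h h1).trans (fai_union_le h _ _)
    linarith

theorem fa_null_mono (h : FinAddInv μ) {A B : Set ℕ} (hAB : A ⊆ B) (hB : μ B = 0) : μ A = 0 :=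
  le_antisymm (hB ▸ fai_mono h hAB) (h.nonneg A)

theorem fa_null_biUnion (h : FinAddInv μ) {ι : Type*} (s : Finset ι) (A : ι → Set ℕ)
    (hA : ∀ i ∈ s, μ (A i) = 0) : μ {n | ∃ i ∈ s, n ∈ A i} = 0 := by
  classical
  induction s using Finset.induction_on with
  | empty =>
    have : {n : ℕ | ∃ i ∈ (∅ : Finset ι), n ∈ A i} = ∅ := by ext n; simp
    rw [this]; exact fai_empty h
  | insert a s ha ih =>
    have h1 : {n | ∃ i ∈ insert a s, n ∈ A i} ⊆ A a ∪ {n | ∃ i ∈ s, n ∈ A i} := by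
      rintro n ⟨i, hi, hn⟩
      rcases Finset.mem_insert.1 hi with rfl | hi
      · exact Or.inl hn
      · exact Or.inr ⟨i, hi, hn⟩
    have h2 := (fai_mono h h1).trans (fai_union_le h _ _)
    rw [hA a (by simp), ih (fun i hi => hA i (by simp [hi]))] at h2
    exact le_antisymm (by linarith) (h.nonneg _)

/-- conditioning on an almost invariant set -/
theorem fa_cond (h : FinAddInv μ) (E : Set ℕ) (hE : μ {n | ¬ (n ∈ E ↔ n + 1 ∈ E)} = 0)
    (hpos : 0 < μ E) : FinAddInv (fun A => μ (A ∩ E) / μ E) where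
  nonneg A := div_nonneg (h.nonneg _) hpos.le
  univ := by
    simp only [Set.univ_inter]
    exact div_self hpos.ne'
  add A B hAB := by
    rw [← add_div, Set.union_inter_distrib_right, h.add]
    exact Set.disjoint_of_subset Set.inter_subset_left Set.inter_subset_left hAB
  shift A := by
    congr 1
    rw [← h.shift (A ∩ E)]
    apply fa_eq_of_null h
    apply fa_null_mono h _ hE
    intro n hn
    simp only [Set.mem_inter_iff, Set.mem_ofPred_eq] at hn ⊢
    tauto

theorem fa_markov (h : FinAddInv μ) (A : Set ℕ) (B : ℕ → Set ℕ) (k x : ℕ) :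
    (x : ℝ) * μ {z | z ∈ A ∧ ∃ S ⊆ Finset.range k, x ≤ S.card ∧ ∀ j ∈ S, z ∈ B j} ≤
      ∑ j ∈ Finset.range k, μ {z | z ∈ A ∧ z ∈ B j} := by
  classical
  set f : ℕ → Finset ℕ := fun z => (Finset.range k).filter (fun j => z ∈ B j) with hf
  have hV : ∀ n, f n ∈ (Finset.range k).powerset := by
    intro n
    rw [Finset.mem_powerset]
    exact Finset.filter_subset _ _
  have h1 : ∀ j ∈ Finset.range k, μ {z | z ∈ A ∧ z ∈ B j} =
      ∑ v ∈ (Finset.range k).powerset, (if j ∈ v then μ {n | n ∈ A ∧ f n = v} else 0) := by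
    intro j hj
    rw [fa_fiber h f _ hV]
    refine Finset.sum_congr rfl fun v _ => ?_
    split_ifs with hjv
    · congr 1
      ext n
      simp only [Set.mem_ofPred_eq]
      constructor
      · rintro ⟨⟨h1, _⟩, h3⟩
        exact ⟨h1, h3⟩
      · rintro ⟨h1, h3⟩
        refine ⟨⟨h1, ?_⟩, h3⟩
        rw [← h3, hf] at hjv
        exact (Finset.mem_filter.1 hjv).2
    · have : {n | n ∈ {z | z ∈ A ∧ z ∈ B j} ∧ f n = v} = ∅ := by
        ext n
        simp only [Set.mem_ofPred_eq, Set.mem_empty_iff_false, iff_false]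
        rintro ⟨⟨_, h2⟩, h3⟩
        apply hjv
        rw [← h3, hf]
        exact Finset.mem_filter.2 ⟨hj, h2⟩
      rw [this]; exact fai_empty h
  rw [Finset.sum_congr rfl h1, Finset.sum_comm]
  have h2 : ∀ v ∈ (Finset.range k).powerset,
      ∑ j ∈ Finset.range k, (if j ∈ v then μ {n | n ∈ A ∧ f n = v} else 0)
        = v.card * μ {n | n ∈ A ∧ f n = v} := by
    intro v hv
    rw [← Finset.sum_filter, Finset.sum_const, nsmul_eq_mul]
    congr 3
    ext j
    rw [Finset.mem_filter]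
    exact ⟨fun h => h.2, fun h => ⟨Finset.mem_powerset.1 hv h, h⟩⟩
  rw [Finset.sum_congr rfl h2, fa_fiber h f _ hV, Finset.mul_sum]
  refine Finset.sum_le_sum fun v _ => ?_
  by_cases hx : x ≤ v.card
  · have hx' : (x : ℝ) ≤ v.card := by exact_mod_cast hx
    apply mul_le_mul hx' (fai_mono h _) (h.nonneg _) (Nat.cast_nonneg _)
    rintro n ⟨⟨h1, _⟩, h3⟩
    exact ⟨h1, h3⟩
  · have : {n | n ∈ {z | z ∈ A ∧ ∃ S ⊆ Finset.range k, x ≤ S.card ∧ ∀ j ∈ S, z ∈ B j} ∧
        f n = v} = ∅ := by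
      ext n
      simp only [Set.mem_ofPred_eq, Set.mem_empty_iff_false, iff_false]
      rintro ⟨⟨_, S, hS1, hS2, hS3⟩, h3⟩
      apply hx
      rw [← h3, hf]
      refine hS2.trans (Finset.card_le_card ?_)
      intro j hj
      exact Finset.mem_filter.2 ⟨hS1 hj, hS3 j hj⟩
    rw [this, fai_empty h, mul_zero]
    exact mul_nonneg (Nat.cast_nonneg _) (h.nonneg _)

end Pool.Agent.H24.T2
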