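import Mathlib
import Pool.Agent.H24.T2.Cell

/-!
Cubes of relations and the averaging lemma (project T2 on `MP_c59857_nt`).
-/

set_option autoImplicit false

open Finset Filter

namespace Pool.Agent.H24.T2

open Pool.Agent.H24.MR (lam FinAddInv)
open Pool.Agent.H59.MR

variable {μ : Set ℕ → ℝ}

theorem fa_lt_null (h : FinAddInv μ) (n : ℕ) : μ {z | z < n} = 0 := by
  rw [← fai_shift' h n {z | z < n}]
  have : {z : ℕ | z + n ∈ {z | z < n}} = ∅ := by
    ext z; simp
  rw [this]; exact fai_empty h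

theorem fa_shiftZ (h : FinAddInv μ) (s : ℤ) (A : Set ℕ) :
    μ {z : ℕ | 0 ≤ (z : ℤ) + s ∧ ((z : ℤ) + s).toNat ∈ A} = μ A := by
  rcases le_or_gt 0 s with hs | hs
  · obtain ⟨n, rfl⟩ := Int.eq_ofNat_of_zero_le hs
    rw [← fai_shift' h n A]
    congr 1
    ext z
    simp only [Set.mem_ofPred_eq]
    constructor
    · rintro ⟨_, h2⟩
      exact h2
    · intro h2
      exact ⟨by positivity, h2⟩
  · obtain ⟨n, hn⟩ := Int.eq_ofNat_of_zero_le (by omega : 0 ≤ -s)
    have hs' : s = -(n : ℤ) := by omega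
    subst hs'
    rw [← fai_shift' h n]
    congr 1
    ext z
    simp only [Set.mem_ofPred_eq]
    have e : ((z + n : ℕ) : ℤ) + -(n : ℤ) = z := by push_cast; ring
    rw [e]
    simp

/-- cancellation in pairs for the relations on a cube -/
theorem cube_prod {k : ℕ} (β : Fin (k + 1) → ℕ) (t : Fin k → ℤ) (Q : ℕ) (g z : ℤ) (A : ℤ → ℝ)
    (hA : ∀ n, A n = 1 ∨ A n = -1) :
    ∏ ω : Finset (Fin k), ∏ i : Fin (k + 1),
      A ((z - g * β 0 - Q * ∑ j ∈ ω, t j * β j.succ) + (g + Q * ∑ j ∈ ω, t j) * β i)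
      = ∏ ω : Finset (Fin k), A (z + Q * ∑ j ∈ ω, t j * ((β 0 : ℤ) - β j.succ)) := by
  classical
  simp_rw [Fin.prod_univ_succ]
  rw [Finset.prod_mul_distrib]
  have h1 : ∏ ω : Finset (Fin k), ∏ i : Fin k,
      A ((z - g * β 0 - Q * ∑ j ∈ ω, t j * β j.succ) + (g + Q * ∑ j ∈ ω, t j) * β i.succ) = 1 := by
    rw [Finset.prod_comm]
    apply Finset.prod_eq_one
    intro i _
    have hsq : ∀ n, A n * A n = 1 := by
      intro n
      rcases hA n with h | h <;> rw [h] <;> norm_num
    have key : ∀ ω : Finset (Fin k), i ∉ ω →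
        (z - g * β 0 - Q * ∑ j ∈ insert i ω, t j * β j.succ)
          + (g + Q * ∑ j ∈ insert i ω, t j) * β i.succ
        = (z - g * β 0 - Q * ∑ j ∈ ω, t j * β j.succ) + (g + Q * ∑ j ∈ ω, t j) * β i.succ := by
      intro ω hω
      rw [Finset.sum_insert hω, Finset.sum_insert hω]
      ring
    apply Finset.prod_involution (fun ω _ => if i ∈ ω then ω.erase i else insert i ω)
    · intro ω _
      by_cases hi : i ∈ ω
      · simp only [hi, if_true]
        have := key (ω.erase i) (Finset.notMem_erase i ω)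
        rw [Finset.insert_erase hi] at this
        rw [this]
        exact hsq _
      · simp only [hi, if_false]
        rw [key ω hi]
        exact hsq _
    · intro ω _ _
      by_cases hi : i ∈ ω
      · simp only [hi, if_true]
        intro he
        rw [← he] at hi
        exact Finset.notMem_erase i ω hi
      · simp only [hi, if_false]
        intro he
        apply hi
        rw [← he]
        exact Finset.mem_insert_self i ω
    · intro ω _
      by_cases hi : i ∈ ω
      · simp [hi]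
      · simp [hi]
    · intro ω _
      simp
  rw [h1, mul_one]
  refine Finset.prod_congr rfl fun ω _ => ?_
  congr 1
  have : ∑ j ∈ ω, t j * ((β 0 : ℤ) - β j.succ) = (∑ j ∈ ω, t j) * β 0 - ∑ j ∈ ω, t j * β j.succ := by
    rw [Finset.sum_mul, ← Finset.sum_sub_distrib]
    refine Finset.sum_congr rfl fun j _ => by ring
  rw [this]
  ring

/-- the averaging lemma -/
theorem exists_good {ι κ : Type*} (V : Finset ι) (M : Finset κ) (W : ι → ℝ) (wt : κ → ℝ)
    (x B : ι → κ → ℝ) (bad good : ι → κ → Prop) (δ η : ℝ) (hδ : 0 < δ) (hη : 0 < η)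
    (hW : ∀ v ∈ V, 0 ≤ W v) (hW1 : ∑ v ∈ V, W v = 1) (hwt : ∀ m ∈ M, 0 ≤ wt m)
    (hwt1 : ∑ m ∈ M, wt m = 1) (hx1 : ∀ v m, x v m ≤ 1) (hB : ∀ v m, 0 ≤ B v m)
    (h1 : ∀ m ∈ M, δ ≤ ∑ v ∈ V, W v * x v m) (h2 : ∀ m ∈ M, ∑ v ∈ V, B v m ≤ η)
    (h3 : ∀ v ∈ V, 0 < W v → ∀ S ⊆ M, (∀ m ∈ S, bad v m) → ∑ m ∈ S, wt m ≤ δ / 8)
    (hgood : ∀ v ∈ V, ∀ m ∈ M, 0 < W v → δ / 2 ≤ x v m → B v m ≤ 8 * η / δ * W v → ¬ bad v m →
      good v m) :
    ∃ V' ⊆ V, δ / 4 ≤ ∑ v ∈ V', W v ∧ ∀ v ∈ V', 0 < W v ∧ ∃ m ∈ M, good v m := by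
  classical
  refine ⟨V.filter (fun v => 0 < W v ∧ ∃ m ∈ M, good v m), Finset.filter_subset _ _, ?_, ?_⟩
  swap
  · intro v hv
    exact (Finset.mem_filter.1 hv).2
  set ind : ι → κ → ℝ := fun v m => if 0 < W v ∧ good v m then 1 else 0 with hind
  set indb : ι → κ → ℝ := fun v m => if bad v m then 1 else 0 with hindb
  have hpt : ∀ v ∈ V, ∀ m ∈ M, W v * x v m ≤ W v * ind v m + W v * (δ / 2) + δ / (8 * η) * B v m
      + W v * indb v m := by
    intro v hv m hm
    have i1 : 0 ≤ ind v m := by simp only [hind]; split_ifs <;> norm_num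
    have i2 : 0 ≤ indb v m := by simp only [hindb]; split_ifs <;> norm_num
    have w0 := hW v hv
    have b0 : 0 ≤ δ / (8 * η) * B v m := mul_nonneg (by positivity) (hB v m)
    have t1 : 0 ≤ W v * ind v m := mul_nonneg w0 i1
    have t2 : 0 ≤ W v * (δ / 2) := by positivity
    have t3 : 0 ≤ W v * indb v m := mul_nonneg w0 i2
    have t4 : W v * x v m ≤ W v := by
      have := mul_le_mul_of_nonneg_left (hx1 v m) w0
      linarith
    rcases w0.eq_or_lt with hz | hpos
    · rw [← hz] at *
      linarith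
    by_cases hx : δ / 2 ≤ x v m
    · by_cases hb : B v m ≤ 8 * η / δ * W v
      · by_cases hbad : bad v m
        · have : indb v m = 1 := by simp [hindb, hbad]
          rw [this] at *
          linarith
        · have hg := hgood v hv m hm hpos hx hb hbad
          have : ind v m = 1 := by simp [hind, hpos, hg]
          rw [this] at *
          linarith
      · push Not at hb
        have : W v ≤ δ / (8 * η) * B v m := by
          have h5 := mul_le_mul_of_nonneg_left hb.le (by positivity : 0 ≤ δ / (8 * η))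
          calc W v = δ / (8 * η) * (8 * η / δ * W v) := by field_simp
            _ ≤ _ := h5
        linarith
    · push Not at hx
      have := mul_le_mul_of_nonneg_left hx.le w0
      linarith
  have hsum : δ ≤ ∑ m ∈ M, wt m * ∑ v ∈ V, W v * x v m := by
    calc δ = ∑ m ∈ M, wt m * δ := by rw [← Finset.sum_mul, hwt1, one_mul]
      _ ≤ _ := by
        refine Finset.sum_le_sum fun m hm => ?_
        exact mul_le_mul_of_nonneg_left (h1 m hm) (hwt m hm)
  have hub : ∑ m ∈ M, wt m * ∑ v ∈ V, W v * x v m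
      ≤ ∑ m ∈ M, wt m * ∑ v ∈ V, W v * ind v m + δ / 2 + δ / 8 + δ / 8 := by
    have e1 : ∑ m ∈ M, wt m * ∑ v ∈ V, W v * x v m ≤
        ∑ m ∈ M, wt m * (∑ v ∈ V, (W v * ind v m + W v * (δ / 2) + δ / (8 * η) * B v m
          + W v * indb v m)) := by
      refine Finset.sum_le_sum fun m hm => ?_
      refine mul_le_mul_of_nonneg_left ?_ (hwt m hm)
      exact Finset.sum_le_sum fun v hv => hpt v hv m hm
    refine e1.trans ?_
    have e2 : ∀ m ∈ M, wt m * (∑ v ∈ V, (W v * ind v m + W v * (δ / 2) + δ / (8 * η) * B v m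
          + W v * indb v m)) ≤ wt m * ∑ v ∈ V, W v * ind v m + wt m * (δ / 2) + wt m * (δ / 8)
          + wt m * ∑ v ∈ V, W v * indb v m := by
      intro m hm
      rw [Finset.sum_add_distrib, Finset.sum_add_distrib, Finset.sum_add_distrib,
        ← Finset.sum_mul, hW1, ← Finset.mul_sum]
      have h5 : δ / (8 * η) * ∑ v ∈ V, B v m ≤ δ / 8 := by
        calc _ ≤ δ / (8 * η) * η := by
              gcongr
              exact h2 m hm
          _ = δ / 8 := by field_simp
      have h6 := mul_le_mul_of_nonneg_left h5 (hwt m hm)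
      nlinarith
    refine (Finset.sum_le_sum e2).trans ?_
    rw [Finset.sum_add_distrib, Finset.sum_add_distrib, Finset.sum_add_distrib, ← Finset.sum_mul,
      ← Finset.sum_mul, hwt1, one_mul, one_mul]
    have e3 : ∑ m ∈ M, wt m * ∑ v ∈ V, W v * indb v m ≤ δ / 8 := by
      simp_rw [Finset.mul_sum]
      rw [Finset.sum_comm]
      calc _ ≤ ∑ v ∈ V, W v * (δ / 8) := by
            refine Finset.sum_le_sum fun v hv => ?_
            have e4 : ∑ m ∈ M, wt m * (W v * indb v m) = W v * ∑ m ∈ M.filter (bad v), wt m := by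
              rw [Finset.mul_sum, Finset.sum_filter]
              refine Finset.sum_congr rfl fun m _ => ?_
              simp only [hindb]
              split_ifs <;> ring
            rw [e4]
            rcases (hW v hv).eq_or_lt with hz | hpos
            · rw [← hz]; simp
            · refine mul_le_mul_of_nonneg_left ?_ hpos.le
              exact h3 v hv hpos _ (Finset.filter_subset _ _)
                (fun m hm => (Finset.mem_filter.1 hm).2)
        _ = δ / 8 := by rw [← Finset.sum_mul, hW1, one_mul]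
    linarith
  have hmain : δ / 4 ≤ ∑ m ∈ M, wt m * ∑ v ∈ V, W v * ind v m := by linarith
  refine hmain.trans ?_
  have e5 : ∀ m ∈ M, wt m * ∑ v ∈ V, W v * ind v m
      ≤ wt m * ∑ v ∈ V.filter (fun v => 0 < W v ∧ ∃ m ∈ M, good v m), W v := by
    intro m hm
    refine mul_le_mul_of_nonneg_left ?_ (hwt m hm)
    rw [Finset.sum_filter]
    refine Finset.sum_le_sum fun v hv => ?_
    simp only [hind]
    by_cases hg : 0 < W v ∧ good v m
    · rw [if_pos hg, if_pos ⟨hg.1, m, hm, hg.2⟩, mul_one]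
    · rw [if_neg hg, mul_zero]
      split_ifs
      · exact hW v hv
      · exact le_rfl
  refine (Finset.sum_le_sum e5).trans (le_of_eq ?_)
  rw [← Finset.sum_mul, hwt1, one_mul]

end Pool.Agent.H24.T2
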