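import Mathlib
import Pool.Agent.H24.T2.Cube
import Pool.Agent.H59.MR.Cov

/-!
[COVK], abstract covering step in several dimensions (project T2 on `MP_c59857_nt`).
-/

set_option autoImplicit false

open Finset Filter

namespace Pool.Agent.H24.T2

open Pool.Agent.H24.MR (lam FinAddInv)
open Pool.Agent.H59.MR

/-- a defect function: nonnegative, subadditive in each coordinate, zero if a coordinate is zero -/
structure Defect {k : ℕ} (d : (Fin k → ℤ) → ℝ) : Prop where
  nonneg : ∀ t, 0 ≤ d t
  diff : ∀ (t : Fin k → ℤ) (i : Fin k) (a b : ℤ),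
    d (Function.update t i (a - b)) ≤ d (Function.update t i a) + d (Function.update t i b)
  zero : ∀ (t : Fin k → ℤ) (i : Fin k), d (Function.update t i 0) = 0

theorem Defect.mul_le {k : ℕ} {d : (Fin k → ℤ) → ℝ} (h : Defect d) (t : Fin k → ℤ) (i : Fin k)
    (s : ℤ) (n : ℕ) :
    d (Function.update t i (n * s)) ≤ n * d (Function.update t i s) := by
  have hneg : d (Function.update t i (-s)) ≤ d (Function.update t i s) := by
    have := h.diff t i 0 s
    rw [h.zero, zero_add, zero_sub] at this
    exact this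
  induction n with
  | zero => simp [h.zero]
  | succ n ih =>
    have h1 := h.diff t i (n * s) (-s)
    have e : (n : ℤ) * s - -s = ((n + 1 : ℕ) : ℤ) * s := by push_cast; ring
    rw [e] at h1
    push_cast at h1 ⊢
    linarith

/-- one dimensional covering -/
theorem cover_one (c : ℝ) (hc : 0 < c) : ∃ J R : ℕ, 0 < J ∧ 0 < R ∧
    ∀ (k : ℕ) (d : (Fin k → ℤ) → ℝ), Defect d → ∀ (t : Fin k → ℤ) (i : Fin k) (T : ℕ) (δ : ℝ)
      (A : Finset ℤ), 0 < T → 0 ≤ δ → (∀ a ∈ A, |a| ≤ (T : ℤ)) → c * T ≤ A.card →
      (∀ a ∈ A, d (Function.update t i a) ≤ δ) →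
      ∀ y : ℤ, |y| * J ≤ T → d (Function.update t i (R * y)) ≤ 2 * R * δ := by
  obtain ⟨J, hJ⟩ := exists_nat_gt (4 / c)
  have hJpos : 0 < J := by
    rcases Nat.eq_zero_or_pos J with h | h
    · rw [h] at hJ
      have : 0 < 4 / c := by positivity
      simp at hJ
      linarith
    · exact h
  refine ⟨J, J.factorial, hJpos, Nat.factorial_pos J, ?_⟩
  intro k d hd t i T δ A hT hδ hA hcard hdA y hy
  -- positive `y`
  have pos : ∀ y : ℕ, 0 < y → y * J ≤ T → d (Function.update t i (J.factorial * (y : ℤ))) ≤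
      2 * J.factorial * δ := by
    intro y hy0 hyT
    have h4 : 4 < ((J : ℝ) + 1) * c := by
      rw [div_lt_iff₀ hc] at hJ
      nlinarith
    obtain ⟨m, hm1, hm2, e, he, e', he', hee⟩ := exists_diff (D := A) (Q := 1) (T := T) (J := J)
      (y := y) (c₁ := c) one_pos hT (fun a ha => by
        have := abs_le.1 (hA a ha)
        exact ⟨one_dvd _, this.1, this.2⟩) (by simpa using hcard) h4 hy0
      (by rw [mul_one, mul_comm]; exact hyT)
    have h1 : d (Function.update t i ((m : ℤ) * y)) ≤ 2 * δ := by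
      have h2 := hd.diff t i e e'
      rw [hee] at h2
      have h3 := hdA e he
      have h5 := hdA e' he'
      have e1 : (m : ℤ) * ((1 : ℕ) : ℤ) * y = m * y := by push_cast; ring
      rw [e1] at h2
      linarith
    obtain ⟨q, hq⟩ := Nat.dvd_factorial hm1 hm2
    have h2 := hd.mul_le t i ((m : ℤ) * y) q
    have e2 : (q : ℤ) * ((m : ℤ) * y) = (J.factorial : ℤ) * y := by
      rw [hq]; push_cast; ring
    rw [e2] at h2
    have hqJ : (q : ℝ) ≤ J.factorial := by
      have : q ≤ J.factorial := by rw [hq]; exact Nat.le_mul_of_pos_left _ hm1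
      exact_mod_cast this
    calc _ ≤ (q : ℝ) * d (Function.update t i ((m : ℤ) * y)) := h2
      _ ≤ (J.factorial : ℝ) * (2 * δ) := by
          apply mul_le_mul hqJ h1 (hd.nonneg _) (by positivity)
      _ = _ := by ring
  rcases lt_trichotomy y 0 with hy0 | hy0 | hy0
  · have h1 := pos (-y).toNat (by omega) (by
      have e1 : (((-y).toNat : ℕ) : ℤ) = |y| := by
        rw [Int.toNat_of_nonneg (by omega), abs_of_neg hy0]
      have : (((-y).toNat * J : ℕ) : ℤ) ≤ T := by
        rw [Nat.cast_mul, e1]; exact hy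
      exact_mod_cast this)
    have e1 : (((-y).toNat : ℕ) : ℤ) = -y := Int.toNat_of_nonneg (by omega)
    rw [e1] at h1
    have h2 := hd.diff t i 0 (J.factorial * -y)
    rw [hd.zero, zero_add] at h2
    have e3 : (0 : ℤ) - J.factorial * -y = J.factorial * y := by ring
    rw [e3] at h2
    exact h2.trans h1
  · rw [hy0, mul_zero, hd.zero]; positivity
  · have h1 := pos y.toNat (by omega) (by
      have e1 : ((y.toNat : ℕ) : ℤ) = |y| := by
        rw [Int.toNat_of_nonneg (by omega), abs_of_pos hy0]
      have : ((y.toNat * J : ℕ) : ℤ) ≤ T := by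
        rw [Nat.cast_mul, e1]; exact hy
      exact_mod_cast this)
    have e1 : ((y.toNat : ℕ) : ℤ) = y := Int.toNat_of_nonneg (by omega)
    rw [e1] at h1
    exact h1

theorem Defect.tail {k : ℕ} {d : (Fin (k + 1) → ℤ) → ℝ} (h : Defect d) (a : ℤ) :
    Defect (fun t : Fin k → ℤ => d (Fin.cons a t)) where
  nonneg t := h.nonneg _
  diff t i x y := by
    have := h.diff (Fin.cons a t) i.succ x y
    simpa only [Fin.cons_update] using this
  zero t i := by
    have := h.zero (Fin.cons a t) i.succ
    simpa only [Fin.cons_update] using this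

/-- covering in dimension `k` -/
theorem cover_k (k : ℕ) : ∀ (c : ℝ), 0 < c → ∃ (J R : ℕ) (C : ℝ), 0 < J ∧ 0 < R ∧ 0 < C ∧
    ∀ (d : (Fin k → ℤ) → ℝ), Defect d → ∀ (T : ℕ) (δ : ℝ) (D : Finset (Fin k → ℤ)), 0 ≤ δ →
      (∀ t ∈ D, ∀ i, |t i| ≤ (T : ℤ)) → c * (T : ℝ) ^ k ≤ D.card → (∀ t ∈ D, d t ≤ δ) →
      ∀ y : Fin k → ℤ, (∀ i, |y i| * J ≤ T) → d (fun i => R * y i) ≤ C * δ := by
  classical
  induction k with
  | zero =>
    intro c hc
    refine ⟨1, 1, 1, one_pos, one_pos, one_pos, ?_⟩
    intro d hd T δ D hδ hD hcard hdD y hy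
    rw [pow_zero, mul_one] at hcard
    have : 0 < D.card := by
      have : (0 : ℝ) < D.card := lt_of_lt_of_le hc hcard
      exact_mod_cast this
    obtain ⟨t, ht⟩ := Finset.card_pos.1 this
    have e : (fun i => ((1 : ℕ) : ℤ) * y i) = t := Subsingleton.elim _ _
    rw [e, one_mul]
    exact hdD t ht
  | succ k ih =>
    intro c hc
    set c' : ℝ := c / (2 * 3 ^ k) with hc'
    have hc'0 : 0 < c' := by positivity
    obtain ⟨J₁, R₁, hJ₁, hR₁, h1⟩ := cover_one c' hc'0
    obtain ⟨J₂, R₂, C₂, hJ₂, hR₂, hC₂, h2⟩ := ih (c / 6) (by positivity)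
    refine ⟨R₂ * J₁ + R₁ * J₂, R₁ * R₂, C₂ * (2 * R₁), by positivity, by positivity,
      by positivity, ?_⟩
    intro d hd T δ D hδ hD hcard hdD y hy
    rcases Nat.eq_zero_or_pos T with hT0 | hT
    · -- everything is zero
      have hy0 : ∀ i, y i = 0 := by
        intro i
        have h3 := hy i
        rw [hT0] at h3
        have hp : (0 : ℤ) < ((R₂ * J₁ + R₁ * J₂ : ℕ) : ℤ) := by
          have : 0 < R₂ * J₁ + R₁ * J₂ := by positivity
          exact_mod_cast this
        have : |y i| ≤ 0 := by
          by_contra hcon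
          push Not at hcon
          have := mul_pos hcon hp
          push_cast at this h3
          linarith
        exact abs_eq_zero.1 (le_antisymm this (abs_nonneg _))
      have e : (fun i => ((R₁ * R₂ : ℕ) : ℤ) * y i)
          = Function.update (fun i => ((R₁ * R₂ : ℕ) : ℤ) * y i) 0 0 := by
        funext i
        by_cases hi : i = 0
        · subst hi; simp [hy0]
        · rw [Function.update_of_ne hi]
      rw [e, hd.zero]
      positivity
    have hTR : (1 : ℝ) ≤ T := by exact_mod_cast hT
    have hT0R : (0 : ℝ) < T := by linarith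
    -- fibres
    set D' : Finset (Fin k → ℤ) := D.image Fin.tail with hD'
    set Af : (Fin k → ℤ) → Finset ℤ := fun t' => (D.filter (fun t => Fin.tail t = t')).image
      (fun t => t 0) with hAf
    have hAfm : ∀ t' a, a ∈ Af t' ↔ Fin.cons a t' ∈ D := by
      intro t' a
      simp only [hAf, Finset.mem_image, Finset.mem_filter]
      constructor
      · rintro ⟨t, ⟨ht, htt⟩, hta⟩
        rw [← htt, ← hta, Fin.cons_self_tail]
        exact ht
      · intro h
        refine ⟨Fin.cons a t', ⟨h, ?_⟩, ?_⟩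
        · simp
        · simp
    have hAfc : ∀ t', (D.filter (fun t => Fin.tail t = t')).card = (Af t').card := by
      intro t'
      rw [hAf]
      rw [Finset.card_image_of_injOn]
      intro t ht s hs hts
      have h3 := (Finset.mem_filter.1 ht).2
      have h4 := (Finset.mem_filter.1 hs).2
      rw [← Fin.cons_self_tail t, ← Fin.cons_self_tail s, h3, h4]
      simp only at hts
      rw [hts]
    have hsumc : D.card = ∑ t' ∈ D', (Af t').card := by
      rw [Finset.card_eq_sum_card_image Fin.tail D]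
      refine Finset.sum_congr rfl fun t' _ => hAfc t'
    have hAfle : ∀ t', ((Af t').card : ℝ) ≤ 3 * T := by
      intro t'
      have hsub : Af t' ⊆ Finset.Icc (-(T : ℤ)) T := by
        intro a ha
        rw [hAfm] at ha
        have := hD _ ha 0
        rw [Fin.cons_zero] at this
        rw [Finset.mem_Icc]
        exact abs_le.1 this
      have h3 := Finset.card_le_card hsub
      rw [Int.card_Icc] at h3
      have h4 : (Af t').card ≤ 3 * T := by omega
      exact_mod_cast h4
    have hD'le : (D'.card : ℝ) ≤ (3 * T) ^ k := by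
      have hsub : D' ⊆ Fintype.piFinset (fun _ : Fin k => Finset.Icc (-(T : ℤ)) T) := by
        intro t' ht'
        obtain ⟨t, ht, rfl⟩ := Finset.mem_image.1 ht'
        rw [Fintype.mem_piFinset]
        intro i
        rw [Finset.mem_Icc]
        exact abs_le.1 (hD t ht i.succ)
      have h3 := Finset.card_le_card hsub
      rw [Fintype.card_piFinset_const, Int.card_Icc] at h3
      have h4 : ((T : ℤ) + 1 - -(T : ℤ)).toNat ≤ 3 * T := by omega
      have h5 : D'.card ≤ (3 * T) ^ k := h3.trans (Nat.pow_le_pow_left h4 k)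
      exact_mod_cast h5
    set Good := D'.filter (fun t' => c' * T ≤ ((Af t').card : ℝ)) with hGood
    have hGoodc : c / 6 * (T : ℝ) ^ k ≤ Good.card := by
      have h3 : (D.card : ℝ) ≤ Good.card * (3 * T) + D'.card * (c' * T) := by
        rw [hsumc]
        push_cast
        rw [← Finset.sum_filter_add_sum_filter_not D' (fun t' => c' * T ≤ ((Af t').card : ℝ))]
        have h4 : ∑ t' ∈ Good, ((Af t').card : ℝ) ≤ Good.card * (3 * T) := by
          rw [← nsmul_eq_mul]
          exact Finset.sum_le_card_nsmul _ _ _ (fun t' _ => hAfle t')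
        have h5 : ∑ t' ∈ D'.filter (fun t' => ¬ c' * T ≤ ((Af t').card : ℝ)), ((Af t').card : ℝ)
            ≤ D'.card * (c' * T) := by
          calc _ ≤ ((D'.filter (fun t' => ¬ c' * T ≤ ((Af t').card : ℝ))).card : ℝ) * (c' * T) := by
                rw [← nsmul_eq_mul]
                refine Finset.sum_le_card_nsmul _ _ _ (fun t' ht' => ?_)
                exact (not_le.1 (Finset.mem_filter.1 ht').2).le
            _ ≤ _ := by
                gcongr
                exact Finset.filter_subset _ _
        linarith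
      have h6 : (D'.card : ℝ) * (c' * T) ≤ c / 2 * (T : ℝ) ^ (k + 1) := by
        calc _ ≤ (3 * (T : ℝ)) ^ k * (c' * T) := by gcongr
          _ = _ := by rw [hc', mul_pow, pow_succ]; field_simp
      have h7 : c * (T : ℝ) ^ (k + 1) ≤ Good.card * (3 * T) + c / 2 * (T : ℝ) ^ (k + 1) := by
        linarith
      have h8 : c / 2 * (T : ℝ) ^ (k + 1) ≤ Good.card * (3 * T) := by linarith
      rw [pow_succ] at h8
      have h9 : c / 6 * (T : ℝ) ^ k * (3 * T) ≤ Good.card * (3 * T) := by
        refine le_trans (le_of_eq ?_) h8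
        ring
      exact le_of_mul_le_mul_right h9 (by positivity)
    -- first coordinate
    have hfirst : ∀ t' ∈ Good, ∀ y₀ : ℤ, |y₀| * J₁ ≤ T →
        d (Fin.cons (R₁ * y₀) t') ≤ 2 * R₁ * δ := by
      intro t' ht' y₀ hy₀
      have h3 := h1 (k + 1) d hd (Fin.cons 0 t') 0 T δ (Af t') hT hδ (fun a ha => by
        rw [hAfm] at ha
        have := hD _ ha 0
        rwa [Fin.cons_zero] at this) (Finset.mem_filter.1 ht').2 (fun a ha => by
        rw [hAfm] at ha
        rw [Fin.update_cons_zero]
        exact hdD _ ha) y₀ hy₀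
      rwa [Fin.update_cons_zero] at h3
    -- the other coordinates
    have hR₂' : (0 : ℤ) < R₂ := by exact_mod_cast hR₂
    have hR₁' : (0 : ℤ) < R₁ := by exact_mod_cast hR₁
    have hbound : ∀ i, |y i| * ((R₂ : ℤ) * J₁) ≤ T ∧ |y i| * ((R₁ : ℤ) * J₂) ≤ T := by
      intro i
      have h3 := hy i
      push_cast at h3
      have h4 := abs_nonneg (y i)
      have h5 : 0 ≤ |y i| * ((R₂ : ℤ) * J₁) := by positivity
      have h6 : 0 ≤ |y i| * ((R₁ : ℤ) * J₂) := by positivity
      constructor <;> nlinarith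
    have h3 := h2 (fun t' => d (Fin.cons (R₁ * (R₂ * y 0)) t')) (hd.tail _) T (2 * R₁ * δ) Good
      (by positivity) (fun t' ht' i => by
        obtain ⟨t, ht, rfl⟩ := Finset.mem_image.1 (Finset.mem_filter.1 ht').1
        exact hD t ht i.succ) hGoodc (fun t' ht' => by
        apply hfirst t' ht'
        have := (hbound 0).1
        rw [abs_mul, abs_of_pos hR₂']
        linarith [mul_comm (R₂ : ℤ) (|y 0|), mul_assoc (|y 0|) (R₂ : ℤ) J₁]) (fun i => R₁ * y i.succ)
      (fun i => by
        have := (hbound i.succ).2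
        rw [abs_mul, abs_of_pos hR₁']
        linarith [mul_comm (R₁ : ℤ) (|y i.succ|), mul_assoc (|y i.succ|) (R₁ : ℤ) J₂])
    have e : (fun i => ((R₁ * R₂ : ℕ) : ℤ) * y i) =
        Fin.cons (R₁ * (R₂ * y 0)) (fun i : Fin k => (R₂ : ℤ) * (R₁ * y i.succ)) := by
      funext i
      refine Fin.cases ?_ (fun i => ?_) i
      · rw [Fin.cons_zero]; push_cast; ring
      · rw [Fin.cons_succ]; push_cast; ring
    rw [e]
    refine h3.trans (le_of_eq ?_)
    ring

end Pool.Agent.H24.T2
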