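import Mathlib
import Pool.Agent.H24.T2.CovAbs

/-!
[COVK]: the covering step in dimension `k` (project T2 on `MP_c59857_nt`).
-/

set_option autoImplicit false

open Finset Filter

namespace Pool.Agent.H24.T2

open Pool.Agent.H24.MR (lam FinAddInv)
open Pool.Agent.H59.MR

/-- product over the subsets of `s` -/
def PP {k : ℕ} (A : ℤ → ℝ) (s : Finset (Fin k)) (u : Fin k → ℤ) (z : ℤ) : ℝ :=
  ∏ ω ∈ s.powerset, A (z + ∑ j ∈ ω, u j)

theorem PP_insert {k : ℕ} (A : ℤ → ℝ) (s : Finset (Fin k)) (i : Fin k) (hi : i ∉ s)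
    (u : Fin k → ℤ) (z : ℤ) :
    PP A (insert i s) u z = PP A s u z * PP A s u (z + u i) := by
  unfold PP
  rw [Finset.prod_powerset_insert hi]
  congr 1
  refine Finset.prod_congr rfl fun ω hω => ?_
  rw [Finset.sum_insert (fun h => hi (Finset.mem_powerset.1 hω h)), add_assoc]

theorem PP_congr {k : ℕ} (A : ℤ → ℝ) (s : Finset (Fin k)) (u v : Fin k → ℤ)
    (h : ∀ j ∈ s, u j = v j) (z : ℤ) : PP A s u z = PP A s v z := by
  unfold PP
  refine Finset.prod_congr rfl fun ω hω => ?_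
  rw [Finset.sum_congr rfl fun j hj => h j (Finset.mem_powerset.1 hω hj)]

theorem PP_pm {k : ℕ} (A : ℤ → ℝ) (hA : ∀ n, A n = 1 ∨ A n = -1) (s : Finset (Fin k))
    (u : Fin k → ℤ) (z : ℤ) : PP A s u z = 1 ∨ PP A s u z = -1 := by
  unfold PP
  apply Finset.prod_induction _ (fun x : ℝ => x = 1 ∨ x = -1)
  · rintro x y (rfl | rfl) (rfl | rfl) <;> norm_num
  · left; rfl
  · intro ω _; exact hA _

theorem PP_diff {k : ℕ} (A : ℤ → ℝ) (hA : ∀ n, A n = 1 ∨ A n = -1) (u : Fin k → ℤ) (i : Fin k)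
    (a b z : ℤ) :
    PP A univ (Function.update u i (a - b)) (z + b) =
      PP A univ (Function.update u i a) z * PP A univ (Function.update u i b) z := by
  have e : (univ : Finset (Fin k)) = insert i (univ.erase i) :=
    (Finset.insert_erase (mem_univ i)).symm
  rw [e]
  simp only [PP_insert _ _ i (Finset.notMem_erase i _), Function.update_self]
  have c : ∀ x z, PP A (univ.erase i) (Function.update u i x) z = PP A (univ.erase i) u z := by
    intro x z
    apply PP_congr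
    intro j hj
    rw [Function.update_of_ne (Finset.ne_of_mem_erase hj)]
  simp only [c]
  have e1 : z + b + (a - b) = z + a := by ring
  rw [e1]
  rcases PP_pm A hA (univ.erase i) u z with h | h <;> rw [h] <;> ring

theorem PP_zero {k : ℕ} (A : ℤ → ℝ) (hA : ∀ n, A n = 1 ∨ A n = -1) (u : Fin k → ℤ) (i : Fin k)
    (hu : u i = 0) (z : ℤ) : PP A univ u z = 1 := by
  have e : (univ : Finset (Fin k)) = insert i (univ.erase i) :=
    (Finset.insert_erase (mem_univ i)).symm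
  rw [e, PP_insert _ _ i (Finset.notMem_erase i _), hu, add_zero]
  rcases PP_pm A hA (univ.erase i) u z with h | h <;> rw [h] <;> norm_num

/-- the multiplicative derivative -/
def EE (S : ℤ) (f : ℤ → ℝ) : ℤ → ℝ := fun z => f z * f (z + S)

theorem EE_pm (S : ℤ) (f : ℤ → ℝ) (hf : ∀ n, f n = 1 ∨ f n = -1) (n : ℤ) :
    EE S f n = 1 ∨ EE S f n = -1 := by
  unfold EE
  rcases hf n with h | h <;> rcases hf (n + S) with h' | h' <;> rw [h, h'] <;> norm_num

theorem EE_iter_pm (S : ℤ) (m : ℕ) : ∀ (f : ℤ → ℝ), (∀ n, f n = 1 ∨ f n = -1) → ∀ n : ℤ,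
    (EE S)^[m] f n = 1 ∨ (EE S)^[m] f n = -1 := by
  induction m with
  | zero => intro f hf n; exact hf n
  | succ m ih =>
    intro f hf n
    rw [Function.iterate_succ_apply]
    exact ih _ (EE_pm S f hf) n

theorem EE_two_pow (S : ℤ) (e : ℕ) : ∀ (f : ℤ → ℝ), (∀ n, f n = 1 ∨ f n = -1) →
    (EE S)^[2 ^ e] f = EE (2 ^ e * S) f := by
  induction e with
  | zero => intro f hf; simp
  | succ e ih =>
    intro f hf
    rw [show 2 ^ (e + 1) = 2 ^ e + 2 ^ e by ring, Function.iterate_add_apply, ih f hf,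
      ih _ (EE_pm _ f hf)]
    funext z
    unfold EE
    have e1 : z + 2 ^ e * S + 2 ^ e * S = z + 2 ^ (e + 1) * S := by ring
    rw [e1]
    rcases hf (z + 2 ^ e * S) with h | h <;> rw [h] <;> ring

theorem PP_diag {k : ℕ} (A : ℤ → ℝ) (u : Fin k → ℤ) (S : ℤ) (hu : ∀ i, u i = S)
    (s : Finset (Fin k)) : ∀ z, PP A s u z = (EE S)^[s.card] A z := by
  classical
  induction s using Finset.induction_on with
  | empty => intro z; simp [PP]
  | insert i s hi ih =>
    intro z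
    rw [PP_insert A s i hi, Finset.card_insert_of_notMem hi, Function.iterate_succ_apply', ih, ih,
      hu]
    rfl

section

variable {ν : Set ℕ → ℝ}

/-- defect of `f` from being `1` along the class -/
theorem shift_class (hν : FinAddInv ν) (Q c' : ℕ) (b : ℤ) (hb : (Q : ℤ) ∣ b) (F : ℤ → Prop) :
    ν {z : ℕ | z ≡ c' [MOD Q] ∧ F z} = ν {z : ℕ | 0 ≤ (z : ℤ) + b ∧ z ≡ c' [MOD Q] ∧
      F ((z : ℤ) + b)} := by
  rw [← fa_shiftZ hν b {z : ℕ | z ≡ c' [MOD Q] ∧ F z}]
  congr 1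
  ext z
  simp only [Set.mem_ofPred_eq]
  constructor
  · rintro ⟨h1, h2, h3⟩
    refine ⟨h1, ?_, ?_⟩
    · rw [← Int.natCast_modEq_iff, Int.toNat_of_nonneg h1] at h2
      rw [← Int.natCast_modEq_iff]
      have : (z : ℤ) + b ≡ z + 0 [ZMOD Q] := Int.ModEq.add_left _ ((Int.modEq_zero_iff_dvd).2 hb)
      rw [add_zero] at this
      exact this.symm.trans h2
    · rwa [Int.toNat_of_nonneg h1] at h3
  · rintro ⟨h1, h2, h3⟩
    refine ⟨h1, ?_, ?_⟩
    · rw [← Int.natCast_modEq_iff] at h2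
      rw [← Int.natCast_modEq_iff, Int.toNat_of_nonneg h1]
      have : (z : ℤ) + b ≡ z + 0 [ZMOD Q] := Int.ModEq.add_left _ ((Int.modEq_zero_iff_dvd).2 hb)
      rw [add_zero] at this
      exact this.trans h2
    · rwa [Int.toNat_of_nonneg h1]

theorem EE_defect (hν : FinAddInv ν) (Q c' : ℕ) (S : ℤ) (hS : (Q : ℤ) ∣ S) (f : ℤ → ℝ)
    (τ : ℝ) (hτ : τ = 1 ∨ τ = -1) (x : ℝ) (h : ν {z : ℕ | z ≡ c' [MOD Q] ∧ f z ≠ τ} ≤ x) :
    ν {z : ℕ | z ≡ c' [MOD Q] ∧ EE S f z ≠ 1} ≤ 2 * x := by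
  have h2 := shift_class hν Q c' S hS (fun z => f z ≠ τ)
  have h3 : ν {z : ℕ | z ≡ c' [MOD Q] ∧ EE S f z ≠ 1} ≤
      ν ({z : ℕ | z ≡ c' [MOD Q] ∧ f z ≠ τ} ∪ ({z : ℕ | 0 ≤ (z : ℤ) + S ∧ z ≡ c' [MOD Q] ∧
      f ((z : ℤ) + S) ≠ τ} ∪ {z : ℕ | z < (-S).toNat})) := by
    apply fai_mono hν
    rintro z ⟨h4, h5⟩
    by_cases h6 : f z = τ
    · right
      by_cases h7 : z < (-S).toNat
      · right; exact h7
      · left
        refine ⟨by omega, h4, ?_⟩
        intro h8
        apply h5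
        unfold EE
        rw [h6, h8]
        rcases hτ with h | h <;> rw [h] <;> norm_num
    · left
      exact ⟨h4, h6⟩
  have h4 := fai_union_le hν {z : ℕ | z ≡ c' [MOD Q] ∧ f z ≠ τ} ({z : ℕ | 0 ≤ (z : ℤ) + S ∧ z ≡ c' [MOD Q] ∧
      f ((z : ℤ) + S) ≠ τ} ∪ {z : ℕ | z < (-S).toNat})
  have h5 := fai_union_le hν {z : ℕ | 0 ≤ (z : ℤ) + S ∧ z ≡ c' [MOD Q] ∧
      f ((z : ℤ) + S) ≠ τ} {z : ℕ | z < (-S).toNat}
  rw [fa_lt_null hν] at h5
  rw [h2] at h
  rw [← h2] at h5 h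
  linarith

theorem covk : StatementCOVK := by
  classical
  intro k c₁ hc₁
  obtain ⟨J, R, C, hJ, hR, hC, hcov⟩ := cover_k k c₁ hc₁
  refine ⟨2 ^ (2 ^ k) * C, by positivity, ?_⟩
  intro γ hγ
  set G : ℕ := ∏ i, (γ i).natAbs with hG
  have hG0 : 0 < G := Finset.prod_pos fun i _ => Int.natAbs_pos.2 (hγ i)
  refine ⟨2 ^ k * R * G, G * J, by positivity, by positivity, ?_⟩
  intro ν hν a ha Q c' T δ D hQ hδ hDT hDc hD h hh
  set A : ℤ → ℝ := fun n => a n.toNat with hA
  have hApm : ∀ n, A n = 1 ∨ A n = -1 := fun n => ha _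
  have hQR : (0 : ℝ) < Q := by exact_mod_cast hQ
  set U : (Fin k → ℤ) → (Fin k → ℤ) := fun t j => Q * (t j * γ j) with hU
  have hUP : ∀ t : Fin k → ℤ, ∀ z : ℕ, (∏ ω : Finset (Fin k),
      a (((z : ℤ) + Q * ∑ j ∈ ω, t j * γ j).toNat)) = PP A univ (U t) z := by
    intro t z
    unfold PP
    rw [Finset.powerset_univ]
    refine Finset.prod_congr rfl fun ω _ => ?_
    rw [hA]
    simp only [hU, Finset.mul_sum]
  set d : (Fin k → ℤ) → ℝ := fun t =>
    Q * min (ν {z : ℕ | z ≡ c' [MOD Q] ∧ PP A univ (U t) z ≠ 1})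
      (ν {z : ℕ | z ≡ c' [MOD Q] ∧ PP A univ (U t) z ≠ -1}) with hd
  have hUu : ∀ (t : Fin k → ℤ) (i : Fin k) (x : ℤ),
      U (Function.update t i x) = Function.update (U t) i (Q * (x * γ i)) := by
    intro t i x
    funext j
    by_cases hj : j = i
    · subst hj; simp [hU]
    · simp [hU, Function.update_of_ne hj]
  have hdef : Defect d := by
    refine ⟨?_, ?_, ?_⟩
    · intro t
      exact mul_nonneg hQR.le (le_min (hν.nonneg _) (hν.nonneg _))
    · intro t i x y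
      -- key inequality
      have key : ∀ τ τ' : ℝ, (τ = 1 ∨ τ = -1) → (τ' = 1 ∨ τ' = -1) →
          ν {z : ℕ | z ≡ c' [MOD Q] ∧ PP A univ (U (Function.update t i (x - y))) z ≠ τ * τ'} ≤
          ν {z : ℕ | z ≡ c' [MOD Q] ∧ PP A univ (U (Function.update t i x)) z ≠ τ} +
          ν {z : ℕ | z ≡ c' [MOD Q] ∧ PP A univ (U (Function.update t i y)) z ≠ τ'} := by
        intro τ τ' hτ hτ'
        rw [shift_class hν Q c' (Q * (y * γ i)) (dvd_mul_right _ _)
          (fun z => PP A univ (U (Function.update t i (x - y))) z ≠ τ * τ')]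
        refine le_trans (fai_mono hν ?_) (fai_union_le hν _ _)
        rintro z ⟨h1, h2, h3⟩
        rw [hUu] at h3
        have e1 : (Q : ℤ) * ((x - y) * γ i) = Q * (x * γ i) - Q * (y * γ i) := by ring
        rw [e1, PP_diff A hApm] at h3
        rw [hUu, hUu]
        by_cases h4 : PP A univ (Function.update (U t) i (Q * (x * γ i))) z = τ
        · right
          refine ⟨h2, fun h5 => h3 ?_⟩
          rw [h4, h5]
        · left
          exact ⟨h2, h4⟩
      have k1 := key 1 1 (Or.inl rfl) (Or.inl rfl)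
      have k2 := key 1 (-1) (Or.inl rfl) (Or.inr rfl)
      have k3 := key (-1) 1 (Or.inr rfl) (Or.inl rfl)
      have k4 := key (-1) (-1) (Or.inr rfl) (Or.inr rfl)
      have e4 : (-1 : ℝ) * -1 = 1 := by norm_num
      rw [mul_one] at k1 k3
      rw [one_mul] at k2
      rw [e4] at k4
      simp only [hd]
      rw [← mul_add]
      apply mul_le_mul_of_nonneg_left _ hQR.le
      rcases min_choice (ν {z : ℕ | z ≡ c' [MOD Q] ∧ PP A univ (U (Function.update t i x)) z ≠ 1})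
        (ν {z : ℕ | z ≡ c' [MOD Q] ∧ PP A univ (U (Function.update t i x)) z ≠ -1}) with h1 | h1 <;>
      rcases min_choice (ν {z : ℕ | z ≡ c' [MOD Q] ∧ PP A univ (U (Function.update t i y)) z ≠ 1})
        (ν {z : ℕ | z ≡ c' [MOD Q] ∧ PP A univ (U (Function.update t i y)) z ≠ -1}) with h2 | h2 <;>
      rw [h1, h2]
      · exact (min_le_left _ _).trans k1
      · exact (min_le_right _ _).trans k2
      · exact (min_le_right _ _).trans k3
      · exact (min_le_left _ _).trans k4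
    · intro t i
      have h1 : {z : ℕ | z ≡ c' [MOD Q] ∧ PP A univ (U (Function.update t i 0)) z ≠ 1} = ∅ := by
        ext z
        simp only [Set.mem_ofPred_eq, Set.mem_empty_iff_false, iff_false, not_and, not_not]
        intro _
        apply PP_zero A hApm _ i
        rw [hUu]
        simp
      simp only [hd]
      rw [h1, fai_empty hν]
      rw [min_eq_left (hν.nonneg _), mul_zero]
  have hdD : ∀ t ∈ D, d t ≤ δ := by
    intro t ht
    obtain ⟨τ, hτ⟩ := hD t ht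
    simp only [hUP] at hτ
    simp only [hd]
    have hle : min (ν {z : ℕ | z ≡ c' [MOD Q] ∧ PP A univ (U t) z ≠ 1})
      (ν {z : ℕ | z ≡ c' [MOD Q] ∧ PP A univ (U t) z ≠ -1}) ≤ δ / Q := by
      by_cases h1 : τ = -1
      · rw [h1] at hτ
        exact (min_le_right _ _).trans hτ
      · refine (min_le_left _ _).trans (le_trans (fai_mono hν ?_) hτ)
        rintro z ⟨h2, h3⟩
        refine ⟨h2, fun h4 => ?_⟩
        rcases PP_pm A hApm univ (U t) z with h5 | h5
        · exact h3 h5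
        · exact h1 (h4.symm.trans h5)
    calc _ ≤ (Q : ℝ) * (δ / Q) := mul_le_mul_of_nonneg_left hle hQR.le
      _ = δ := by field_simp
  -- the diagonal direction
  have hγG : ∀ i, γ i ∣ (G : ℤ) := by
    intro i
    rw [← Int.natAbs_dvd, Int.natCast_dvd_natCast]
    exact Finset.dvd_prod_of_mem _ (Finset.mem_univ i)
  choose e he using hγG
  have heG : ∀ i, |e i| ≤ (G : ℤ) := by
    intro i
    have h1 : |γ i| * |e i| = (G : ℤ) := by
      rw [← abs_mul, ← he i]
      exact abs_of_nonneg (by positivity)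
    have h2 : 1 ≤ |γ i| := Int.one_le_abs (hγ i)
    nlinarith [abs_nonneg (e i)]
  have hmain := hcov d hdef T δ D hδ hDT hDc hdD (fun i => h * e i) (by
    intro i
    rw [abs_mul]
    have h1 : |(h : ℤ)| = h := abs_of_nonneg (by positivity)
    rw [h1]
    have h2 : ((h : ℤ) * |e i|) * J ≤ (h * G) * J := by
      have := heG i
      gcongr
    refine h2.trans ?_
    have h3 : ((h * (G * J) : ℕ) : ℤ) ≤ T := by exact_mod_cast hh
    push_cast at h3
    linarith [mul_assoc (h : ℤ) G J])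
  set S : ℤ := Q * (R * h * G) with hS
  have hdiag : ∀ i, U (fun i => (R : ℤ) * (h * e i)) i = S := by
    intro i
    simp only [hU, hS]
    have := he i
    rw [this]
    ring
  have hPd : ∀ z : ℤ, PP A univ (U (fun i => (R : ℤ) * (h * e i))) z = (EE S)^[k] A z := by
    intro z
    have := PP_diag A (U (fun i => (R : ℤ) * (h * e i))) S hdiag univ z
    rw [Finset.card_univ, Fintype.card_fin] at this
    exact this
  simp only [hd] at hmain
  simp only [hPd] at hmain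
  obtain ⟨τ, hτ, hτm⟩ : ∃ τ : ℝ, (τ = 1 ∨ τ = -1) ∧
      ν {z : ℕ | z ≡ c' [MOD Q] ∧ (EE S)^[k] A z ≠ τ} ≤ C * δ / Q := by
    rcases min_choice (ν {z : ℕ | z ≡ c' [MOD Q] ∧ (EE S)^[k] A z ≠ 1})
      (ν {z : ℕ | z ≡ c' [MOD Q] ∧ (EE S)^[k] A z ≠ -1}) with h1 | h1
    · refine ⟨1, Or.inl rfl, ?_⟩
      rw [h1] at hmain
      rw [le_div_iff₀ hQR]
      linarith
    · refine ⟨-1, Or.inr rfl, ?_⟩
      rw [h1] at hmain
      rw [le_div_iff₀ hQR]
      linarith
  have hQS : (Q : ℤ) ∣ S := dvd_mul_right _ _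
  have hiter : ∀ m : ℕ, ν {z : ℕ | z ≡ c' [MOD Q] ∧ (EE S)^[k + (m + 1)] A z ≠ 1} ≤
      2 ^ (m + 1) * (C * δ / Q) := by
    intro m
    induction m with
    | zero =>
      have := EE_defect hν Q c' S hQS _ τ hτ _ hτm
      rw [show k + (0 + 1) = k + 1 by ring]
      simp only [Function.iterate_succ_apply']
      calc _ ≤ 2 * (C * δ / Q) := this
        _ = _ := by ring
    | succ m ih =>
      have := EE_defect hν Q c' S hQS _ 1 (Or.inl rfl) _ ih
      rw [show k + (m + 1 + 1) = (k + (m + 1)) + 1 by ring]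
      rw [Function.iterate_succ_apply']
      refine this.trans (le_of_eq ?_)
      ring
  obtain ⟨m, hm⟩ : ∃ m, 2 ^ k = k + (m + 1) := ⟨2 ^ k - k - 1, by
    have : k < 2 ^ k := Nat.lt_two_pow_self
    omega⟩
  have hfin := hiter m
  rw [← hm, EE_two_pow S k A hApm] at hfin
  have hset : {z : ℕ | z ≡ c' [MOD Q] ∧ a z ≠ a (z + Q * (2 ^ k * R * G) * h)} ⊆
      {z : ℕ | z ≡ c' [MOD Q] ∧ EE (2 ^ k * S) A z ≠ 1} := by
    rintro z ⟨h1, h2⟩
    refine ⟨h1, ?_⟩
    unfold EE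
    have e1 : A z = a z := by simp [hA]
    have e2 : A ((z : ℤ) + 2 ^ k * S) = a (z + Q * (2 ^ k * R * G) * h) := by
      simp only [hA]
      congr 1
      have : (z : ℤ) + 2 ^ k * S = ((z + Q * (2 ^ k * R * G) * h : ℕ) : ℤ) := by
        rw [hS]; push_cast; ring
      rw [this, Int.toNat_natCast]
    rw [e1, e2]
    intro h5
    apply h2
    rcases ha z with h3 | h3
    · rw [h3] at h5 ⊢; linarith
    · rw [h3] at h5 ⊢; linarith
  refine (fai_mono hν hset).trans (hfin.trans ?_)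
  have h5 : (2 : ℝ) ^ (m + 1) ≤ 2 ^ (2 ^ k) := by
    apply pow_le_pow_right₀ (by norm_num)
    omega
  calc (2 : ℝ) ^ (m + 1) * (C * δ / Q) ≤ 2 ^ (2 ^ k) * (C * δ / Q) := by
        apply mul_le_mul_of_nonneg_right h5
        positivity
    _ = _ := by ring

end

end Pool.Agent.H24.T2
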