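import Mathlib
import Pool.Agent.H24.T2.Cube

/-!
The local step of [LOC] (project T2 on `MP_c59857_nt`): from relations at many primes of one
scale to almost periodicity.
-/

set_option autoImplicit false

open Finset Filter

namespace Pool.Agent.H24.T2

open Pool.Agent.H24.MR (lam FinAddInv)
open Pool.Agent.H59.MR

theorem lam_or (n : ℕ) : lam n = 1 ∨ lam n = -1 := neg_one_pow_eq_or ℝ _

/-- from relations `rel β lam p y = v p` (most `y ≡ c`) for all primes `p` of a cube to a relation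
for the `k`-fold derivative. -/
theorem cube_rel {ν : Set ℕ → ℝ} (hν : FinAddInv ν) {k : ℕ} (β : Fin (k + 1) → ℕ) (Q c : ℕ)
    (v : ℕ → ℝ) (G : Finset ℕ) (hG : ∀ p ∈ G, p ≡ 1 [MOD Q]) (η₁ : ℝ)
    (hrel : ∀ p ∈ G, ν {y | y ≡ c [MOD Q] ∧ rel β lam p y ≠ v p} ≤ η₁)
    (t : Fin k → ℤ) (g : ℤ)
    (hg : ∀ ω : Finset (Fin k), ∃ p ∈ G, (p : ℤ) = g + Q * ∑ i ∈ ω, t i) :
    ∃ τ : ℝ, ν {z : ℕ | z ≡ c + β 0 [MOD Q] ∧
      ∏ ω : Finset (Fin k), lam (((z : ℤ) + Q * ∑ j ∈ ω, t j * ((β 0 : ℤ) - β j.succ)).toNat) ≠ τ}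
      ≤ 2 ^ k * η₁ := by
  classical
  choose P hPG hP using hg
  refine ⟨∏ ω : Finset (Fin k), v (P ω), ?_⟩
  set s : Finset (Fin k) → ℤ := fun ω => - g * β 0 - Q * ∑ j ∈ ω, t j * β j.succ with hs
  -- everything is positive beyond `n₀`
  set n₀ : ℕ := ∑ ω : Finset (Fin k), (s ω).natAbs with hn₀
  have hbig : ∀ z : ℕ, n₀ ≤ z → ∀ ω, 0 ≤ (z : ℤ) + s ω := by
    intro z hz ω
    have h1 : (s ω).natAbs ≤ n₀ :=
      Finset.single_le_sum (f := fun ω => (s ω).natAbs) (fun _ _ => Nat.zero_le _)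
        (Finset.mem_univ ω)
    omega
  have hg1 : g ≡ 1 [ZMOD Q] := by
    have h1 := hP ∅
    rw [Finset.sum_empty, mul_zero, add_zero] at h1
    rw [← h1]
    exact (Int.natCast_modEq_iff.2 (hG _ (hPG ∅)))
  have hsub : {z : ℕ | z ≡ c + β 0 [MOD Q] ∧
      ∏ ω : Finset (Fin k), lam (((z : ℤ) + Q * ∑ j ∈ ω, t j * ((β 0 : ℤ) - β j.succ)).toNat) ≠
        ∏ ω : Finset (Fin k), v (P ω)} ⊆
      {z | z < n₀} ∪ {z | ∃ ω ∈ (Finset.univ : Finset (Finset (Fin k))),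
        z ∈ {z : ℕ | 0 ≤ (z : ℤ) + s ω ∧ ((z : ℤ) + s ω).toNat ∈
          {y | y ≡ c [MOD Q] ∧ rel β lam (P ω) y ≠ v (P ω)}}} := by
    rintro z ⟨hz1, hz2⟩
    by_cases hz : z < n₀
    · exact Or.inl hz
    right
    push Not at hz
    by_contra hcon
    apply hz2
    have h0 := hbig z hz
    have hall : ∀ ω : Finset (Fin k), rel β lam (P ω) ((z : ℤ) + s ω).toNat = v (P ω) := by
      intro ω
      by_contra hne
      apply hcon
      refine ⟨ω, Finset.mem_univ _, h0 ω, ?_, hne⟩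
      rw [← Int.natCast_modEq_iff, Int.toNat_of_nonneg (h0 ω)]
      have hz1' : (z : ℤ) ≡ c + β 0 [ZMOD Q] := by
        have := Int.natCast_modEq_iff.2 hz1
        push_cast at this
        exact this
      have h2 : (Q : ℤ) * ∑ j ∈ ω, t j * (β j.succ : ℤ) ≡ 0 [ZMOD Q] :=
        (Int.modEq_zero_iff_dvd).2 (Dvd.intro _ rfl)
      have h3 : -g * (β 0 : ℤ) ≡ - 1 * β 0 [ZMOD Q] := (hg1.neg).mul_right _
      have h4 := (hz1'.add h3).sub h2
      have e1 : (z : ℤ) + s ω = z + -g * β 0 - Q * ∑ j ∈ ω, t j * β j.succ := by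
        simp only [hs]; ring
      have e2 : (c : ℤ) + β 0 + -1 * β 0 - 0 = c := by ring
      rw [e1]
      rw [e2] at h4
      exact h4
    rw [← Finset.prod_congr rfl fun ω _ => hall ω]
    rw [← cube_prod β t Q g z (fun n => lam n.toNat) (fun n => lam_or _)]
    refine Finset.prod_congr rfl fun ω _ => ?_
    unfold rel
    refine Finset.prod_congr rfl fun i _ => ?_
    congr 1
    have h5 := hP ω
    have h6 : 0 ≤ (z : ℤ) + s ω := h0 ω
    have e1 : (z : ℤ) - g * β 0 - Q * ∑ j ∈ ω, t j * β j.succ = z + s ω := by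
      simp only [hs]; ring
    rw [e1, ← h5]
    have h7 : ((((z : ℤ) + s ω).toNat + P ω * β i : ℕ) : ℤ) = z + s ω + P ω * β i := by
      push_cast
      rw [Int.toNat_of_nonneg h6]
    rw [← h7, Int.toNat_natCast]
  refine (fai_mono hν hsub).trans ((fai_union_le hν _ _).trans ?_)
  rw [fa_lt_null hν, zero_add]
  have hun : ∀ (S : Finset (Finset (Fin k))), ν {z | ∃ ω ∈ S,
        z ∈ {z : ℕ | 0 ≤ (z : ℤ) + s ω ∧ ((z : ℤ) + s ω).toNat ∈
          {y | y ≡ c [MOD Q] ∧ rel β lam (P ω) y ≠ v (P ω)}}} ≤ S.card * η₁ := by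
    intro S
    induction S using Finset.induction_on with
    | empty =>
      have : {z : ℕ | ∃ ω ∈ (∅ : Finset (Finset (Fin k))),
        z ∈ {z : ℕ | 0 ≤ (z : ℤ) + s ω ∧ ((z : ℤ) + s ω).toNat ∈
          {y | y ≡ c [MOD Q] ∧ rel β lam (P ω) y ≠ v (P ω)}}} = ∅ := by ext z; simp
      rw [this, fai_empty hν]; simp
    | insert a S ha ih =>
      have h1 : {z : ℕ | ∃ ω ∈ insert a S,
        z ∈ {z : ℕ | 0 ≤ (z : ℤ) + s ω ∧ ((z : ℤ) + s ω).toNat ∈
          {y | y ≡ c [MOD Q] ∧ rel β lam (P ω) y ≠ v (P ω)}}} ⊆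
          {z : ℕ | 0 ≤ (z : ℤ) + s a ∧ ((z : ℤ) + s a).toNat ∈
          {y | y ≡ c [MOD Q] ∧ rel β lam (P a) y ≠ v (P a)}} ∪
          {z : ℕ | ∃ ω ∈ S,
        z ∈ {z : ℕ | 0 ≤ (z : ℤ) + s ω ∧ ((z : ℤ) + s ω).toNat ∈
          {y | y ≡ c [MOD Q] ∧ rel β lam (P ω) y ≠ v (P ω)}}} := by
        rintro z ⟨ω, hω, hz⟩
        rcases Finset.mem_insert.1 hω with rfl | hω
        · exact Or.inl hz
        · exact Or.inr ⟨ω, hω, hz⟩
      refine (fai_mono hν h1).trans ((fai_union_le hν _ _).trans ?_)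
      rw [fa_shiftZ hν (s a), Finset.card_insert_of_notMem ha]
      have := hrel (P a) (hPG a)
      push_cast
      linarith
  refine (hun Finset.univ).trans (le_of_eq ?_)
  rw [Finset.card_univ, Fintype.card_finset, Fintype.card_fin]
  push_cast
  rfl

end Pool.Agent.H24.T2
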