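import Mathlib
import Pool.Agent.H24.T2.Local

/-!
[LOC]: the local contradiction (project T2 on `MP_c59857_nt`).
-/

set_option autoImplicit false

open Finset Filter

namespace Pool.Agent.H24.T2

open Pool.Agent.H24.MR (lam FinAddInv)
open Pool.Agent.H59.MR

/-- one cell: from a good scale to almost periodicity -/
theorem cell_step {ν : Set ℕ → ℝ} (hν : FinAddInv ν) {k : ℕ} (δ c₀ c₁ Cc θ η₂ : ℝ)
    (hδ : 0 < δ) (hθ0 : 0 ≤ θ) (hθ : θ ≤ δ / 8)
    (Q c m Ms Mt : ℕ) (hQ : 0 < Q) (β : Fin (k + 1) → ℕ)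
    (hdense : c₀ * 2 ^ m / (Nat.totient Q * m) ≤ ((Pset Q m).card : ℝ))
    (hPS : ∀ G : Finset ℕ, G ⊆ Pset Q m →
      δ / 4 * c₀ * 2 ^ m / (Nat.totient Q * m) ≤ (G.card : ℝ) →
      ∃ D : Finset (Fin k → ℤ),
        (∀ t ∈ D, (∀ i, |t i| ≤ ((2 ^ m / Q : ℕ) : ℤ)) ∧
          ∃ g : ℤ, ∀ ω : Finset (Fin k), ∃ p ∈ G, (p : ℤ) = g + Q * ∑ i ∈ ω, t i) ∧
        c₁ * ((2 ^ m / Q : ℕ) : ℝ) ^ k ≤ (D.card : ℝ))
    (hCOV : ∀ ν : Set ℕ → ℝ, FinAddInv ν → ∀ a : ℕ → ℝ, (∀ n, a n = 1 ∨ a n = -1) →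
      ∀ (Q c' T : ℕ) (δ : ℝ) (D : Finset (Fin k → ℤ)), 0 < Q → 0 ≤ δ →
        (∀ t ∈ D, ∀ i, |t i| ≤ (T : ℤ)) → c₁ * (T : ℝ) ^ k ≤ (D.card : ℝ) →
        (∀ t ∈ D, ∃ τ : ℝ, ν {z : ℕ | z ≡ c' [MOD Q] ∧
          ∏ ω : Finset (Fin k), a (((z : ℤ) + Q * ∑ j ∈ ω, t j *
            ((β 0 : ℤ) - β j.succ)).toNat) ≠ τ} ≤ δ / Q) →
        ∀ h : ℕ, h * Mt ≤ T → ν {z | z ≡ c' [MOD Q] ∧ a z ≠ a (z + Q * Ms * h)} ≤ Cc * δ / Q)
    (v : ℕ → ℝ)
    (hx : δ / 2 * ((Pset Q m).card : ℝ) ≤ ((Pset Q m).filter (fun p => v p ≠ 0)).card)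
    (hB : ∑ p ∈ (Pset Q m).filter (fun p => v p ≠ 0),
      (p : ℝ) * Q * ν {y | y ≡ c [MOD Q] ∧ p ∣ y ∧ rel β lam p y ≠ v p} ≤
        δ / 8 * η₂ * (Pset Q m).card)
    (hη₂pos : 0 < η₂)
    (hDec : Dec β ν lam Q c θ m) (j : ℕ) (hj : j * Mt ≤ 2 ^ m / Q) :
    ν {z | z ≡ c + β 0 [MOD Q] ∧ lam z ≠ lam (z + Q * Ms * j)} ≤
      Cc * (2 ^ k * (10 * η₂ + θ)) / Q := by
  classical
  obtain ⟨X, hX1, hX2⟩ := hDec
  have hQ0 : (0 : ℝ) < Q := by exact_mod_cast hQ
  set P := Pset Q m with hP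
  set gg : ℕ → ℝ := fun p =>
    (p : ℝ) * Q * ν {y | y ≡ c [MOD Q] ∧ p ∣ y ∧ rel β lam p y ≠ v p} with hgg
  have hgg0 : ∀ p, 0 ≤ gg p := fun p => by
    have := hν.nonneg {y | y ≡ c [MOD Q] ∧ p ∣ y ∧ rel β lam p y ≠ v p}
    positivity
  set F := P.filter (fun p => v p ≠ 0) with hF
  set G := F.filter (fun p => p ∉ X ∧ gg p ≤ η₂) with hG
  set B2 := F.filter (fun p => η₂ < gg p) with hB2
  have hcard : F.card ≤ G.card + X.card + B2.card := by
    have hsub : F ⊆ (G ∪ X) ∪ B2 := by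
      intro p hp
      rw [Finset.mem_union, Finset.mem_union]
      by_cases h1 : p ∈ X
      · exact Or.inl (Or.inr h1)
      by_cases h2 : gg p ≤ η₂
      · exact Or.inl (Or.inl (Finset.mem_filter.2 ⟨hp, h1, h2⟩))
      · exact Or.inr (Finset.mem_filter.2 ⟨hp, not_le.1 h2⟩)
    exact (Finset.card_le_card hsub).trans ((Finset.card_union_le _ _).trans
      (Nat.add_le_add_right (Finset.card_union_le _ _) _))
  have hcard' : (F.card : ℝ) ≤ G.card + X.card + B2.card := by exact_mod_cast hcard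
  have hB2c : (B2.card : ℝ) ≤ δ / 8 * P.card := by
    have h1 : (B2.card : ℝ) * η₂ ≤ ∑ p ∈ B2, gg p := by
      rw [← nsmul_eq_mul]
      apply Finset.card_nsmul_le_sum
      intro p hp
      exact (Finset.mem_filter.1 hp).2.le
    have h2 : ∑ p ∈ B2, gg p ≤ ∑ p ∈ F, gg p :=
      Finset.sum_le_sum_of_subset_of_nonneg (Finset.filter_subset _ _) (fun p _ _ => hgg0 p)
    have h3 : (B2.card : ℝ) * η₂ ≤ (δ / 8 * P.card) * η₂ := by
      refine (h1.trans (h2.trans hB)).trans (le_of_eq (by ring))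
    exact le_of_mul_le_mul_right h3 hη₂pos
  have hGc : δ / 4 * (P.card : ℝ) ≤ G.card := by
    have h1 : θ * (P.card : ℝ) ≤ δ / 8 * P.card := by gcongr
    linarith
  have hGP : G ⊆ P := (Finset.filter_subset _ _).trans (Finset.filter_subset _ _)
  obtain ⟨D, hD1, hD2⟩ := hPS G hGP (by
    refine le_trans (le_of_eq ?_) ((mul_le_mul_of_nonneg_left hdense
      (by positivity : 0 ≤ δ / 4)).trans hGc)
    ring)
  have hrelG : ∀ p ∈ G, ν {y | y ≡ c [MOD Q] ∧ rel β lam p y ≠ v p} ≤ (10 * η₂ + θ) / Q := by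
    intro p hp
    obtain ⟨hpF, hpX, hpg⟩ := Finset.mem_filter.1 hp
    have h1 := hX2 p (Finset.mem_filter.1 hpF).1 hpX (v p)
    refine h1.trans ?_
    rw [add_div]
    gcongr
    rw [le_div_iff₀ hQ0]
    have : (p : ℝ) * Q * ν {y | y ≡ c [MOD Q] ∧ p ∣ y ∧ rel β lam p y ≠ v p} ≤ η₂ := hpg
    nlinarith
  exact hCOV ν hν lam lam_or Q (c + β 0) (2 ^ m / Q) (2 ^ k * (10 * η₂ + θ)) D hQ
    (by positivity) (fun t ht => (hD1 t ht).1) hD2 (fun t ht => by
      obtain ⟨g, hg⟩ := (hD1 t ht).2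
      obtain ⟨τ, hτ⟩ := cube_rel hν β Q c v G
        (fun p hp => by
          have := hGP hp
          rw [hP] at this
          unfold Pset at this
          exact (Finset.mem_filter.1 this).2.2) _ hrelG t g hg
      refine ⟨τ, hτ.trans (le_of_eq ?_)⟩
      ring) j hj

theorem lam_sum_large {ν : Set ℕ → ℝ} (hν : FinAddInv ν) (Q Ms c' h : ℕ) (hQ : 0 < Q)
    (hh : 0 < h) (ε : ℝ) (hε : ε ≤ 1 / 2)
    (hper : ∀ j, j < h → ν {z | z ≡ c' [MOD Q] ∧ lam z ≠ lam (z + Q * Ms * j)} ≤ 1 / (8 * Q)) :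
    1 / (2 * (Q : ℝ)) ≤
      ν {z | z ≡ c' [MOD Q] ∧ ε * h ≤ |∑ y ∈ Finset.range h, lam (z + Q * Ms * y)|} := by
  classical
  have hQ0 : (0 : ℝ) < Q := by exact_mod_cast hQ
  have hh0 : (0 : ℝ) < h := by exact_mod_cast hh
  set x : ℕ := ⌈(h : ℝ) / 4⌉₊ with hx
  have hx1 : (h : ℝ) / 4 ≤ x := Nat.le_ceil _
  have hx0 : (0 : ℝ) < x := lt_of_lt_of_le (by positivity) hx1
  have h1 := fa_markov hν {z | z ≡ c' [MOD Q]} (fun j => {z | lam z ≠ lam (z + Q * Ms * j)}) h x
  have h2 : ∑ j ∈ Finset.range h, ν {z | z ∈ {z | z ≡ c' [MOD Q]} ∧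
      z ∈ {z | lam z ≠ lam (z + Q * Ms * j)}} ≤ h * (1 / (8 * Q)) := by
    calc _ ≤ ∑ j ∈ Finset.range h, 1 / (8 * (Q : ℝ)) :=
          Finset.sum_le_sum fun j hj => hper j (Finset.mem_range.1 hj)
      _ = _ := by rw [Finset.sum_const, Finset.card_range, nsmul_eq_mul]
  set C : Set ℕ := {z | z ∈ {z | z ≡ c' [MOD Q]} ∧ ∃ S ⊆ Finset.range h, x ≤ S.card ∧
    ∀ j ∈ S, z ∈ {z | lam z ≠ lam (z + Q * Ms * j)}} with hC
  have h3 : ν C ≤ 1 / (2 * Q) := by
    have h4 : (x : ℝ) * ν C ≤ h * (1 / (8 * Q)) := h1.trans h2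
    have h5 : (h : ℝ) / 4 * ν C ≤ h * (1 / (8 * Q)) :=
      le_trans (mul_le_mul_of_nonneg_right hx1 (hν.nonneg _)) h4
    have h6 : ν C = (4 / h) * ((h : ℝ) / 4 * ν C) := by field_simp
    rw [h6]
    calc (4 / (h : ℝ)) * ((h : ℝ) / 4 * ν C) ≤ (4 / h) * (h * (1 / (8 * Q))) := by gcongr
      _ = 1 / (2 * Q) := by field_simp; norm_num
  have hsub : {z | z ≡ c' [MOD Q]} ⊆ {z | z ≡ c' [MOD Q] ∧
      ε * h ≤ |∑ y ∈ Finset.range h, lam (z + Q * Ms * y)|} ∪ C := by
    intro z hz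
    by_cases hlarge : ε * h ≤ |∑ y ∈ Finset.range h, lam (z + Q * Ms * y)|
    · exact Or.inl ⟨hz, hlarge⟩
    · right
      push Not at hlarge
      refine ⟨hz, (Finset.range h).filter (fun j => lam z ≠ lam (z + Q * Ms * j)),
        Finset.filter_subset _ _, ?_, fun j hj => (Finset.mem_filter.1 hj).2⟩
      rw [hx, Nat.ceil_le]
      set n := ((Finset.range h).filter (fun j => lam z ≠ lam (z + Q * Ms * j))).card with hn
      have e1 : ∑ y ∈ Finset.range h, lam (z + Q * Ms * y) = lam z * (h - 2 * n) := by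
        have : ∀ y ∈ Finset.range h, lam (z + Q * Ms * y) =
            lam z * (1 - 2 * (if lam z ≠ lam (z + Q * Ms * y) then 1 else 0)) := by
          intro y _
          split_ifs with hne
          · have h9 : lam (z + Q * Ms * y) = - lam z := by
              rcases lam_or z with h7 | h7 <;> rcases lam_or (z + Q * Ms * y) with h8 | h8
              · exact absurd (h7.trans h8.symm) hne
              · rw [h7, h8]
              · rw [h7, h8]; norm_num
              · exact absurd (h7.trans h8.symm) hne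
            rw [h9]; ring
          · push Not at hne
            rw [← hne]; ring
        rw [Finset.sum_congr rfl this, ← Finset.mul_sum, Finset.sum_sub_distrib,
          ← Finset.mul_sum, Finset.sum_boole]
        simp only [Finset.sum_const, Finset.card_range, nsmul_eq_mul, mul_one]
        rfl
      rw [e1, abs_mul] at hlarge
      have e2 : |lam z| = 1 := by rcases lam_or z with h7 | h7 <;> rw [h7] <;> norm_num
      rw [e2, one_mul, abs_lt] at hlarge
      nlinarith [hlarge.2]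
  have h7 := (fai_mono hν hsub).trans (fai_union_le hν _ _)
  rw [Pool.Agent.H18.MR.fai_modEq hν hQ] at h7
  have h8 : 1 / (Q : ℝ) = 1 / (2 * Q) + 1 / (2 * Q) := by field_simp; norm_num
  linarith

theorem loc (hEN : StatementEN2) (hPS : StatementPSK) (hCOV : StatementCOVK) : StatementLOC := by
  classical
  intro k δ hk hδ
  obtain ⟨c₀, hc₀, hEN⟩ := hEN
  obtain ⟨k, rfl⟩ : ∃ k', k = k' + 1 := ⟨k - 1, by omega⟩
  obtain ⟨c₁, hc₁, hPS⟩ := hPS k (δ / 4 * c₀) (by positivity)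
  obtain ⟨Cc, hCc, hCOV⟩ := hCOV k c₁ hc₁
  set A : ℝ := Cc * 2 ^ k with hA
  have hA0 : 0 < A := by positivity
  set θ : ℝ := min (δ / 8) (1 / (16 * A)) with hθ
  have hθ0 : 0 < θ := lt_min (by positivity) (by positivity)
  have hθ1 : θ ≤ δ / 8 := min_le_left _ _
  have hθ2 : θ ≤ 1 / (16 * A) := min_le_right _ _
  set η₂ : ℝ := 1 / (160 * A) with hη₂
  have hη₂0 : 0 < η₂ := by positivity
  set η : ℝ := δ ^ 2 / 64 * η₂ with hη
  have hη0 : 0 < η := by positivity
  refine ⟨η, hη0, ?_⟩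
  intro Q c β hQ hQe hβ μ hμ hMR σ hσ hinv hmass hrel
  have hQ0 : (0 : ℝ) < Q := by exact_mod_cast hQ
  obtain ⟨m₁, hPS⟩ := hPS Q hQ hQe
  have hγ : ∀ i : Fin k, (β 0 : ℤ) - β i.succ ≠ 0 := by
    intro i h0
    have h1 : β 0 = β i.succ := by exact_mod_cast sub_eq_zero.1 h0
    exact absurd (hβ h1) (Fin.succ_ne_zero i).symm
  obtain ⟨Ms, Mt, hMs, hMt, hCOV⟩ := hCOV (fun i => (β 0 : ℤ) - β i.succ) hγ
  -- the window
  have hMs0 : (0 : ℝ) < Ms := by exact_mod_cast hMs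
  set ε : ℝ := min (1 / 2) (δ / (64 * Q * (Q * Ms))) with hε
  have hε0 : 0 < ε := lt_min (by norm_num) (by positivity)
  have hε1 : ε ≤ 1 / 2 := min_le_left _ _
  have hε2 : ε ≤ δ / (64 * Q * (Q * Ms)) := min_le_right _ _
  choose h0 hh0 using fun b => hMR (Q * Ms) b ε (Nat.mul_pos hQ hMs) hε0
  set h : ℕ := 1 + ∑ b ∈ Finset.range (Q * Ms), h0 b with hh
  have hhb : ∀ b ∈ Finset.range (Q * Ms), h0 b ≤ h := by
    intro b hb
    have := Finset.single_le_sum (f := h0) (fun _ _ => Nat.zero_le _) hb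
    omega
  have hhpos : 0 < h := by omega
  have hMRtot : μ {z | z ≡ c + β 0 [MOD Q] ∧
      ε * h ≤ |∑ y ∈ Finset.range h, lam (z + Q * Ms * y)|} ≤ δ / (64 * Q) := by
    rw [fa_fiber hμ (fun z => z % (Q * Ms)) (Finset.range (Q * Ms))
      (fun n => Finset.mem_range.2 (Nat.mod_lt _ (Nat.mul_pos hQ hMs)))]
    calc _ ≤ ∑ b ∈ Finset.range (Q * Ms), ε := by
          refine Finset.sum_le_sum fun b hb => ?_
          refine le_trans (fai_mono hμ ?_) (hh0 b h (hhb b hb))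
          rintro z ⟨⟨_, hz2⟩, hz3⟩
          refine ⟨?_, ?_⟩
          · have hb' := Finset.mem_range.1 hb
            show z % (Q * Ms) = b % (Q * Ms)
            rw [Nat.mod_eq_of_lt hb']
            exact hz3
          · exact hz2
      _ = (Q * Ms : ℕ) * ε := by rw [Finset.sum_const, Finset.card_range, nsmul_eq_mul]
      _ ≤ (Q * Ms : ℕ) * (δ / (64 * Q * (Q * Ms))) := by gcongr
      _ = δ / (64 * Q) := by push_cast; field_simp
  -- scales
  obtain ⟨M, wt, hM, hwt1, hDec⟩ := hEN Q (k + 1) β θ (δ / 8) (max (max m₁ 1) (Q * (h * Mt))) hQ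
    hθ0 (by positivity)
  have hMm : ∀ m ∈ M, m₁ ≤ m ∧ 1 ≤ m ∧ h * Mt ≤ 2 ^ m / Q := by
    intro m hm
    have h1 := (hM m hm).1
    refine ⟨(le_max_left _ _).trans ((le_max_left _ _).trans h1),
      (le_max_right _ _).trans ((le_max_left _ _).trans h1), ?_⟩
    have h2 : Q * (h * Mt) ≤ 2 ^ m := ((le_max_right _ _).trans h1).trans Nat.lt_two_pow_self.le
    rw [Nat.le_div_iff_mul_le hQ]
    linarith [mul_comm Q (h * Mt)]
  have hPcard : ∀ m ∈ M, (0 : ℝ) < (Pset Q m).card := by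
    intro m hm
    refine lt_of_lt_of_le ?_ (hM m hm).2.1
    have h1 : (0 : ℝ) < m := by exact_mod_cast (hMm m hm).2.1
    have h2 : (0 : ℝ) < Nat.totient Q := by exact_mod_cast Nat.totient_pos.2 hQ
    positivity
  -- cells
  set PP : Finset ℕ := M.biUnion (Pset Q) with hPP
  have hPPp : ∀ p ∈ PP, p.Prime ∧ p ≡ 1 [MOD Q] := by
    intro p hp
    obtain ⟨m, _, hm⟩ := Finset.mem_biUnion.1 hp
    unfold Pset at hm
    exact (Finset.mem_filter.1 hm).2
  set f : ℕ → ((p : {p // p ∈ PP}) → ℤ) := fun y p => σ p y with hf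
  set V : Finset ((p : {p // p ∈ PP}) → ℤ) :=
    Fintype.piFinset (fun _ => ({0, 1, -1} : Finset ℤ)) with hV
  have hfV : ∀ n, f n ∈ V := by
    intro n
    rw [hV, Fintype.mem_piFinset]
    intro p
    rcases hσ p n with h1 | h1 | h1 <;> simp [hf, h1]
  set val : ((p : {p // p ∈ PP}) → ℤ) → ℕ → ℤ :=
    fun v p => if hp : p ∈ PP then v ⟨p, hp⟩ else 0 with hval
  have hvalf : ∀ (n : ℕ) (p : ℕ), p ∈ PP → val (f n) p = σ p n := by
    intro n p hp
    simp only [hval, hf, dif_pos hp]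
  set E : ((p : {p // p ∈ PP}) → ℤ) → Set ℕ := fun v => {n | f n = v} with hE
  have hEinv : ∀ v, μ {n | ¬ (n ∈ E v ↔ n + 1 ∈ E v)} = 0 := by
    intro v
    refine fa_null_mono hμ ?_ (fa_null_biUnion hμ PP (fun p => {y | σ p y ≠ σ p (y + 1)})
      (fun p hp => hinv p (hPPp p hp).1 (hPPp p hp).2))
    intro n hn
    by_contra hcon
    apply hn
    have : f n = f (n + 1) := by
      funext p
      by_contra hne
      exact hcon ⟨p, p.2, hne⟩
    simp only [hE, Set.mem_ofPred_eq, this]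
  set W : ((p : {p // p ∈ PP}) → ℤ) → ℝ := fun v => μ (E v) with hW
  set ν : ((p : {p // p ∈ PP}) → ℤ) → Set ℕ → ℝ := fun v A => μ (A ∩ E v) / μ (E v) with hν
  have hνF : ∀ v, 0 < W v → FinAddInv (ν v) := fun v hv => fa_cond hμ (E v) (hEinv v) hv
  have hW1 : ∑ v ∈ V, W v = 1 := by
    have h1 := fa_fiber hμ f V hfV Set.univ
    rw [hμ.univ] at h1
    rw [h1]
    refine Finset.sum_congr rfl fun v _ => ?_
    simp only [hW, hE]
    congr 1
    ext n
    simp
  set x : ((p : {p // p ∈ PP}) → ℤ) → ℕ → ℝ := fun v m =>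
    (((Pset Q m).filter (fun p => val v p ≠ 0)).card : ℝ) / (Pset Q m).card with hx
  set R : ((p : {p // p ∈ PP}) → ℤ) → ℕ → Set ℕ := fun v p =>
    {y | y ≡ c [MOD Q] ∧ p ∣ y ∧ rel β lam p y ≠ (val v p : ℝ)} with hR
  set B : ((p : {p // p ∈ PP}) → ℤ) → ℕ → ℝ := fun v m =>
    (∑ p ∈ (Pset Q m).filter (fun p => val v p ≠ 0), (p : ℝ) * Q * μ (R v p ∩ E v))
      / (Pset Q m).card with hBdef
  obtain ⟨V', hV'V, hV'sum, hV'⟩ := exists_good V M W wt x B
    (fun v m => ¬ Dec β (ν v) lam Q c θ m)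
    (fun v m => δ / 2 ≤ x v m ∧ B v m ≤ 8 * η / δ * W v ∧ Dec β (ν v) lam Q c θ m)
    δ η hδ hη0 (fun v _ => hμ.nonneg _) hW1 (fun m hm => (hM m hm).2.2) hwt1
    (by
      intro v m
      simp only [hx]
      apply div_le_one_of_le₀ _ (Nat.cast_nonneg _)
      exact_mod_cast Finset.card_filter_le _ _)
    (by
      intro v m
      simp only [hBdef]
      refine div_nonneg (Finset.sum_nonneg fun p _ => ?_) (Nat.cast_nonneg _)
      exact mul_nonneg (by positivity) (hμ.nonneg _))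
    (by
      intro m hm
      have hPc := hPcard m hm
      have e1 : ∑ v ∈ V, W v * x v m = (∑ p ∈ Pset Q m, μ {y | σ p y ≠ 0}) / (Pset Q m).card := by
        rw [eq_div_iff hPc.ne', Finset.sum_mul]
        have e2 : ∀ v ∈ V, W v * x v m * (Pset Q m).card =
            ∑ p ∈ Pset Q m, (if val v p ≠ 0 then W v else 0) := by
          intro v _
          rw [← Finset.sum_filter, Finset.sum_const, nsmul_eq_mul]
          simp only [hx]
          field_simp
        rw [Finset.sum_congr rfl e2, Finset.sum_comm]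
        refine Finset.sum_congr rfl fun p hp => ?_
        have hpP : p ∈ PP := Finset.mem_biUnion.2 ⟨m, hm, hp⟩
        rw [fa_fiber hμ f V hfV {y | σ p y ≠ 0}]
        refine Finset.sum_congr rfl fun v _ => ?_
        split_ifs with hv
        · simp only [hW, hE]
          congr 1
          ext n
          simp only [Set.mem_ofPred_eq]
          constructor
          · intro hn
            refine ⟨?_, hn⟩
            rw [← hvalf n p hpP, hn]
            exact hv
          · exact fun hn => hn.2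
        · push Not at hv
          symm
          have : {n | n ∈ {y | σ p y ≠ 0} ∧ f n = v} = ∅ := by
            ext n
            simp only [Set.mem_ofPred_eq, Set.mem_empty_iff_false, iff_false]
            rintro ⟨h1, h2⟩
            apply h1
            rw [← hvalf n p hpP, h2, hv]
          rw [this]; exact fai_empty hμ
      rw [e1, le_div_iff₀ hPc]
      calc δ * (Pset Q m).card = ∑ _p ∈ Pset Q m, δ := by
            rw [Finset.sum_const, nsmul_eq_mul, mul_comm]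
        _ ≤ _ := by
            refine Finset.sum_le_sum fun p hp => ?_
            have hp' := hPPp p (Finset.mem_biUnion.2 ⟨m, hm, hp⟩)
            exact hmass p hp'.1 hp'.2)
    (by
      intro m hm
      have hPc := hPcard m hm
      have e1 : ∑ v ∈ V, B v m = (∑ p ∈ Pset Q m, (p : ℝ) * Q *
          μ {y | y ≡ c [MOD Q] ∧ p ∣ y ∧ σ p y ≠ 0 ∧ rel β lam p y ≠ (σ p y : ℝ)})
            / (Pset Q m).card := by
        simp only [hBdef]
        rw [← Finset.sum_div]
        congr 1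
        have e2 : ∀ v ∈ V, ∑ p ∈ (Pset Q m).filter (fun p => val v p ≠ 0),
            (p : ℝ) * Q * μ (R v p ∩ E v) =
            ∑ p ∈ Pset Q m, (p : ℝ) * Q * (if val v p ≠ 0 then μ (R v p ∩ E v) else 0) := by
          intro v _
          rw [Finset.sum_filter]
          refine Finset.sum_congr rfl fun p _ => ?_
          split_ifs <;> simp
        rw [Finset.sum_congr rfl e2, Finset.sum_comm]
        refine Finset.sum_congr rfl fun p hp => ?_
        rw [← Finset.mul_sum]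
        congr 1
        have hpP : p ∈ PP := Finset.mem_biUnion.2 ⟨m, hm, hp⟩
        rw [fa_fiber hμ f V hfV {y | y ≡ c [MOD Q] ∧ p ∣ y ∧ σ p y ≠ 0 ∧
          rel β lam p y ≠ (σ p y : ℝ)}]
        refine Finset.sum_congr rfl fun v _ => ?_
        split_ifs with hv
        · congr 1
          ext n
          simp only [hR, hE, Set.mem_inter_iff, Set.mem_ofPred_eq]
          constructor
          · rintro ⟨⟨h1, h2, h3⟩, h4⟩
            have h5 := hvalf n p hpP
            rw [h4] at h5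
            refine ⟨⟨h1, h2, ?_, ?_⟩, h4⟩
            · rw [← h5]; exact hv
            · rw [← h5]; exact h3
          · rintro ⟨⟨h1, h2, h3, h3'⟩, h4⟩
            have h5 := hvalf n p hpP
            rw [h4] at h5
            refine ⟨⟨h1, h2, ?_⟩, h4⟩
            rw [h5]; exact h3'
        · push Not at hv
          symm
          have : {n | n ∈ {y | y ≡ c [MOD Q] ∧ p ∣ y ∧ σ p y ≠ 0 ∧
              rel β lam p y ≠ (σ p y : ℝ)} ∧ f n = v} = ∅ := by
            ext n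
            simp only [Set.mem_ofPred_eq, Set.mem_empty_iff_false, iff_false]
            rintro ⟨⟨_, _, h1, _⟩, h2⟩
            apply h1
            rw [← hvalf n p hpP, h2, hv]
          rw [this]; exact fai_empty hμ
      rw [e1, div_le_iff₀ hPc]
      calc _ ≤ ∑ _p ∈ Pset Q m, η := by
            refine Finset.sum_le_sum fun p hp => ?_
            have hp' := hPPp p (Finset.mem_biUnion.2 ⟨m, hm, hp⟩)
            have h1 := hrel p hp'.1 hp'.2
            have hp0 : (0 : ℝ) < p := by exact_mod_cast hp'.1.pos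
            rw [le_div_iff₀ (by positivity)] at h1
            linarith [mul_comm ((p : ℝ) * Q) (μ {y | y ≡ c [MOD Q] ∧ p ∣ y ∧ σ p y ≠ 0 ∧
              rel β lam p y ≠ (σ p y : ℝ)})]
        _ = η * (Pset Q m).card := by rw [Finset.sum_const, nsmul_eq_mul, mul_comm])
    (by
      intro v _ hv S hS hbad
      exact hDec (ν v) (hνF v hv) lam lam_or c S hS hbad)
    (by
      intro v _ m _ _ h1 h2 h3
      exact ⟨h1, h2, not_not.1 h3⟩)
  -- each good cell
  have hcell : ∀ v ∈ V', W v * (1 / (2 * (Q : ℝ))) ≤ μ {n | n ∈ {z | z ≡ c + β 0 [MOD Q] ∧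
      ε * h ≤ |∑ y ∈ Finset.range h, lam (z + Q * Ms * y)|} ∧ f n = v} := by
    intro v hv
    obtain ⟨hWpos, m, hm, hg1, hg2, hg3⟩ := hV' v hv
    have hPc := hPcard m hm
    obtain ⟨hmm1, hmm2, hmm3⟩ := hMm m hm
    have hper : ∀ j, j < h → ν v {z | z ≡ c + β 0 [MOD Q] ∧ lam z ≠ lam (z + Q * Ms * j)}
        ≤ 1 / (8 * Q) := by
      intro j hj
      refine (cell_step (hνF v hWpos) δ c₀ c₁ Cc θ η₂ hδ hθ0.le hθ1 Q c m Ms Mt hQ β
        (hM m hm).2.1 (hPS m hmm1) hCOV (fun p => (val v p : ℝ)) ?_ ?_ hη₂0 hg3 j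
        ((Nat.mul_le_mul_right Mt hj.le).trans hmm3)).trans ?_
      · have h1 := hg1
        simp only [hx] at h1
        rw [le_div_iff₀ hPc] at h1
        refine h1.trans (le_of_eq ?_)
        congr 2
        ext p
        simp
      · have h1 := hg2
        simp only [hBdef] at h1
        rw [div_le_iff₀ hPc] at h1
        have e1 : ∑ p ∈ (Pset Q m).filter (fun p => (val v p : ℝ) ≠ 0), (p : ℝ) * Q *
            ν v {y | y ≡ c [MOD Q] ∧ p ∣ y ∧ rel β lam p y ≠ (val v p : ℝ)} =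
            (∑ p ∈ (Pset Q m).filter (fun p => val v p ≠ 0),
              (p : ℝ) * Q * μ (R v p ∩ E v)) / W v := by
          rw [Finset.sum_div]
          have e2 : (Pset Q m).filter (fun p => (val v p : ℝ) ≠ 0) =
              (Pset Q m).filter (fun p => val v p ≠ 0) := by
            ext p; simp
          rw [e2]
          refine Finset.sum_congr rfl fun p _ => ?_
          simp only [hν, hW, hR]
          ring
        rw [e1, div_le_iff₀ hWpos]
        refine h1.trans (le_of_eq ?_)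
        rw [hη]
        field_simp
        ring
      · rw [div_le_div_iff₀ hQ0 (by positivity)]
        have e1 : Cc * (2 ^ k * (10 * η₂ + θ)) = A * (10 * η₂ + θ) := by rw [hA]; ring
        rw [e1]
        have e2 : A * (10 * η₂ + θ) ≤ 1 / 8 := by
          calc A * (10 * η₂ + θ) ≤ A * (10 * η₂ + 1 / (16 * A)) := by gcongr
            _ = 1 / 8 := by rw [hη₂]; field_simp; norm_num
        nlinarith
    have h1 := lam_sum_large (hνF v hWpos) Q Ms (c + β 0) h hQ hhpos ε hε1 hper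
    have h2 := mul_le_mul_of_nonneg_left h1 hWpos.le
    refine h2.trans (le_of_eq ?_)
    simp only [hν, hW, hE]
    rw [mul_div_cancel₀ _ hWpos.ne']
    rfl
  have htot : δ / 4 * (1 / (2 * (Q : ℝ))) ≤ μ {z | z ≡ c + β 0 [MOD Q] ∧
      ε * h ≤ |∑ y ∈ Finset.range h, lam (z + Q * Ms * y)|} := by
    rw [fa_fiber hμ f V hfV]
    calc δ / 4 * (1 / (2 * (Q : ℝ))) ≤ (∑ v ∈ V', W v) * (1 / (2 * (Q : ℝ))) := by gcongr
      _ = ∑ v ∈ V', W v * (1 / (2 * (Q : ℝ))) := by rw [Finset.sum_mul]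
      _ ≤ ∑ v ∈ V', μ {n | n ∈ {z | z ≡ c + β 0 [MOD Q] ∧
          ε * h ≤ |∑ y ∈ Finset.range h, lam (z + Q * Ms * y)|} ∧ f n = v} :=
          Finset.sum_le_sum hcell
      _ ≤ _ := Finset.sum_le_sum_of_subset_of_nonneg hV'V (fun v _ _ => hμ.nonneg _)
  have hfin := htot.trans hMRtot
  have e1 : δ / 4 * (1 / (2 * (Q : ℝ))) = 8 * (δ / (64 * Q)) := by field_simp; norm_num
  have e2 : 0 < δ / (64 * (Q : ℝ)) := by positivity
  linarith

end Pool.Agent.H24.T2
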