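import Mathlib
import Pool.Agent.H24.T2.Psk
import Pool.Agent.H24.T2.Covk
import Pool.Agent.H24.T2.Loc
import Pool.Agent.H24.T2.LD
import Pool.Agent.H18.T2.EN2
import Pool.Agent.H18.T2.Multi
import Pool.Agent.H14.T2.Mom
import Pool.Agent.H14.T2.SCF
import Pool.Agent.H27.T2.FE
import Pool.Agent.H24.MR.Top

/-!
Assembly of project T2 on `MP_c59857_nt`.
-/

set_option autoImplicit false

namespace Pool.Agent.H24.T2

theorem mbStatement : StatementMB := by
  intro K
  obtain ⟨C, E, hC, h⟩ := Pool.Agent.H18.T2.multi_bound K
  exact ⟨C, E, hC, fun Q a N z U _ hQ hU hz hza => h Q a N z U hQ hU hz hza⟩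

theorem momStatement : StatementMOM := fun k M => Pool.Agent.H14.T2.mom k M

theorem pskStatement : StatementPSK := psk mbStatement momStatement

theorem locStatement : StatementLOC := loc Pool.Agent.H18.T2.en2 pskStatement covk

theorem ldStatement : StatementLD := ld Pool.Agent.H24.MR.mr

theorem t2 : StatementT2 := Pool.Agent.H27.T2.fe locStatement ldStatement

theorem sc : StatementSC := Pool.Agent.H14.T2.scf locStatement

end Pool.Agent.H24.T2
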