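import Mathlib

/-!
From short windows to logarithmic and ordinary averages (project T2 on `MP_c59857_nt`).
-/

set_option autoImplicit false

open Finset Filter

namespace Pool.Agent.H24.T2

theorem logshift (f : ℕ → ℝ) (hf : ∀ n, |f n| ≤ 1) (N : ℕ) :
    |∑ n ∈ Finset.Icc 1 N, f (n + 1) / n - ∑ n ∈ Finset.Icc 1 N, f n / n| ≤ 3 := by
  have key : ∑ n ∈ Finset.Icc 1 N, f (n + 1) / n + f 1 = ∑ n ∈ Finset.Icc 1 N, f n / n +
      f (N + 1) / (N + 1) + ∑ n ∈ Finset.Icc 1 N, f (n + 1) * (1 / n - 1 / (n + 1)) := by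
    induction N with
    | zero => simp
    | succ N ih =>
      rw [Finset.sum_Icc_succ_top (by omega), Finset.sum_Icc_succ_top (by omega),
        Finset.sum_Icc_succ_top (by omega)]
      have h1 : ((N : ℝ) + 1) ≠ 0 := by positivity
      have h2 : ((N : ℝ) + 1 + 1) ≠ 0 := by positivity
      push_cast
      have e : f (N + 1 + 1) / (N + 1 : ℝ) = f (N + 1 + 1) / (N + 1 + 1 : ℝ) +
          f (N + 1 + 1) * (1 / (N + 1 : ℝ) - 1 / (N + 1 + 1 : ℝ)) := by
        field_simp; ring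
      linarith
  have h1 : ∑ n ∈ Finset.Icc 1 N, ((1 : ℝ) / n - 1 / (n + 1)) = 1 - 1 / (N + 1) := by
    clear key
    induction N with
    | zero => simp
    | succ N ih =>
      rw [Finset.sum_Icc_succ_top (by omega), ih]
      push_cast; ring
  have h2 : |∑ n ∈ Finset.Icc 1 N, f (n + 1) * (1 / n - 1 / (n + 1))| ≤ 1 := by
    refine (Finset.abs_sum_le_sum_abs _ _).trans ?_
    have h3 : ∑ n ∈ Finset.Icc 1 N, |f (n + 1) * ((1 : ℝ) / n - 1 / (n + 1))| ≤
        ∑ n ∈ Finset.Icc 1 N, ((1 : ℝ) / n - 1 / (n + 1)) := by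
      refine Finset.sum_le_sum fun n hn => ?_
      have hn1 : (1 : ℝ) ≤ n := by exact_mod_cast (Finset.mem_Icc.1 hn).1
      have h4 : (0 : ℝ) ≤ 1 / n - 1 / (n + 1) := by
        rw [sub_nonneg]
        apply one_div_le_one_div_of_le <;> linarith
      rw [abs_mul, abs_of_nonneg h4]
      calc _ ≤ 1 * ((1 : ℝ) / n - 1 / (n + 1)) := mul_le_mul_of_nonneg_right (hf _) h4
        _ = _ := one_mul _
    refine h3.trans ?_
    rw [h1]
    have : (0 : ℝ) ≤ 1 / (N + 1) := by positivity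
    linarith
  have h3 : |f (N + 1) / (N + 1 : ℝ)| ≤ 1 := by
    rw [abs_div]
    have : (1 : ℝ) ≤ |(N : ℝ) + 1| := by
      rw [abs_of_nonneg (by positivity)]
      have : (0 : ℝ) ≤ N := Nat.cast_nonneg N
      linarith
    rw [div_le_one (by positivity)]
    exact (hf _).trans this
  have h4 := hf 1
  rw [abs_le] at *
  constructor <;> linarith

theorem logshift_iter (f : ℕ → ℝ) (hf : ∀ n, |f n| ≤ 1) (N j : ℕ) :
    |∑ n ∈ Finset.Icc 1 N, f (n + j) / n - ∑ n ∈ Finset.Icc 1 N, f n / n| ≤ 3 * j := by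
  induction j with
  | zero => simp
  | succ j ih =>
    have h1 := logshift (fun n => f (n + j)) (fun n => hf _) N
    have h2 : ∑ n ∈ Finset.Icc 1 N, f (n + (j + 1)) / (n : ℝ) =
        ∑ n ∈ Finset.Icc 1 N, f (n + 1 + j) / (n : ℝ) := by
      refine Finset.sum_congr rfl fun n _ => ?_
      rw [show n + (j + 1) = n + 1 + j by ring]
    rw [h2]
    rw [abs_le] at *
    push_cast
    constructor <;> linarith [ih.1, ih.2, h1.1, h1.2]

theorem natshift_iter (f : ℕ → ℝ) (hf : ∀ n, |f n| ≤ 1) (N j : ℕ) :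
    |∑ n ∈ Finset.Icc 1 N, f (n + j) - ∑ n ∈ Finset.Icc 1 N, f n| ≤ 2 * j := by
  induction j with
  | zero => simp
  | succ j ih =>
    have key : ∑ n ∈ Finset.Icc 1 N, f (n + (j + 1)) + f (1 + j) =
        ∑ n ∈ Finset.Icc 1 N, f (n + j) + f (N + 1 + j) := by
      clear ih
      induction N with
      | zero => simp
      | succ N ih =>
        rw [Finset.sum_Icc_succ_top (by omega), Finset.sum_Icc_succ_top (by omega)]
        have e : f (N + 1 + (j + 1)) = f (N + 1 + 1 + j) := by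
          congr 1; ring
        rw [e]
        linarith
    have h1 := hf (1 + j)
    have h2 := hf (N + 1 + j)
    rw [abs_le] at *
    push_cast
    constructor <;> linarith [ih.1, ih.2, h1.1, h1.2, h2.1, h2.2]

theorem sum_Ioc_eq (f : ℕ → ℝ) (n h : ℕ) :
    ∑ m ∈ Finset.Ioc n (n + h), f m = ∑ j ∈ Finset.range h, f (n + (j + 1)) := by
  induction h with
  | zero => simp
  | succ h ih =>
    rw [Finset.sum_range_succ, ← ih, ← add_assoc n h 1, Finset.sum_Ioc_succ_top (by omega)]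

theorem log_window (f : ℕ → ℝ) (hf : ∀ n, |f n| ≤ 1) (N h : ℕ) :
    |∑ n ∈ Finset.Icc 1 N, (∑ m ∈ Finset.Ioc n (n + h), f m) / n
      - h * ∑ n ∈ Finset.Icc 1 N, f n / n| ≤ 3 * h ^ 2 := by
  have e1 : ∑ n ∈ Finset.Icc 1 N, (∑ m ∈ Finset.Ioc n (n + h), f m) / (n : ℝ) =
      ∑ j ∈ Finset.range h, ∑ n ∈ Finset.Icc 1 N, f (n + (j + 1)) / (n : ℝ) := by
    rw [Finset.sum_comm]
    refine Finset.sum_congr rfl fun n _ => ?_
    rw [sum_Ioc_eq, Finset.sum_div]
  have e2 : (h : ℝ) * ∑ n ∈ Finset.Icc 1 N, f n / n =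
      ∑ j ∈ Finset.range h, ∑ n ∈ Finset.Icc 1 N, f n / (n : ℝ) := by
    rw [Finset.sum_const, Finset.card_range, nsmul_eq_mul]
  rw [e1, e2, ← Finset.sum_sub_distrib]
  refine (Finset.abs_sum_le_sum_abs _ _).trans ?_
  have h1 : ∀ j ∈ Finset.range h, |∑ n ∈ Finset.Icc 1 N, f (n + (j + 1)) / (n : ℝ) -
      ∑ n ∈ Finset.Icc 1 N, f n / (n : ℝ)| ≤ 3 * h := by
    intro j hj
    refine (logshift_iter f hf N (j + 1)).trans ?_
    have : j + 1 ≤ h := Finset.mem_range.1 hj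
    have : ((j + 1 : ℕ) : ℝ) ≤ h := by exact_mod_cast this
    linarith
  refine (Finset.sum_le_card_nsmul _ _ _ h1).trans (le_of_eq ?_)
  rw [Finset.card_range, nsmul_eq_mul]; ring

theorem nat_window (f : ℕ → ℝ) (hf : ∀ n, |f n| ≤ 1) (N h : ℕ) :
    |∑ n ∈ Finset.Icc 1 N, (∑ m ∈ Finset.Ioc n (n + h), f m)
      - h * ∑ n ∈ Finset.Icc 1 N, f n| ≤ 2 * h ^ 2 := by
  have e1 : ∑ n ∈ Finset.Icc 1 N, (∑ m ∈ Finset.Ioc n (n + h), f m) =
      ∑ j ∈ Finset.range h, ∑ n ∈ Finset.Icc 1 N, f (n + (j + 1)) := by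
    rw [Finset.sum_comm]
    refine Finset.sum_congr rfl fun n _ => ?_
    rw [sum_Ioc_eq]
  have e2 : (h : ℝ) * ∑ n ∈ Finset.Icc 1 N, f n =
      ∑ j ∈ Finset.range h, ∑ n ∈ Finset.Icc 1 N, f n := by
    rw [Finset.sum_const, Finset.card_range, nsmul_eq_mul]
  rw [e1, e2, ← Finset.sum_sub_distrib]
  refine (Finset.abs_sum_le_sum_abs _ _).trans ?_
  have h1 : ∀ j ∈ Finset.range h, |∑ n ∈ Finset.Icc 1 N, f (n + (j + 1)) -
      ∑ n ∈ Finset.Icc 1 N, f n| ≤ 2 * h := by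
    intro j hj
    refine (natshift_iter f hf N (j + 1)).trans ?_
    have : j + 1 ≤ h := Finset.mem_range.1 hj
    have : ((j + 1 : ℕ) : ℝ) ≤ h := by exact_mod_cast this
    linarith
  refine (Finset.sum_le_card_nsmul _ _ _ h1).trans (le_of_eq ?_)
  rw [Finset.card_range, nsmul_eq_mul]; ring

/-- the bad windows -/
def BadWin (f : ℕ → ℝ) (κ : ℝ) (h n : ℕ) : Prop :=
  (1 - κ) * (∑ m ∈ Finset.Ioc n (n + h), |f m|) < |∑ m ∈ Finset.Ioc n (n + h), f m|

theorem window_le (f : ℕ → ℝ) (hf : ∀ n, |f n| ≤ 1) (κ : ℝ) (hκ : 0 < κ) (h n : ℕ)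
    [Decidable (BadWin f κ h n)] :
    |∑ m ∈ Finset.Ioc n (n + h), f m| ≤ (1 - κ) * (∑ m ∈ Finset.Ioc n (n + h), |f m|) +
      κ * h * (if BadWin f κ h n then 1 else 0) := by
  split_ifs with hb
  · have h1 : |∑ m ∈ Finset.Ioc n (n + h), f m| ≤ ∑ m ∈ Finset.Ioc n (n + h), |f m| :=
      Finset.abs_sum_le_sum_abs _ _
    have h2 : ∑ m ∈ Finset.Ioc n (n + h), |f m| ≤ h := by
      refine (Finset.sum_le_card_nsmul _ _ 1 fun m _ => hf m).trans (le_of_eq ?_)
      rw [Nat.card_Ioc, nsmul_eq_mul]; simp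
    nlinarith
  · unfold BadWin at hb
    push Not at hb
    linarith

open Classical in
theorem log_gap (f : ℕ → ℝ) (hf : ∀ n, |f n| ≤ 1) (κ c : ℝ) (hκ : 0 < κ) (hκ1 : κ ≤ 1)
    (hc : 0 < c) (h : ℕ) (hh : 0 < h)
    (hden : ∀ᶠ N : ℕ in atTop, c * Real.log N ≤ ∑ n ∈ Finset.Icc 1 N, |f n| / n)
    (hbad : ∀ᶠ N : ℕ in atTop, ∑ n ∈ (Finset.Icc 1 N).filter (fun n => BadWin f κ h n), (1 : ℝ) / n
      ≤ c / 4 * Real.log N) :
    ∀ᶠ N : ℕ in atTop, |∑ n ∈ Finset.Icc 1 N, f n / n| ≤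
      (1 - κ / 2) * ∑ n ∈ Finset.Icc 1 N, |f n| / n := by
  have hlog : Tendsto (fun N : ℕ => Real.log (N : ℝ)) atTop atTop :=
    Real.tendsto_log_atTop.comp tendsto_natCast_atTop_atTop
  filter_upwards [hden, hbad, hlog.eventually (eventually_ge_atTop (24 * h / (κ * c)))]
    with N h1 h2 h3
  have hhR : (0 : ℝ) < h := by exact_mod_cast hh
  have w1 := log_window f hf N h
  have w2 := log_window (fun n => |f n|) (fun n => by rw [abs_abs]; exact hf n) N h
  have h4 : |∑ n ∈ Finset.Icc 1 N, (∑ m ∈ Finset.Ioc n (n + h), f m) / (n : ℝ)| ≤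
      (1 - κ) * ∑ n ∈ Finset.Icc 1 N, (∑ m ∈ Finset.Ioc n (n + h), |f m|) / (n : ℝ) +
      κ * h * (c / 4 * Real.log N) := by
    refine (Finset.abs_sum_le_sum_abs _ _).trans ?_
    have h5 : ∀ n ∈ Finset.Icc 1 N, |(∑ m ∈ Finset.Ioc n (n + h), f m) / (n : ℝ)| ≤
        (1 - κ) * ((∑ m ∈ Finset.Ioc n (n + h), |f m|) / (n : ℝ)) +
          κ * h * (if BadWin f κ h n then (1 : ℝ) / n else 0) := by
      intro n hn
      have hn0 : (0 : ℝ) < n := by exact_mod_cast (Finset.mem_Icc.1 hn).1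
      rw [abs_div, abs_of_pos hn0, div_le_iff₀ hn0]
      refine (window_le f hf κ hκ h n).trans (le_of_eq ?_)
      split_ifs
      · field_simp
      · field_simp; ring
    refine (Finset.sum_le_sum h5).trans ?_
    rw [Finset.sum_add_distrib, ← Finset.mul_sum, ← Finset.mul_sum, ← Finset.sum_filter]
    have : κ * h * ∑ n ∈ (Finset.Icc 1 N).filter (fun n => BadWin f κ h n), (1 : ℝ) / n ≤
        κ * h * (c / 4 * Real.log N) := by gcongr
    linarith
  set A := ∑ n ∈ Finset.Icc 1 N, f n / (n : ℝ) with hA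
  set B := ∑ n ∈ Finset.Icc 1 N, |f n| / (n : ℝ) with hB
  set S := ∑ n ∈ Finset.Icc 1 N, (∑ m ∈ Finset.Ioc n (n + h), f m) / (n : ℝ) with hS
  set G := ∑ n ∈ Finset.Icc 1 N, (∑ m ∈ Finset.Ioc n (n + h), |f m|) / (n : ℝ) with hG
  have h5 : (h : ℝ) * |A| ≤ |S| + 3 * h ^ 2 := by
    have h6 : |(h : ℝ) * A| ≤ |S| + |S - h * A| := by
      have := abs_sub_abs_le_abs_sub ((h : ℝ) * A) S
      rw [abs_sub_comm (h * A) S] at this
      linarith
    rw [abs_mul, abs_of_pos hhR] at h6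
    linarith
  have h6 : G ≤ h * B + 3 * h ^ 2 := by
    have := (abs_le.1 w2).2
    linarith
  have h7 : (h : ℝ) * |A| ≤ h * ((1 - κ) * B + κ * (c / 4 * Real.log N) + 6 * h) := by
    have h8 : (1 - κ) * G ≤ (1 - κ) * (h * B + 3 * h ^ 2) :=
      mul_le_mul_of_nonneg_left h6 (by linarith)
    have h9 : 0 ≤ κ * (3 * (h : ℝ) ^ 2) := by positivity
    nlinarith
  have h8 : |A| ≤ (1 - κ) * B + κ * (c / 4 * Real.log N) + 6 * h := le_of_mul_le_mul_left h7 hhR
  have h9 : 24 * (h : ℝ) ≤ κ * c * Real.log N := by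
    rw [div_le_iff₀ (by positivity)] at h3
    linarith
  have h10 : κ * (c * Real.log N) ≤ κ * B := mul_le_mul_of_nonneg_left h1 hκ.le
  nlinarith

open Classical in
/-- the number of bad windows -/
noncomputable def nbad (f : ℕ → ℝ) (κ : ℝ) (h N : ℕ) : ℝ :=
  (((Finset.Icc 1 N).filter (fun n => BadWin f κ h n)).card : ℝ)

theorem nat_gap_scale (f : ℕ → ℝ) (hf : ∀ n, |f n| ≤ 1) (κ c : ℝ) (hκ : 0 < κ) (hκ1 : κ ≤ 1)
    (hc : 0 < c) (h : ℕ) (hh : 0 < h) (N : ℕ) (hN : 16 * h ≤ κ * c * N)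
    (hden : c * N ≤ ∑ n ∈ Finset.Icc 1 N, |f n|) (hbad : nbad f κ h N ≤ c / 4 * N) :
    |∑ n ∈ Finset.Icc 1 N, f n| ≤ (1 - κ / 2) * ∑ n ∈ Finset.Icc 1 N, |f n| := by
  classical
  have hhR : (0 : ℝ) < h := by exact_mod_cast hh
  have w1 := nat_window f hf N h
  have w2 := nat_window (fun n => |f n|) (fun n => by rw [abs_abs]; exact hf n) N h
  have h4 : |∑ n ∈ Finset.Icc 1 N, (∑ m ∈ Finset.Ioc n (n + h), f m)| ≤
      (1 - κ) * ∑ n ∈ Finset.Icc 1 N, (∑ m ∈ Finset.Ioc n (n + h), |f m|) +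
      κ * h * (c / 4 * N) := by
    refine (Finset.abs_sum_le_sum_abs _ _).trans ?_
    refine (Finset.sum_le_sum fun n _ => window_le f hf κ hκ h n).trans ?_
    rw [Finset.sum_add_distrib, ← Finset.mul_sum, ← Finset.mul_sum, Finset.sum_boole]
    have e : nbad f κ h N = (((Finset.Icc 1 N).filter (fun n => BadWin f κ h n)).card : ℝ) := by
      unfold nbad
      congr
    rw [← e]
    have : κ * h * nbad f κ h N ≤ κ * h * (c / 4 * N) := by gcongr
    linarith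
  set A := ∑ n ∈ Finset.Icc 1 N, f n with hA
  set B := ∑ n ∈ Finset.Icc 1 N, |f n| with hB
  set S := ∑ n ∈ Finset.Icc 1 N, (∑ m ∈ Finset.Ioc n (n + h), f m) with hS
  set G := ∑ n ∈ Finset.Icc 1 N, (∑ m ∈ Finset.Ioc n (n + h), |f m|) with hG
  have h5 : (h : ℝ) * |A| ≤ |S| + 2 * h ^ 2 := by
    have h6 : |(h : ℝ) * A| ≤ |S| + |S - h * A| := by
      have := abs_sub_abs_le_abs_sub ((h : ℝ) * A) S
      rw [abs_sub_comm (h * A) S] at this
      linarith
    rw [abs_mul, abs_of_pos hhR] at h6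
    linarith
  have h6 : G ≤ h * B + 2 * h ^ 2 := by
    have := (abs_le.1 w2).2
    linarith
  have h7 : (h : ℝ) * |A| ≤ h * ((1 - κ) * B + κ * (c / 4 * N) + 4 * h) := by
    have h8 : (1 - κ) * G ≤ (1 - κ) * (h * B + 2 * h ^ 2) :=
      mul_le_mul_of_nonneg_left h6 (by linarith)
    have h9 : 0 ≤ κ * (2 * (h : ℝ) ^ 2) := by positivity
    nlinarith
  have h8 : |A| ≤ (1 - κ) * B + κ * (c / 4 * N) + 4 * h := le_of_mul_le_mul_left h7 hhR
  have h10 : κ * (c * N) ≤ κ * B := mul_le_mul_of_nonneg_left hden hκ.le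
  nlinarith

theorem sum_inv_sq_tail (n X : ℕ) (hn : 1 ≤ n) :
    ∑ N ∈ Finset.Icc n X, (1 : ℝ) / N ^ 2 ≤ 2 / n := by
  have hn1 : (1 : ℝ) ≤ n := by exact_mod_cast hn
  have key : ∀ X, ∑ N ∈ Finset.Icc n X, (1 : ℝ) / N ^ 2 ≤ 2 / n - (if n ≤ X then 1 / (X : ℝ) else 0) := by
    intro X
    induction X with
    | zero =>
      rw [Finset.Icc_eq_empty (by omega), Finset.sum_empty, if_neg (by omega), sub_zero]
      positivity
    | succ X ih =>
      rcases lt_trichotomy (X + 1) n with h | h | h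
      · rw [Finset.Icc_eq_empty (by omega), Finset.sum_empty, if_neg (by omega), sub_zero]
        positivity
      · subst h
        rw [Finset.Icc_self, Finset.sum_singleton, if_pos le_rfl]
        push_cast at hn1 ⊢
        have h2 : (1 : ℝ) / ((X : ℝ) + 1) ^ 2 ≤ 1 / ((X : ℝ) + 1) := by
          apply one_div_le_one_div_of_le (by positivity)
          nlinarith
        have e : (2 : ℝ) / ((X : ℝ) + 1) = 1 / ((X : ℝ) + 1) + 1 / ((X : ℝ) + 1) := by ring
        rw [e]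
        linarith
      · rw [Finset.sum_Icc_succ_top (by omega), if_pos (by omega)]
        rw [if_pos (by omega)] at ih
        have hX : (1 : ℝ) ≤ X := by
          have : 1 ≤ X := by omega
          exact_mod_cast this
        have h2 : (1 : ℝ) / (((X + 1 : ℕ) : ℝ)) ^ 2 ≤ 1 / X - 1 / ((X + 1 : ℕ) : ℝ) := by
          push_cast
          rw [div_sub_div _ _ (by positivity) (by positivity), div_le_div_iff₀ (by positivity)
            (by positivity)]
          nlinarith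
        linarith
  refine (key X).trans ?_
  split_ifs
  · have : (0 : ℝ) ≤ 1 / X := by positivity
    linarith
  · linarith

open Classical in
/-- most scales have few bad windows -/
theorem scales (f : ℕ → ℝ) (κ c : ℝ) (hc : 0 < c) (h X : ℕ) :
    ∑ N ∈ (Finset.Icc 1 X).filter (fun N => c / 4 * N < nbad f κ h N), (1 : ℝ) / N ≤
      8 / c * ∑ n ∈ (Finset.Icc 1 X).filter (fun n => BadWin f κ h n), (1 : ℝ) / n := by
  have h1 : ∑ N ∈ (Finset.Icc 1 X).filter (fun N => c / 4 * N < nbad f κ h N), (1 : ℝ) / N ≤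
      ∑ N ∈ Finset.Icc 1 X, 4 / c * (nbad f κ h N * (1 / (N : ℝ) ^ 2)) := by
    have h2 : ∑ N ∈ (Finset.Icc 1 X).filter (fun N => c / 4 * N < nbad f κ h N), (1 : ℝ) / N ≤
        ∑ N ∈ (Finset.Icc 1 X).filter (fun N => c / 4 * N < nbad f κ h N),
          4 / c * (nbad f κ h N * (1 / (N : ℝ) ^ 2)) := by
      refine Finset.sum_le_sum fun N hN => ?_
      rw [Finset.mem_filter, Finset.mem_Icc] at hN
      have hN0 : (0 : ℝ) < N := by exact_mod_cast hN.1.1
      have h3 := hN.2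
      rw [← mul_assoc, mul_one_div, div_le_div_iff₀ hN0 (by positivity)]
      have h4 : (N : ℝ) ≤ 4 / c * nbad f κ h N := by
        rw [div_mul_eq_mul_div, le_div_iff₀ hc]
        linarith
      nlinarith
    refine h2.trans (Finset.sum_le_sum_of_subset_of_nonneg (Finset.filter_subset _ _) ?_)
    intro N _ _
    unfold nbad
    positivity
  refine h1.trans ?_
  rw [← Finset.mul_sum]
  have h2 : ∑ N ∈ Finset.Icc 1 X, nbad f κ h N * (1 / (N : ℝ) ^ 2) =
      ∑ n ∈ (Finset.Icc 1 X).filter (fun n => BadWin f κ h n), ∑ N ∈ Finset.Icc n X,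
        (1 : ℝ) / N ^ 2 := by
    have h3 : ∀ N ∈ Finset.Icc 1 X, nbad f κ h N * (1 / (N : ℝ) ^ 2) =
        ∑ n ∈ (Finset.Icc 1 X).filter (fun n => BadWin f κ h n),
          (if n ≤ N then (1 : ℝ) / N ^ 2 else 0) := by
      intro N hN
      rw [← Finset.sum_filter, Finset.filter_filter, Finset.sum_const, nsmul_eq_mul]
      congr 1
      unfold nbad
      congr 2
      ext n
      simp only [Finset.mem_filter, Finset.mem_Icc] at hN ⊢
      constructor
      · rintro ⟨⟨h4, h5⟩, h6⟩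
        exact ⟨⟨h4, by omega⟩, h6, h5⟩
      · rintro ⟨⟨h4, h5⟩, h6, h7⟩
        exact ⟨⟨h4, h7⟩, h6⟩
    rw [Finset.sum_congr rfl h3, Finset.sum_comm]
    refine Finset.sum_congr rfl fun n hn => ?_
    rw [← Finset.sum_filter]
    apply Finset.sum_congr _ (fun _ _ => rfl)
    ext N
    simp only [Finset.mem_filter, Finset.mem_Icc] at hn ⊢
    constructor
    · rintro ⟨⟨h4, h5⟩, h6⟩; exact ⟨h6, h5⟩
    · rintro ⟨h4, h5⟩; exact ⟨⟨by omega, h5⟩, h4⟩
  rw [h2]
  have h3 : ∑ n ∈ (Finset.Icc 1 X).filter (fun n => BadWin f κ h n), ∑ N ∈ Finset.Icc n X,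
        (1 : ℝ) / N ^ 2 ≤ ∑ n ∈ (Finset.Icc 1 X).filter (fun n => BadWin f κ h n), 2 * ((1 : ℝ) / n) := by
    refine Finset.sum_le_sum fun n hn => ?_
    rw [Finset.mem_filter, Finset.mem_Icc] at hn
    refine (sum_inv_sq_tail n X hn.1.1).trans (le_of_eq ?_)
    ring
  rw [← Finset.mul_sum] at h3
  calc _ ≤ 4 / c * (2 * ∑ n ∈ (Finset.Icc 1 X).filter (fun n => BadWin f κ h n), (1 : ℝ) / n) := by
        gcongr
    _ = _ := by ring

end Pool.Agent.H24.T2
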