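import Mathlib
import Pool.Agent.H24.T2.Gap
import Pool.Agent.H24.T2.Final

/-!
Corollaries of T2 for logarithmic and ordinary averages (project T2 on `MP_c59857_nt`).
-/

set_option autoImplicit false

open Finset Filter

namespace Pool.Agent.H24.T2

theorem Fr_trich {r : ℕ} (α : Fin r → ℤ) (ε : Fin r → ℕ) (m : ℕ) :
    Fr α ε m = 0 ∨ Fr α ε m = 1 ∨ Fr α ε m = -1 := by
  classical
  unfold Fr
  have hgen : ∀ (s : Finset (Fin r)),
      ∏ i ∈ s, ((ArithmeticFunction.moebius (((m : ℤ) + α i).toNat) : ℤ) : ℝ) ^ ε i = 0 ∨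
      ∏ i ∈ s, ((ArithmeticFunction.moebius (((m : ℤ) + α i).toNat) : ℤ) : ℝ) ^ ε i = 1 ∨
      ∏ i ∈ s, ((ArithmeticFunction.moebius (((m : ℤ) + α i).toNat) : ℤ) : ℝ) ^ ε i = -1 := by
    intro s
    induction s using Finset.induction_on with
    | empty => right; left; simp
    | insert x s hx ih =>
      rw [Finset.prod_insert hx]
      have h1 : ((ArithmeticFunction.moebius (((m : ℤ) + α x).toNat) : ℤ) : ℝ) ^ ε x = 0 ∨
          ((ArithmeticFunction.moebius (((m : ℤ) + α x).toNat) : ℤ) : ℝ) ^ ε x = 1 ∨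
          ((ArithmeticFunction.moebius (((m : ℤ) + α x).toNat) : ℤ) : ℝ) ^ ε x = -1 := by
        rcases ArithmeticFunction.moebius_eq_or (((m : ℤ) + α x).toNat) with h | h | h
        · rw [h]
          rcases Nat.eq_zero_or_pos (ε x) with h0 | h0
          · right; left; rw [h0, pow_zero]
          · left; rw [Int.cast_zero]; exact zero_pow h0.ne'
        · rw [h]; right; left; simp
        · rw [h]; right
          rw [Int.cast_neg, Int.cast_one]
          exact neg_one_pow_eq_or ℝ _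
      rcases ih with h | h | h <;> rcases h1 with h1 | h1 | h1 <;> simp [h, h1]
  exact hgen Finset.univ

theorem Fr_abs_le {r : ℕ} (α : Fin r → ℤ) (ε : Fin r → ℕ) (m : ℕ) : |Fr α ε m| ≤ 1 := by
  rcases Fr_trich α ε m with h | h | h <;> rw [h] <;> norm_num

theorem Fr_abs {r : ℕ} (α : Fin r → ℤ) (ε : Fin r → ℕ) (m : ℕ) (h0 : Fr α ε m ≠ 0) :
    |Fr α ε m| = 1 := by
  rcases Fr_trich α ε m with h | h | h
  · exact (h0 h).elim
  · rw [h]; norm_num
  · rw [h]; norm_num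

open Classical in
/-- lower bound for the density of the nonzero values in a residue class, uniform in the shifts -/
theorem nonzero_density (r q : ℕ) (hq : 0 < q) : ∃ c : ℝ, 0 < c ∧
    ∀ (α : Fin r → ℤ) (ε : Fin r → ℕ) (n₀ : ℕ), (∀ i, 1 ≤ ε i) → Fr α ε n₀ ≠ 0 →
      ∃ C : ℝ, ∀ N : ℕ, c * N - C ≤
        (((Finset.range N).filter (fun n => n ≡ n₀ [MOD q] ∧ Fr α ε n ≠ 0)).card : ℝ) := by
  obtain ⟨w, hw⟩ : ∃ w, w = q + 4 * r + 2 := ⟨_, rfl⟩
  obtain ⟨W, hW, -, hqW, hWp, hWsq⟩ := Pool.Agent.H27.T2.exists_modulus q w hq (by omega) (by omega)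
  have hWR : (0 : ℝ) < W := by exact_mod_cast hW
  refine ⟨1 / (2 * W), by positivity, ?_⟩
  intro α ε n₀ hε hn₀
  have hc : ∀ i, ∀ p : ℕ, p.Prime → p ≤ w → ¬ ((p : ℤ) ^ 2 ∣ (n₀ : ℤ) + α i) := by
    intro i p hp _ hdvd
    have h1 : ArithmeticFunction.moebius (((n₀ : ℤ) + α i).toNat) ≠ 0 := by
      intro h
      apply hn₀
      unfold Fr
      apply Finset.prod_eq_zero (Finset.mem_univ i)
      rw [h, Int.cast_zero]
      exact zero_pow (by have := hε i; omega)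
    rw [ArithmeticFunction.moebius_ne_zero_iff_squarefree] at h1
    have h2 : 0 < (n₀ : ℤ) + α i := by
      by_contra hcon
      rw [Int.toNat_of_nonpos (not_lt.1 hcon)] at h1
      exact not_squarefree_zero h1
    have h3 : p * p ∣ ((n₀ : ℤ) + α i).toNat := by
      rw [← Int.natCast_dvd_natCast, Int.toNat_of_nonneg h2.le]
      push_cast
      rw [← sq]
      exact hdvd
    exact hp.not_isUnit (h1 p h3)
  obtain ⟨C₁, hC₁⟩ := Pool.Agent.H27.T2.card_zero_le α ε W w n₀ hW (by omega) hWp hWsq hc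
  refine ⟨C₁ + 1 + r ^ 2 * W, fun N => ?_⟩
  have h1 := hC₁ N
  have h2 := Pool.Agent.H75.PS.card_modEq 0 N W n₀ hW
  rw [zero_add, ← Finset.range_eq_Ico] at h2
  have h3 : (((Finset.range N).filter (fun n => n ≡ n₀ [MOD W])).card : ℝ) ≤
      (((Finset.range N).filter (fun n => n ≡ n₀ [MOD q] ∧ Fr α ε n ≠ 0)).card : ℝ) +
      (((range N).filter (fun m => m ∈ {m : ℕ | m ≡ n₀ [MOD W] ∧ Fr α ε m = 0})).card : ℝ) := by
    rw [← Nat.cast_add]
    have h4 : (Finset.range N).filter (fun n => n ≡ n₀ [MOD W]) ⊆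
        (Finset.range N).filter (fun n => n ≡ n₀ [MOD q] ∧ Fr α ε n ≠ 0) ∪
        (range N).filter (fun m => m ∈ {m : ℕ | m ≡ n₀ [MOD W] ∧ Fr α ε m = 0}) := by
      intro n hn
      rw [Finset.mem_filter] at hn
      rw [Finset.mem_union, Finset.mem_filter, Finset.mem_filter]
      by_cases h5 : Fr α ε n = 0
      · right; exact ⟨hn.1, hn.2, h5⟩
      · left; exact ⟨hn.1, hn.2.of_dvd hqW, h5⟩
    exact_mod_cast (Finset.card_le_card h4).trans (Finset.card_union_le _ _)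
  have h4 := (abs_le.1 h2).1
  have h5 : (r / (w * W) : ℝ) * N ≤ 1 / (4 * W) * N := by
    apply mul_le_mul_of_nonneg_right _ (Nat.cast_nonneg _)
    have hwr : (4 * r : ℝ) ≤ w := by
      have : 4 * r ≤ w := by omega
      exact_mod_cast this
    have hw0 : (0 : ℝ) < w := by
      have : 0 < w := by omega
      exact_mod_cast this
    rw [div_le_div_iff₀ (by positivity) (by positivity)]
    nlinarith
  have h6 : (r : ℝ) * Real.sqrt N ≤ 1 / (4 * W) * N + r ^ 2 * W := by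
    have h7 : Real.sqrt N ^ 2 = N := Real.sq_sqrt (Nat.cast_nonneg _)
    set s := Real.sqrt (N : ℝ) with hs
    have h8 : 0 ≤ (1 / (2 * W) * s - r) ^ 2 * W := by positivity
    have h9 : (1 / (2 * W) * s - r) ^ 2 * W = 1 / (4 * W) * s ^ 2 - r * s + r ^ 2 * W := by
      field_simp; ring
    rw [h9, h7] at h8
    linarith
  have h7 : (N : ℝ) / W = 1 / (2 * W) * N + 1 / (4 * W) * N + 1 / (4 * W) * N := by
    field_simp; ring
  linarith

/-- the restriction of `Fr` to a class -/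
noncomputable def fr {r : ℕ} (α : Fin r → ℤ) (ε : Fin r → ℕ) (q n₀ m : ℕ) : ℝ :=
  if m ≡ n₀ [MOD q] then Fr α ε m else 0

theorem fr_abs_le {r : ℕ} (α : Fin r → ℤ) (ε : Fin r → ℕ) (q n₀ m : ℕ) :
    |fr α ε q n₀ m| ≤ 1 := by
  unfold fr
  split_ifs
  · exact Fr_abs_le α ε m
  · norm_num

theorem sum_fr {r : ℕ} (α : Fin r → ℤ) (ε : Fin r → ℕ) (q n₀ : ℕ) (s : Finset ℕ) :
    ∑ m ∈ s, fr α ε q n₀ m = ∑ m ∈ s.filter (fun m => m ≡ n₀ [MOD q]), Fr α ε m := by
  rw [Finset.sum_filter]; rfl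

theorem sum_fr_abs {r : ℕ} (α : Fin r → ℤ) (ε : Fin r → ℕ) (q n₀ : ℕ) (s : Finset ℕ) :
    ∑ m ∈ s, |fr α ε q n₀ m| = ∑ m ∈ s.filter (fun m => m ≡ n₀ [MOD q]), |Fr α ε m| := by
  rw [Finset.sum_filter]
  refine Finset.sum_congr rfl fun m _ => ?_
  unfold fr
  split_ifs <;> simp

theorem sum_fr_div {r : ℕ} (α : Fin r → ℤ) (ε : Fin r → ℕ) (q n₀ : ℕ) (s : Finset ℕ) :
    ∑ m ∈ s, fr α ε q n₀ m / m = ∑ m ∈ s.filter (fun m => m ≡ n₀ [MOD q]), Fr α ε m / m := by
  rw [Finset.sum_filter]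
  refine Finset.sum_congr rfl fun m _ => ?_
  unfold fr
  split_ifs <;> simp

theorem sum_fr_abs_div {r : ℕ} (α : Fin r → ℤ) (ε : Fin r → ℕ) (q n₀ : ℕ) (s : Finset ℕ) :
    ∑ m ∈ s, |fr α ε q n₀ m| / m =
      ∑ m ∈ s.filter (fun m => m ≡ n₀ [MOD q]), |Fr α ε m| / m := by
  rw [Finset.sum_filter]
  refine Finset.sum_congr rfl fun m _ => ?_
  unfold fr
  split_ifs <;> simp

/-- densities of the absolute values -/
theorem fr_density (r q : ℕ) (hq : 0 < q) : ∃ c : ℝ, 0 < c ∧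
    ∀ (α : Fin r → ℤ) (ε : Fin r → ℕ) (n₀ : ℕ), (∀ i, 1 ≤ ε i) → Fr α ε n₀ ≠ 0 →
      (∀ᶠ N : ℕ in atTop, c * N ≤ ∑ n ∈ Finset.Icc 1 N, |fr α ε q n₀ n|) ∧
      (∀ᶠ N : ℕ in atTop, c * Real.log N ≤ ∑ n ∈ Finset.Icc 1 N, |fr α ε q n₀ n| / n) := by
  classical
  obtain ⟨c, hc, h⟩ := nonzero_density r q hq
  refine ⟨c / 2, by positivity, ?_⟩
  intro α ε n₀ hε hn₀
  obtain ⟨C, hC⟩ := h α ε n₀ hε hn₀
  obtain ⟨A, hA⟩ : ∃ A : Set ℕ, ∀ n, n ∈ A ↔ (n ≡ n₀ [MOD q] ∧ Fr α ε n ≠ 0) :=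
    ⟨{n | n ≡ n₀ [MOD q] ∧ Fr α ε n ≠ 0}, fun n => Iff.rfl⟩
  have hcard : ∀ N : ℕ, c * N - C ≤ (((Finset.range N).filter (fun m => m ∈ A)).card : ℝ) := by
    intro N
    refine (hC N).trans (le_of_eq ?_)
    congr 2
    ext n
    simp only [Finset.mem_filter, hA]
  have habs : ∀ n, |fr α ε q n₀ n| = if n ∈ A then 1 else 0 := by
    intro n
    unfold fr
    by_cases h1 : n ≡ n₀ [MOD q]
    · by_cases h2 : Fr α ε n = 0
      · have : n ∉ A := fun h3 => ((hA n).1 h3).2 h2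
        rw [if_pos h1, if_neg this, h2, abs_zero]
      · have : n ∈ A := (hA n).2 ⟨h1, h2⟩
        rw [if_pos h1, if_pos this, Fr_abs α ε n h2]
    · have : n ∉ A := fun h3 => h1 ((hA n).1 h3).1
      rw [if_neg h1, if_neg this, abs_zero]
  constructor
  · obtain ⟨N₁, hN₁⟩ := exists_nat_ge ((|C| + 1) / (c / 2))
    filter_upwards [eventually_ge_atTop N₁] with N hN
    have h1 : ∑ n ∈ Finset.Icc 1 N, |fr α ε q n₀ n| =
        (((Finset.Icc 1 N).filter (fun m => m ∈ A)).card : ℝ) := by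
      rw [Finset.card_filter]
      push_cast
      exact Finset.sum_congr rfl fun n _ => habs n
    have h2 : ((Finset.range N).filter (fun m => m ∈ A)).card ≤
        ((Finset.Icc 1 N).filter (fun m => m ∈ A)).card + 1 := by
      have h3 : (Finset.range N).filter (fun m => m ∈ A) ⊆
          insert 0 ((Finset.Icc 1 N).filter (fun m => m ∈ A)) := by
        intro n hn
        rw [Finset.mem_filter, Finset.mem_range] at hn
        rw [Finset.mem_insert, Finset.mem_filter, Finset.mem_Icc]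
        rcases Nat.eq_zero_or_pos n with h0 | h0
        · exact Or.inl h0
        · exact Or.inr ⟨⟨h0, hn.1.le⟩, hn.2⟩
      exact (Finset.card_le_card h3).trans (Finset.card_insert_le _ _)
    have h3 : (((Finset.range N).filter (fun m => m ∈ A)).card : ℝ) ≤
        (((Finset.Icc 1 N).filter (fun m => m ∈ A)).card : ℝ) + 1 := by exact_mod_cast h2
    have h4 := hcard N
    have h5 : (|C| + 1) / (c / 2) ≤ N := hN₁.trans (by exact_mod_cast hN)
    rw [div_le_iff₀ (by positivity)] at h5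
    rw [h1]
    have := le_abs_self C
    linarith
  · have hlog : Tendsto (fun N : ℕ => Real.log (N : ℝ)) atTop atTop :=
      Real.tendsto_log_atTop.comp tendsto_natCast_atTop_atTop
    filter_upwards [hlog.eventually (eventually_ge_atTop ((c + |C| + 1) / (c / 2)))] with N hN
    have h1 : ∑ n ∈ Finset.Icc 1 N, |fr α ε q n₀ n| / (n : ℝ) = lsum A N := by
      rw [lsum_eq_ite]
      refine Finset.sum_congr rfl fun n _ => ?_
      rw [habs]
      split_ifs <;> simp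
    rw [h1, lsum_abel]
    have h2 : (0 : ℝ) ≤ (((Finset.range (N + 1)).filter (fun m => m ∈ A)).card : ℝ) / (N + 1) := by
      positivity
    have h3 : (((Finset.range 1).filter (fun m => m ∈ A)).card : ℝ) ≤ 1 := by
      have := Finset.card_filter_le (Finset.range 1) (fun m => m ∈ A)
      rw [Finset.card_range] at this
      exact_mod_cast this
    have h4 : ∀ m ∈ Finset.Icc 1 N, c * ((1 : ℝ) / m) - |C| * (1 / m - 1 / (m + 1)) ≤
        (((Finset.range (m + 1)).filter (fun m => m ∈ A)).card : ℝ) / (m * (m + 1)) := by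
      intro m hm
      have hm1 : (1 : ℝ) ≤ m := by exact_mod_cast (Finset.mem_Icc.1 hm).1
      have hm0 : (0 : ℝ) < m := by linarith
      rw [le_div_iff₀ (by positivity)]
      have h5 := hcard (m + 1)
      push_cast at h5
      have e : (c * ((1 : ℝ) / m) - |C| * (1 / m - 1 / (m + 1))) * (m * (m + 1)) =
          c * (m + 1) - |C| := by
        field_simp
        ring
      rw [e]
      have := le_abs_self C
      linarith
    have h5 := Finset.sum_le_sum h4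
    rw [Finset.sum_sub_distrib, ← Finset.mul_sum, ← Finset.mul_sum] at h5
    have h6 : ∑ m ∈ Finset.Icc 1 N, ((1 : ℝ) / m - 1 / (m + 1)) ≤ 1 := by
      have : ∑ m ∈ Finset.Icc 1 N, ((1 : ℝ) / m - 1 / (m + 1)) = 1 - 1 / (N + 1) := by
        clear h5 h4 h3 h2 h1 hN
        induction N with
        | zero => simp
        | succ n ih =>
          rw [Finset.sum_Icc_succ_top (by omega), ih]
          push_cast
          ring
      rw [this]
      have : (0 : ℝ) ≤ 1 / (N + 1) := by positivity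
      linarith
    have h7 : ∑ m ∈ Finset.Icc 1 N, (1 : ℝ) / m = lsum Set.univ N := by
      rw [lsum_eq_ite]
      simp
    have h8 := le_lsum_univ N
    rw [h7] at h5
    have h9 : |C| * ∑ m ∈ Finset.Icc 1 N, ((1 : ℝ) / m - 1 / (m + 1)) ≤ |C| := by
      have := mul_le_mul_of_nonneg_left h6 (abs_nonneg C)
      linarith
    have h10 : c * Real.log N ≤ c * lsum Set.univ N := mul_le_mul_of_nonneg_left h8 hc.le
    rw [div_le_iff₀ (by positivity)] at hN
    linarith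

open Classical in
/-- T2 with `κ ≤ 1` in terms of `BadWin` -/
theorem t2' (r : ℕ) (δ : ℝ) (hδ : 0 < δ) : ∃ κ : ℝ, 0 < κ ∧ κ ≤ 1 ∧
    ∀ (α : Fin r → ℤ) (ε : Fin r → ℕ) (q n₀ : ℕ), Function.Injective α → (∀ i, 1 ≤ ε i) →
      (∃ i, Odd (ε i)) → 0 < q → ∃ h : ℕ, 0 < h ∧ ∀ᶠ N : ℕ in atTop,
        ∑ n ∈ (Finset.Icc 1 N).filter (fun n => BadWin (fr α ε q n₀) κ h n), (1 : ℝ) / n ≤
          δ * Real.log N := by
  classical
  obtain ⟨κ, hκ, hT⟩ := t2 r δ hδ
  refine ⟨min κ 1, by positivity, min_le_right _ _, ?_⟩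
  intro α ε q n₀ hα hε hodd hq
  obtain ⟨h₀, hh₀⟩ := hT α ε q n₀ hα hε hodd hq
  refine ⟨h₀ + 1, Nat.succ_pos _, ?_⟩
  obtain ⟨N₀, hN₀⟩ := hh₀ (h₀ + 1) (Nat.le_succ _)
  filter_upwards [eventually_ge_atTop N₀] with N hN
  refine le_trans ?_ (hN₀ N hN)
  apply Finset.sum_le_sum_of_subset_of_nonneg
  · intro n hn
    rw [Finset.mem_filter] at hn ⊢
    refine ⟨hn.1, ?_⟩
    have h1 := hn.2
    unfold BadWin at h1
    rw [sum_fr, sum_fr_abs] at h1
    refine lt_of_le_of_lt ?_ h1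
    apply mul_le_mul_of_nonneg_right
    · have := min_le_left κ 1
      linarith
    · exact Finset.sum_nonneg fun _ _ => abs_nonneg _
  · intro n _ _
    positivity

/-- logarithmic averages -/
theorem log_average (r q : ℕ) (hq : 0 < q) : ∃ κ : ℝ, 0 < κ ∧
    ∀ (α : Fin r → ℤ) (ε : Fin r → ℕ) (n₀ : ℕ), Function.Injective α → (∀ i, 1 ≤ ε i) →
      (∃ i, Odd (ε i)) → Fr α ε n₀ ≠ 0 → ∀ᶠ N : ℕ in atTop,
        |∑ n ∈ (Finset.Icc 1 N).filter (fun n => n ≡ n₀ [MOD q]), Fr α ε n / n| ≤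
          (1 - κ) * ∑ n ∈ (Finset.Icc 1 N).filter (fun n => n ≡ n₀ [MOD q]), |Fr α ε n| / n := by
  classical
  obtain ⟨c, hc, hden⟩ := fr_density r q hq
  obtain ⟨κ, hκ, hκ1, hT⟩ := t2' r (c / 4) (by positivity)
  refine ⟨κ / 2, by positivity, ?_⟩
  intro α ε n₀ hα hε hodd hn₀
  obtain ⟨h, hh, hbad⟩ := hT α ε q n₀ hα hε hodd hq
  have h1 := log_gap (fr α ε q n₀) (fr_abs_le α ε q n₀) κ c hκ hκ1 hc h hh
    (hden α ε n₀ hε hn₀).2 (by
      filter_upwards [hbad] with N hN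
      refine le_trans (le_of_eq ?_) hN
      congr)
  filter_upwards [h1] with N hN
  rw [sum_fr_div, sum_fr_abs_div] at hN
  exact hN

open Classical in
/-- ordinary averages at most scales -/
theorem nat_average (r q : ℕ) (hq : 0 < q) (δ : ℝ) (hδ : 0 < δ) : ∃ κ : ℝ, 0 < κ ∧
    ∀ (α : Fin r → ℤ) (ε : Fin r → ℕ) (n₀ : ℕ), Function.Injective α → (∀ i, 1 ≤ ε i) →
      (∃ i, Odd (ε i)) → Fr α ε n₀ ≠ 0 → ∀ᶠ X : ℕ in atTop,
        ∑ N ∈ (Finset.Icc 1 X).filter (fun N =>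
          (1 - κ) * ∑ n ∈ (Finset.Icc 1 N).filter (fun n => n ≡ n₀ [MOD q]), |Fr α ε n| <
          |∑ n ∈ (Finset.Icc 1 N).filter (fun n => n ≡ n₀ [MOD q]), Fr α ε n|), (1 : ℝ) / N ≤
          δ * Real.log X := by
  obtain ⟨c, hc, hden⟩ := fr_density r q hq
  obtain ⟨κ, hκ, hκ1, hT⟩ := t2' r (c * δ / 16) (by positivity)
  refine ⟨κ / 2, by positivity, ?_⟩
  intro α ε n₀ hα hε hodd hn₀
  obtain ⟨h, hh, hbad⟩ := hT α ε q n₀ hα hε hodd hq
  obtain ⟨N₁, hN₁⟩ := eventually_atTop.1 (hden α ε n₀ hε hn₀).1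
  obtain ⟨N₂, hN₂⟩ := exists_nat_ge (16 * h / (κ * c))
  have hlog : Tendsto (fun N : ℕ => Real.log (N : ℝ)) atTop atTop :=
    Real.tendsto_log_atTop.comp tendsto_natCast_atTop_atTop
  set M := max N₁ N₂ with hM
  filter_upwards [hbad, hlog.eventually (eventually_ge_atTop ((M : ℝ) / (δ / 2)))] with X h1 h2
  have h3 : (Finset.Icc 1 X).filter (fun N =>
          (1 - κ / 2) * ∑ n ∈ (Finset.Icc 1 N).filter (fun n => n ≡ n₀ [MOD q]), |Fr α ε n| <
          |∑ n ∈ (Finset.Icc 1 N).filter (fun n => n ≡ n₀ [MOD q]), Fr α ε n|) ⊆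
      Finset.Icc 1 M ∪ (Finset.Icc 1 X).filter (fun N => c / 4 * N < nbad (fr α ε q n₀) κ h N) := by
    intro N hN
    rw [Finset.mem_filter] at hN
    rw [Finset.mem_union]
    by_cases h4 : N ≤ M
    · left
      rw [Finset.mem_Icc]
      exact ⟨(Finset.mem_Icc.1 hN.1).1, h4⟩
    · right
      rw [Finset.mem_filter]
      refine ⟨hN.1, ?_⟩
      by_contra h5
      push Not at h5
      have h6 : M ≤ N := by omega
      have h7 : (16 * h : ℝ) ≤ κ * c * N := by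
        have h8 : (16 * h / (κ * c) : ℝ) ≤ N :=
          hN₂.trans (by exact_mod_cast (le_max_right N₁ N₂).trans h6)
        rw [div_le_iff₀ (by positivity)] at h8
        linarith
      have h8 := nat_gap_scale (fr α ε q n₀) (fr_abs_le α ε q n₀) κ c hκ hκ1 hc h hh N h7
        (hN₁ N ((le_max_left N₁ N₂).trans h6)) h5
      rw [sum_fr, sum_fr_abs] at h8
      exact absurd hN.2 (not_lt.2 h8)
  have h4 : ∑ N ∈ (Finset.Icc 1 X).filter (fun N =>
          (1 - κ / 2) * ∑ n ∈ (Finset.Icc 1 N).filter (fun n => n ≡ n₀ [MOD q]), |Fr α ε n| <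
          |∑ n ∈ (Finset.Icc 1 N).filter (fun n => n ≡ n₀ [MOD q]), Fr α ε n|), (1 : ℝ) / N ≤
      ∑ N ∈ Finset.Icc 1 M, (1 : ℝ) / N +
      ∑ N ∈ (Finset.Icc 1 X).filter (fun N => c / 4 * N < nbad (fr α ε q n₀) κ h N),
        (1 : ℝ) / N := by
    refine (Finset.sum_le_sum_of_subset_of_nonneg h3 (fun N _ _ => by positivity)).trans ?_
    rw [← Finset.sum_union_inter]
    have : (0 : ℝ) ≤ ∑ N ∈ Finset.Icc 1 M ∩
      (Finset.Icc 1 X).filter (fun N => c / 4 * N < nbad (fr α ε q n₀) κ h N), (1 : ℝ) / N :=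
      Finset.sum_nonneg fun N _ => by positivity
    linarith
  have h5 : ∑ N ∈ Finset.Icc 1 M, (1 : ℝ) / N ≤ M := by
    have h6 : ∀ N ∈ Finset.Icc 1 M, (1 : ℝ) / N ≤ 1 := by
      intro N hN
      have : (1 : ℝ) ≤ N := by exact_mod_cast (Finset.mem_Icc.1 hN).1
      rw [div_le_one (by linarith)]
      exact this
    refine (Finset.sum_le_card_nsmul _ _ _ h6).trans (le_of_eq ?_)
    simp
  have h6 := scales (fr α ε q n₀) κ c hc h X
  have h7 : 8 / c * ∑ n ∈ (Finset.Icc 1 X).filter (fun n => BadWin (fr α ε q n₀) κ h n),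
      (1 : ℝ) / n ≤ 8 / c * (c * δ / 16 * Real.log X) := by
    apply mul_le_mul_of_nonneg_left _ (by positivity)
    refine le_trans (le_of_eq ?_) h1
    congr
  have h8 : 8 / c * (c * δ / 16 * Real.log X) = δ / 2 * Real.log X := by
    field_simp; ring
  have h9 : (M : ℝ) ≤ δ / 2 * Real.log X := by
    rw [div_le_iff₀ (by positivity)] at h2
    linarith
  linarith

end Pool.Agent.H24.T2
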